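import Pool.Agent.K4H18.EK.A20

set_option autoImplicit false

/-! Uniform convergence of the joint distribution functions. -/

namespace Pool.Agent.K4H18.EK

open Finset MeasureTheory ProbabilityTheory Filter Topology WithLp

lemma Ph_nonneg (x : ℝ) : 0 ≤ Ph x := cdf_nonneg _ _

lemma Ph_le_one (x : ℝ) : Ph x ≤ 1 := cdf_le_one _ _

lemma Ph_mono {x y : ℝ} (h : x ≤ y) : Ph x ≤ Ph y := monotone_cdf _ h

lemma Ph_lip {a b : ℝ} (h : a ≤ b) : Ph b - Ph a ≤ b - a := by
  unfold Ph
  rw [cdf_eq_real, cdf_eq_real]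
  have h1 : Set.Iic b = Set.Iic a ∪ Set.Ioc a b := (Set.Iic_union_Ioc_eq_Iic h).symm
  have h2 : (gaussianReal 0 1).real (Set.Iic b) = (gaussianReal 0 1).real (Set.Iic a) + (gaussianReal 0 1).real (Set.Ioc a b) := by
    rw [h1, measureReal_union (Set.Iic_disjoint_Ioc le_rfl) measurableSet_Ioc]
  have h3 : (gaussianReal 0 1).real (Set.Ioc a b) ≤ b - a := by
    rw [measureReal_def, gaussianReal_apply 0 one_ne_zero]
    have h4 : ∫⁻ x in Set.Ioc a b, gaussianPDF 0 1 x ≤ ∫⁻ _x in Set.Ioc a b, 1 := by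
      apply lintegral_mono
      intro x
      unfold gaussianPDF gaussianPDFReal
      rw [← ENNReal.ofReal_one]
      apply ENNReal.ofReal_le_ofReal
      have h5 : (√(2 * Real.pi * ((1 : NNReal) : ℝ)))⁻¹ ≤ 1 := by
        apply inv_le_one_of_one_le₀
        rw [Real.one_le_sqrt]
        have := Real.pi_gt_three
        push_cast
        linarith
      have h6 : Real.exp (-(x - 0) ^ 2 / (2 * ((1 : NNReal) : ℝ))) ≤ 1 := by
        apply Real.exp_le_one_iff.2
        push_cast
        have := sq_nonneg (x - 0)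
        linarith
      calc _ ≤ (1 : ℝ) * 1 := mul_le_mul h5 h6 (Real.exp_pos _).le zero_le_one
        _ = 1 := one_mul 1
    rw [setLIntegral_one, Real.volume_Ioc] at h4
    have h7 := ENNReal.toReal_mono ENNReal.ofReal_ne_top h4
    rwa [ENNReal.toReal_ofReal (by linarith)] at h7
  rw [h2]
  linarith

lemma Ph_top (η : ℝ) (hη : 0 < η) : ∃ M : ℕ, 1 ≤ M ∧ 1 - Ph M ≤ η ∧ Ph (-(M : ℝ)) ≤ η := by
  have h1 : Tendsto Ph atTop (𝓝 1) := tendsto_cdf_atTop (gaussianReal 0 1)
  have h2 : Tendsto Ph atBot (𝓝 0) := tendsto_cdf_atBot (gaussianReal 0 1)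
  have h3 : ∀ᶠ M : ℕ in atTop, 1 - η < Ph M := (h1.comp tendsto_natCast_atTop_atTop).eventually (lt_mem_nhds (by linarith))
  have h4 : ∀ᶠ M : ℕ in atTop, Ph (-(M : ℝ)) < η :=
    (h2.comp (tendsto_neg_atTop_atBot.comp tendsto_natCast_atTop_atTop)).eventually (gt_mem_nhds hη)
  obtain ⟨M, ha, hb, hc⟩ := (h3.and (h4.and (eventually_ge_atTop 1))).exists
  exact ⟨M, hc, by linarith, hb.le⟩

lemma prod_dist {ι : Type*} (S : Finset ι) (x y : ι → ℝ) (hx : ∀ i, 0 ≤ x i ∧ x i ≤ 1) (hy : ∀ i, 0 ≤ y i ∧ y i ≤ 1) :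
    |∏ i ∈ S, x i - ∏ i ∈ S, y i| ≤ ∑ i ∈ S, |x i - y i| := by
  classical
  induction S using Finset.induction_on with
  | empty => simp
  | insert a S ha ih =>
    rw [prod_insert ha, prod_insert ha, sum_insert ha]
    have e : x a * ∏ i ∈ S, x i - y a * ∏ i ∈ S, y i = (x a - y a) * ∏ i ∈ S, x i + y a * (∏ i ∈ S, x i - ∏ i ∈ S, y i) := by ring
    rw [e]
    refine (abs_add_le _ _).trans ?_
    rw [abs_mul, abs_mul]
    have h1 : |∏ i ∈ S, x i| ≤ 1 := by
      rw [abs_of_nonneg (prod_nonneg fun i _ => (hx i).1)]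
      exact prod_le_one (fun i _ => (hx i).1) (fun i _ => (hx i).2)
    have h2 : |y a| ≤ 1 := by rw [abs_of_nonneg (hy a).1]; exact (hy a).2
    apply add_le_add
    · calc |x a - y a| * |∏ i ∈ S, x i| ≤ |x a - y a| * 1 := mul_le_mul_of_nonneg_left h1 (abs_nonneg _)
        _ = _ := mul_one _
    · calc |y a| * |∏ i ∈ S, x i - ∏ i ∈ S, y i| ≤ 1 * |∏ i ∈ S, x i - ∏ i ∈ S, y i| := mul_le_mul_of_nonneg_right h2 (abs_nonneg _)
        _ ≤ _ := by rw [one_mul]; exact ih

/-- the number of the vectors in a box -/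
noncomputable def bc {k : ℕ} (P : Finset ℕ) (Z : ℕ → Fin k → ℝ) (c : Fin k → ℝ) : ℝ := by
  classical
  exact (((P.filter (fun p => ∀ i, Z p i ≤ c i)).card : ℕ) : ℝ)

/-- from a finite set of boxes to all boxes -/
theorem box_unif (k : ℕ) (ε : ℝ) (hε : 0 < ε) : ∃ (δ : ℝ) (A : Finset (Fin k → ℝ)), 0 < δ ∧
    ∀ (P : Finset ℕ) (Z : ℕ → Fin k → ℝ), (∀ a ∈ A, |bc P Z a - P.card * ∏ i, Ph (a i)| ≤ δ * P.card) →
      ∀ c : Fin k → ℝ, |bc P Z c - P.card * ∏ i, Ph (c i)| ≤ ε * P.card := by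
  classical
  set η : ℝ := ε / (4 * (k + 1)) with hη
  have hk0 : (0 : ℝ) ≤ k := Nat.cast_nonneg _
  have hη0 : 0 < η := by positivity
  have hkη : k * η ≤ ε / 4 := by
    rw [hη, ← mul_div_assoc, div_le_div_iff₀ (by positivity) (by norm_num)]
    nlinarith
  have hη4 : η ≤ ε / 4 := by
    rw [hη, div_le_div_iff₀ (by positivity) (by norm_num)]
    nlinarith
  obtain ⟨M, hM1, hM2, hM3⟩ := Ph_top η hη0
  obtain ⟨H, hH⟩ := exists_nat_gt (1 / η)
  have hH0 : (0 : ℝ) < H := lt_of_le_of_lt (by positivity) hH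
  have hHη : 1 / (H : ℝ) ≤ η := by
    rw [div_lt_iff₀ hη0] at hH
    rw [div_le_iff₀ hH0]
    linarith
  have hM0 : (1 : ℝ) ≤ M := by exact_mod_cast hM1
  -- the grid
  set A : Finset (Fin k → ℝ) := (Fintype.piFinset (fun _ : Fin k => (Icc (-((M * H : ℕ) : ℤ)) ((M * H : ℕ) : ℤ)).image
    (fun j : ℤ => (j : ℝ) / H))) with hA
  set cl : ℤ → ℤ := fun j => max (-((M * H : ℕ) : ℤ)) (min j ((M * H : ℕ) : ℤ)) with hcl
  have hclA : ∀ f : Fin k → ℤ, (fun i => (cl (f i) : ℝ) / H) ∈ A := by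
    intro f
    rw [hA, Fintype.mem_piFinset]
    intro i
    rw [mem_image]
    refine ⟨cl (f i), ?_, rfl⟩
    rw [mem_Icc, hcl]
    have : (0 : ℤ) ≤ ((M * H : ℕ) : ℤ) := Int.natCast_nonneg _
    simp only
    omega
  have hMA : (fun _ : Fin k => (M : ℝ)) ∈ A := by
    rw [hA, Fintype.mem_piFinset]
    intro i
    rw [mem_image]
    refine ⟨((M * H : ℕ) : ℤ), ?_, ?_⟩
    · rw [mem_Icc]
      have : (0 : ℤ) ≤ ((M * H : ℕ) : ℤ) := Int.natCast_nonneg _
      constructor <;> omega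
    · push_cast
      field_simp
  refine ⟨ε / 8, A, by positivity, fun P Z h c => ?_⟩
  set T : ℝ := (P.card : ℝ) with hT
  have hT0 : 0 ≤ T := Nat.cast_nonneg _
  have hPh : ∀ c : Fin k → ℝ, ∀ i, 0 ≤ Ph (c i) ∧ Ph (c i) ≤ 1 := fun c i => ⟨Ph_nonneg _, Ph_le_one _⟩
  have hprod01 : ∀ c : Fin k → ℝ, 0 ≤ ∏ i, Ph (c i) ∧ ∏ i, Ph (c i) ≤ 1 := fun c =>
    ⟨prod_nonneg fun i _ => Ph_nonneg _, prod_le_one (fun i _ => Ph_nonneg _) (fun i _ => Ph_le_one _)⟩
  have hmono : ∀ a b : Fin k → ℝ, (∀ i, a i ≤ b i) → bc P Z a ≤ bc P Z b := by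
    intro a b hab
    unfold bc
    apply Nat.cast_le.2
    apply card_le_card
    intro p hp
    rw [mem_filter] at hp ⊢
    exact ⟨hp.1, fun i => (hp.2 i).trans (hab i)⟩
  have hpd : ∀ a b : Fin k → ℝ, (∀ i, |Ph (a i) - Ph (b i)| ≤ η) → |∏ i, Ph (a i) - ∏ i, Ph (b i)| ≤ ε / 4 := by
    intro a b hab
    refine (prod_dist univ _ _ (hPh a) (hPh b)).trans ?_
    refine (sum_le_sum fun i _ => hab i).trans ?_
    rw [sum_const, card_univ, Fintype.card_fin, nsmul_eq_mul]
    exact hkη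
  have hMcast : (((M * H : ℕ) : ℤ) : ℝ) = M * H := by push_cast; ring
  rw [abs_le]
  constructor
  · -- the lower bound
    by_cases hlow : ∃ i, c i < -(M : ℝ)
    · obtain ⟨i, hi⟩ := hlow
      have h1 : ∏ j, Ph (c j) ≤ η := by
        rw [← mul_prod_erase univ (fun j => Ph (c j)) (mem_univ i)]
        calc Ph (c i) * ∏ j ∈ univ.erase i, Ph (c j) ≤ Ph (c i) * 1 :=
              mul_le_mul_of_nonneg_left (prod_le_one (fun i _ => Ph_nonneg _) (fun i _ => Ph_le_one _)) (Ph_nonneg _)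
          _ = Ph (c i) := mul_one _
          _ ≤ Ph (-(M : ℝ)) := Ph_mono hi.le
          _ ≤ η := hM3
      have h2 : 0 ≤ bc P Z c := by unfold bc; positivity
      have h3 : T * ∏ j, Ph (c j) ≤ T * η := mul_le_mul_of_nonneg_left h1 hT0
      nlinarith
    · push Not at hlow
      set a : Fin k → ℝ := fun i => (cl ⌊c i * H⌋ : ℝ) / H with ha
      have hac : ∀ i, a i ≤ c i ∧ |Ph (a i) - Ph (c i)| ≤ η := by
        intro i
        have f1 := Int.floor_le (c i * H)
        have f2 := Int.lt_floor_add_one (c i * H)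
        have f3 : -((M * H : ℕ) : ℤ) ≤ ⌊c i * H⌋ := by
          rw [Int.le_floor]
          push_cast
          have := mul_le_mul_of_nonneg_right (hlow i) hH0.le
          linarith
        have f4 : cl ⌊c i * H⌋ = min ⌊c i * H⌋ ((M * H : ℕ) : ℤ) := by
          rw [hcl]
          simp only
          apply max_eq_right
          have : (0 : ℤ) ≤ ((M * H : ℕ) : ℤ) := Int.natCast_nonneg _
          omega
        have f5 : a i = (min ⌊c i * H⌋ ((M * H : ℕ) : ℤ) : ℤ) / H := by rw [ha]; simp only; rw [f4]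
        rcases le_total ⌊c i * H⌋ ((M * H : ℕ) : ℤ) with hle | hle
        · rw [min_eq_left hle] at f5
          have g1 : a i ≤ c i := by rw [f5, div_le_iff₀ hH0]; exact f1
          refine ⟨g1, ?_⟩
          have g2 : c i - a i ≤ 1 / H := by
            rw [f5, le_div_iff₀ hH0, sub_mul, div_mul_cancel₀ _ hH0.ne']
            linarith
          have g3 := Ph_lip g1
          have g4 := Ph_mono g1
          rw [abs_of_nonpos (by linarith)]
          linarith
        · rw [min_eq_right hle] at f5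
          have g0 : a i = M := by rw [f5, hMcast]; field_simp
          have g1 : a i ≤ c i := by
            rw [g0]
            have g5 : (((M * H : ℕ) : ℤ) : ℝ) ≤ (⌊c i * H⌋ : ℝ) := by exact_mod_cast hle
            rw [hMcast] at g5
            exact le_of_mul_le_mul_right (g5.trans f1) hH0
          refine ⟨g1, ?_⟩
          have g4 := Ph_mono g1
          have g5 := Ph_le_one (c i)
          rw [abs_of_nonpos (by linarith), g0]
          linarith
      have h1 := (abs_le.1 (h a (hclA _))).1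
      have h2 := hmono a c (fun i => (hac i).1)
      have h3 := (abs_le.1 (hpd a c (fun i => (hac i).2))).1
      have h4 := mul_le_mul_of_nonneg_left h3 hT0
      nlinarith
  · -- the upper bound
    set a : Fin k → ℝ := fun i => (cl ⌈c i * H⌉ : ℝ) / H with ha
    set m : Fin k → ℝ := fun _ => (M : ℝ) with hm
    have hac : ∀ i, (c i ≤ a i ∨ a i = M) ∧ Ph (a i) ≤ Ph (c i) + η := by
      intro i
      have f1 := Int.le_ceil (c i * H)
      have f2 := Int.ceil_lt_add_one (c i * H)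
      rcases lt_or_ge ⌈c i * H⌉ (-((M * H : ℕ) : ℤ)) with h1 | h1
      · have f4 : cl ⌈c i * H⌉ = -((M * H : ℕ) : ℤ) := by
          rw [hcl]
          simp only
          omega
        have f5 : a i = -M := by rw [ha]; simp only; rw [f4, Int.cast_neg, hMcast]; field_simp
        have f6 : (⌈c i * H⌉ : ℝ) ≤ -(M * H) := by
          have : (⌈c i * H⌉ : ℝ) ≤ ((-((M * H : ℕ) : ℤ) : ℤ) : ℝ) := by exact_mod_cast h1.le
          rw [Int.cast_neg, hMcast] at this
          exact this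
        refine ⟨Or.inl ?_, ?_⟩
        · rw [f5]
          have : c i * H ≤ (-M) * H := by linarith
          exact le_of_mul_le_mul_right this hH0
        · rw [f5]
          have := Ph_nonneg (c i)
          linarith
      · rcases le_total ⌈c i * H⌉ ((M * H : ℕ) : ℤ) with hle | hle
        · have f4 : cl ⌈c i * H⌉ = ⌈c i * H⌉ := by
            rw [hcl]
            simp only
            omega
          have f5 : a i = (⌈c i * H⌉ : ℝ) / H := by rw [ha]; simp only; rw [f4]
          have g1 : c i ≤ a i := by rw [f5, le_div_iff₀ hH0]; exact f1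
          refine ⟨Or.inl g1, ?_⟩
          have g2 : a i - c i ≤ 1 / H := by
            rw [f5, le_div_iff₀ hH0, sub_mul, div_mul_cancel₀ _ hH0.ne']
            linarith
          have g3 := Ph_lip g1
          linarith
        · have f4 : cl ⌈c i * H⌉ = ((M * H : ℕ) : ℤ) := by
            rw [hcl]
            simp only
            omega
          have f5 : a i = M := by rw [ha]; simp only; rw [f4, hMcast]; field_simp
          refine ⟨Or.inr f5, ?_⟩
          have := Ph_le_one (a i)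
          have g1 : (M : ℝ) - 1 / H ≤ c i := by
            have g5 : (((M * H : ℕ) : ℤ) : ℝ) ≤ (⌈c i * H⌉ : ℝ) := by exact_mod_cast hle
            rw [hMcast] at g5
            have g6 : (M * H - 1) ≤ c i * H := by linarith
            have g7 : (M - 1 / H) * H = (M * H - 1 : ℝ) := by field_simp
            rw [← g7] at g6
            exact le_of_mul_le_mul_right g6 hH0
          have g8 := Ph_lip (show (M : ℝ) - 1 / H ≤ M by
            have : 0 ≤ 1 / (H : ℝ) := by positivity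
            linarith)
          have g9 := Ph_mono g1
          rw [f5]
          linarith
    have hcov : bc P Z c ≤ bc P Z a + (T - bc P Z m) := by
      have h1 : (P.filter (fun p => ∀ i, Z p i ≤ c i)) ⊆ (P.filter (fun p => ∀ i, Z p i ≤ a i)) ∪ (P \ (P.filter (fun p => ∀ i, Z p i ≤ m i))) := by
        intro p hp
        rw [mem_filter] at hp
        rw [Finset.mem_union, Finset.mem_filter, Finset.mem_sdiff, Finset.mem_filter]
        by_cases hpm : ∀ i, Z p i ≤ m i
        · left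
          refine ⟨hp.1, fun i => ?_⟩
          rcases (hac i).1 with h2 | h2
          · exact (hp.2 i).trans h2
          · rw [h2]; exact hpm i
        · right
          exact ⟨hp.1, fun h => hpm h.2⟩
      have h2 := (card_le_card h1).trans (card_union_le _ _)
      have h3 := card_sdiff_add_card_eq_card (filter_subset (fun p => ∀ i, Z p i ≤ m i) P)
      unfold bc
      rw [hT]
      have h2' : ((P.filter (fun p => ∀ i, Z p i ≤ c i)).card : ℝ) ≤ ((P.filter (fun p => ∀ i, Z p i ≤ a i)).card : ℝ) +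
          ((P \ (P.filter (fun p => ∀ i, Z p i ≤ m i))).card : ℝ) := by exact_mod_cast h2
      have h3' : ((P \ (P.filter (fun p => ∀ i, Z p i ≤ m i))).card : ℝ) + ((P.filter (fun p => ∀ i, Z p i ≤ m i)).card : ℝ) = P.card := by
        exact_mod_cast h3
      linarith
    have h1 := (abs_le.1 (h a (hclA _))).2
    have h2 := (abs_le.1 (h m hMA)).1
    have h3 : 1 - ∏ i, Ph (m i) ≤ ε / 4 := by
      have h4 := prod_dist univ (fun _ : Fin k => (1 : ℝ)) (fun i => Ph (m i)) (fun i => ⟨zero_le_one, le_rfl⟩) (hPh m)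
      rw [prod_const_one] at h4
      have h5 : ∑ i, |(1 : ℝ) - Ph (m i)| ≤ k * η := by
        refine (sum_le_sum (g := fun _ => η) fun i _ => ?_).trans ?_
        · rw [abs_of_nonneg (by have := Ph_le_one (m i); linarith)]
          exact hM2
        · rw [sum_const, card_univ, Fintype.card_fin, nsmul_eq_mul]
      have h6 := (abs_le.1 h4).2
      linarith
    have h7 : ∏ i, Ph (a i) ≤ ∏ i, Ph (c i) + ε / 4 := by
      -- through the maximum
      have h8 := (abs_le.1 (hpd (fun i => max (a i) (c i)) c (fun i => by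
        have g1 : Ph (max (a i) (c i)) = max (Ph (a i)) (Ph (c i)) := by
          rcases le_total (a i) (c i) with h | h
          · rw [max_eq_right h, max_eq_right (Ph_mono h)]
          · rw [max_eq_left h, max_eq_left (Ph_mono h)]
        rw [g1]
        have g2 := (hac i).2
        rw [abs_of_nonneg (by have := le_max_right (Ph (a i)) (Ph (c i)); linarith)]
        have : max (Ph (a i)) (Ph (c i)) ≤ Ph (c i) + η := max_le g2 (by linarith)
        linarith))).2
      have h9 : ∏ i, Ph (a i) ≤ ∏ i, Ph (max (a i) (c i)) :=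
        prod_le_prod (fun i _ => Ph_nonneg _) (fun i _ => Ph_mono (le_max_left _ _))
      linarith
    have h10 : T * ∏ i, Ph (a i) ≤ T * (∏ i, Ph (c i) + ε / 4) := mul_le_mul_of_nonneg_left h7 hT0
    have h11 : T * (1 - ∏ i, Ph (m i)) ≤ T * (ε / 4) := mul_le_mul_of_nonneg_left h3 hT0
    nlinarith

/-- the uniform statement -/
theorem levy_uniform (k : ℕ) (ε : ℝ) (hε : 0 < ε) : ∃ T0 δ : ℝ, 0 ≤ T0 ∧ 0 < δ ∧
    ∀ (P : Finset ℕ) (Z : ℕ → Fin k → ℝ), P.Nonempty → (∀ t : Fin k → ℝ, (∀ i, |t i| ≤ T0) →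
      ‖∑ p ∈ P, Complex.exp (Complex.I * ((∑ i, t i * Z p i : ℝ) : ℂ)) -
        (P.card : ℂ) * ((Real.exp (-∑ i, t i ^ 2 / 2) : ℝ) : ℂ)‖ ≤ δ * P.card) →
      ∀ c : Fin k → ℝ, |bc P Z c - P.card * ∏ i, Ph (c i)| ≤ ε * P.card := by
  classical
  by_contra hcon
  push Not at hcon
  obtain ⟨δ, A, hδ, hA⟩ := box_unif k ε hε
  have hK : ∀ K : ℕ, ∃ (P : Finset ℕ) (Z : ℕ → Fin k → ℝ), P.Nonempty ∧ (∀ t : Fin k → ℝ, (∀ i, |t i| ≤ (K : ℝ)) →
      ‖∑ p ∈ P, Complex.exp (Complex.I * ((∑ i, t i * Z p i : ℝ) : ℂ)) -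
        (P.card : ℂ) * ((Real.exp (-∑ i, t i ^ 2 / 2) : ℝ) : ℂ)‖ ≤ 1 / ((K : ℝ) + 1) * P.card) ∧
      ∃ c : Fin k → ℝ, ε * P.card < |bc P Z c - P.card * ∏ i, Ph (c i)| := fun K =>
    hcon K (1 / ((K : ℝ) + 1)) (Nat.cast_nonneg _) (by positivity)
  choose P Z hP hch c hc using hK
  have hlim : ∀ t : Fin k → ℝ, Tendsto (fun K => (∑ p ∈ P K, Complex.exp (Complex.I * ((∑ i, t i * Z K p i : ℝ) : ℂ))) /
      ((P K).card : ℂ)) atTop (𝓝 ((Real.exp (-∑ i, t i ^ 2 / 2) : ℝ) : ℂ)) := by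
    intro t
    rw [tendsto_iff_norm_sub_tendsto_zero]
    obtain ⟨K0, hK0⟩ := exists_nat_ge (∑ i, |t i|)
    apply squeeze_zero' (Eventually.of_forall fun K => norm_nonneg _) (g := fun K : ℕ => 1 / ((K : ℝ) + 1))
    · filter_upwards [eventually_ge_atTop K0] with K hKK
      have hcard : (0 : ℝ) < ((P K).card : ℝ) := by exact_mod_cast card_pos.2 (hP K)
      have h1 := hch K t (fun i => by
        have h2 := single_le_sum (f := fun i => |t i|) (fun _ _ => abs_nonneg _) (mem_univ i)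
        have h3 : (K0 : ℝ) ≤ K := by exact_mod_cast hKK
        linarith)
      have hcc : ((P K).card : ℂ) ≠ 0 := by
        have : (P K).card ≠ 0 := (card_pos.2 (hP K)).ne'
        exact_mod_cast this
      have e : (∑ p ∈ P K, Complex.exp (Complex.I * ((∑ i, t i * Z K p i : ℝ) : ℂ))) / ((P K).card : ℂ) -
          ((Real.exp (-∑ i, t i ^ 2 / 2) : ℝ) : ℂ) = ((∑ p ∈ P K, Complex.exp (Complex.I * ((∑ i, t i * Z K p i : ℝ) : ℂ))) -
            ((P K).card : ℂ) * ((Real.exp (-∑ i, t i ^ 2 / 2) : ℝ) : ℂ)) / ((P K).card : ℂ) := by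
        field_simp
      rw [e, norm_div, Complex.norm_natCast, div_le_iff₀ hcard]
      exact h1
    · exact tendsto_one_div_add_atTop_nhds_zero_nat
  have hall : ∀ᶠ K : ℕ in atTop, ∀ a ∈ A, |bc (P K) (Z K) a - (P K).card * ∏ i, Ph (a i)| ≤ δ * (P K).card := by
    rw [eventually_all_finset]
    intro a _
    have h1 := levy_point P hP Z hlim a
    rw [Metric.tendsto_atTop] at h1
    obtain ⟨K0, h2⟩ := h1 δ hδ
    filter_upwards [eventually_ge_atTop K0] with K hKK
    have h3 := h2 K hKK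
    rw [Real.dist_eq] at h3
    have hcard : (0 : ℝ) < ((P K).card : ℝ) := by exact_mod_cast card_pos.2 (hP K)
    have e : bc (P K) (Z K) a - (P K).card * ∏ i, Ph (a i) =
        (bc (P K) (Z K) a / (P K).card - ∏ i, Ph (a i)) * (P K).card := by
      field_simp
    rw [e, abs_mul, abs_of_pos hcard]
    apply mul_le_mul_of_nonneg_right _ hcard.le
    unfold bc
    exact h3.le
  obtain ⟨K, hKK⟩ := hall.exists
  have h1 := hA (P K) (Z K) hKK (c K)
  exact absurd (hc K) (not_lt.2 h1)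

end Pool.Agent.K4H18.EK
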