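import Mathlib

set_option autoImplicit false

/-! Sums over residue classes and a truncated product inequality. -/

namespace Pool.Agent.K4H18.EK

open Finset

/-- the sum of a product of local functions over the classes modulo a squarefree number -/
lemma crt_sum {R : Type*} [CommRing R] (f : ℕ → ℕ → R) (S : Finset ℕ) (hS : ∀ p ∈ S, p.Prime) :
    ∑ b ∈ range (∏ p ∈ S, p), ∏ p ∈ S, f p (b % p) = ∏ p ∈ S, ∑ b ∈ range p, f p b := by
  classical
  induction S using Finset.induction_on with
  | empty => simp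
  | insert p S hp ih =>
    have ih' := ih (fun q hq => hS q (Finset.mem_insert_of_mem hq))
    have hpp := hS p (Finset.mem_insert_self _ _)
    rw [Finset.prod_insert hp, Finset.prod_insert hp, ← ih', Finset.sum_mul_sum, ← Finset.sum_product']
    set W := ∏ q ∈ S, q with hW
    have hW0 : 0 < W := Finset.prod_pos fun q hq => (hS q (Finset.mem_insert_of_mem hq)).pos
    have hcop : Nat.Coprime p W := by
      refine Nat.Coprime.prod_right fun q hq => ?_
      exact (Nat.coprime_primes hpp (hS q (Finset.mem_insert_of_mem hq))).2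
        (fun h => hp (h ▸ hq))
    have hdvd : ∀ q ∈ S, q ∣ W := fun q hq => Finset.dvd_prod_of_mem _ hq
    refine Finset.sum_bij (fun b _ => (b % p, b % W)) ?_ ?_ ?_ ?_
    · intro b hb
      rw [Finset.mem_product, Finset.mem_range, Finset.mem_range]
      exact ⟨Nat.mod_lt _ hpp.pos, Nat.mod_lt _ hW0⟩
    · intro b hb b' hb' h
      rw [Finset.mem_range] at hb hb'
      have h1 : b ≡ b' [MOD p] := (Prod.mk.inj h).1
      have h2 : b ≡ b' [MOD W] := (Prod.mk.inj h).2
      exact Nat.ModEq.eq_of_lt_of_lt ((Nat.modEq_and_modEq_iff_modEq_mul hcop).1 ⟨h1, h2⟩) hb hb'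
    · rintro ⟨c, d⟩ hcd
      rw [Finset.mem_product, Finset.mem_range, Finset.mem_range] at hcd
      obtain ⟨hc, hd⟩ := hcd
      simp only at hc hd
      obtain ⟨k, hk1, hk2⟩ := Nat.chineseRemainder hcop c d
      have hk3 : k % (p * W) % p = c := by
        rw [Nat.mod_mod_of_dvd k (Nat.dvd_mul_right p W)]
        have : k % p = c % p := hk1
        rw [this, Nat.mod_eq_of_lt hc]
      have hk4 : k % (p * W) % W = d := by
        rw [Nat.mod_mod_of_dvd k (Nat.dvd_mul_left W p)]
        have : k % W = d % W := hk2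
        rw [this, Nat.mod_eq_of_lt hd]
      refine ⟨k % (p * W), ?_, ?_⟩
      · rw [Finset.mem_range]
        exact Nat.mod_lt _ (Nat.mul_pos hpp.pos hW0)
      · simp only [hk3, hk4]
    · intro b hb
      rw [Finset.prod_insert hp]
      simp only
      congr 1
      apply Finset.prod_congr rfl
      intro q hq
      rw [Nat.mod_mod_of_dvd b (hdvd q hq)]

/-- elementary symmetric sums -/
def esy {R : Type*} [CommRing R] (x : ℕ → R) (T : Finset ℕ) (r : ℕ) : R := ∑ S ∈ T.powersetCard r, ∏ p ∈ S, x p

lemma esy_zero {R : Type*} [CommRing R] (x : ℕ → R) (T : Finset ℕ) : esy x T 0 = 1 := by simp [esy]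

lemma esy_insert {R : Type*} [CommRing R] (x : ℕ → R) {T : Finset ℕ} {a : ℕ} (ha : a ∉ T) (r : ℕ) :
    esy x (insert a T) (r + 1) = esy x T (r + 1) + x a * esy x T r := by
  classical
  unfold esy
  rw [powersetCard_succ_insert ha, sum_union, sum_image]
  · rw [mul_sum]
    congr 1
    apply sum_congr rfl
    intro S hS
    rw [prod_insert]
    exact fun h => ha ((mem_powersetCard.1 hS).1 h)
  · intro S hS S' hS' h
    have h1 : a ∉ S := fun h => ha ((mem_powersetCard.1 hS).1 h)
    have h2 : a ∉ S' := fun h => ha ((mem_powersetCard.1 hS').1 h)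
    rw [← erase_insert h1, ← erase_insert h2, h]
  · rw [disjoint_left]
    intro S hS hS'
    rw [mem_image] at hS'
    obtain ⟨S', _, rfl⟩ := hS'
    exact ha ((mem_powersetCard.1 hS).1 (mem_insert_self _ _))

lemma esy_nonneg {x : ℕ → ℝ} {T : Finset ℕ} (hx : ∀ p ∈ T, 0 ≤ x p) (r : ℕ) : 0 ≤ esy x T r :=
  sum_nonneg fun S hS => prod_nonneg fun p hp => hx p ((mem_powersetCard.1 hS).1 hp)

/-- truncation of a product whose partial products are bounded -/
lemma trunc_prod (x : ℕ → ℂ) (T : Finset ℕ) (hx : ∀ p ∈ T, ‖1 + x p‖ ≤ 1) (m : ℕ) :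
    ‖∏ p ∈ T, (1 + x p) - ∑ j ∈ range m, esy x T j‖ ≤ esy (fun p => ‖x p‖) T m := by
  classical
  induction T using Finset.induction_on generalizing m with
  | empty =>
    rcases m with _ | m
    · simp [esy]
    · have h0 : ∀ j : ℕ, esy x ∅ (j + 1) = 0 := by
        intro j
        unfold esy
        rw [powersetCard_eq_empty.2 (by simp), sum_empty]
      rw [sum_range_succ']
      simp only [h0, sum_const_zero, zero_add, esy_zero, prod_empty, sub_self, norm_zero]
      exact esy_nonneg (by simp) _
  | insert a T ha ih =>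
    have hT : ∀ p ∈ T, ‖1 + x p‖ ≤ 1 := fun p hp => hx p (mem_insert_of_mem hp)
    rcases m with _ | m
    · simp only [range_zero, sum_empty, sub_zero, esy_zero]
      rw [norm_prod]
      exact prod_le_one (fun _ _ => norm_nonneg _) hx
    · have h1 := ih hT (m + 1)
      have h2 := ih hT m
      have e : ∏ p ∈ insert a T, (1 + x p) - ∑ j ∈ range (m + 1), esy x (insert a T) j =
          (∏ p ∈ T, (1 + x p) - ∑ j ∈ range (m + 1), esy x T j) +
            x a * (∏ p ∈ T, (1 + x p) - ∑ j ∈ range m, esy x T j) := by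
        rw [prod_insert ha, sum_range_succ', sum_range_succ', esy_zero, esy_zero]
        simp only [esy_insert x ha]
        rw [sum_add_distrib, ← mul_sum]
        ring
      rw [e, esy_insert _ ha]
      refine (norm_add_le _ _).trans (add_le_add h1 ?_)
      rw [norm_mul]
      exact mul_le_mul_of_nonneg_left h2 (norm_nonneg _)

/-- elementary symmetric sums are at most powers over factorials -/
lemma one_add_mul_le_pow_aux (s a : ℝ) (hs : 0 ≤ s) (ha : 0 ≤ a) (m : ℕ) :
    s ^ (m + 1) + (m + 1 : ℝ) * a * s ^ m ≤ (a + s) ^ (m + 1) := by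
  induction m with
  | zero => simp; linarith
  | succ m ih =>
    have h1 : (a + s) ^ (m + 1 + 1) = (a + s) * (a + s) ^ (m + 1) := by ring
    rw [h1]
    refine le_trans ?_ (mul_le_mul_of_nonneg_left ih (by positivity))
    have h2 : 0 ≤ (m + 1 : ℝ) * a ^ 2 * s ^ m := by positivity
    have e : (a + s) * (s ^ (m + 1) + (m + 1 : ℝ) * a * s ^ m) = s ^ (m + 1 + 1) + ((m + 1 : ℕ) + 1 : ℝ) * a * s ^ (m + 1) + (m + 1 : ℝ) * a ^ 2 * s ^ m := by
      push_cast; ring
    rw [e]
    linarith

/-- elementary symmetric sums are at most powers over factorials -/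
lemma esy_le {x : ℕ → ℝ} {T : Finset ℕ} (hx : ∀ p ∈ T, 0 ≤ x p) (m : ℕ) :
    (m.factorial : ℝ) * esy x T m ≤ (∑ p ∈ T, x p) ^ m := by
  classical
  induction T using Finset.induction_on generalizing m with
  | empty =>
    rcases m with _ | m
    · simp [esy]
    · unfold esy
      rw [powersetCard_eq_empty.2 (by simp), sum_empty]
      simp
  | insert a T ha ih =>
    have hT : ∀ p ∈ T, 0 ≤ x p := fun p hp => hx p (mem_insert_of_mem hp)
    have hxa := hx a (mem_insert_self _ _)
    have hs : 0 ≤ ∑ p ∈ T, x p := sum_nonneg hT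
    rcases m with _ | m
    · simp [esy_zero]
    · rw [esy_insert _ ha, sum_insert ha]
      have h1 := ih hT (m + 1)
      have h2 := ih hT m
      have h3 : (∑ p ∈ T, x p) ^ (m + 1) + (m + 1 : ℝ) * x a * (∑ p ∈ T, x p) ^ m ≤ (x a + ∑ p ∈ T, x p) ^ (m + 1) := by
        have h4 := one_add_mul_le_pow_aux (∑ p ∈ T, x p) (x a) hs hxa m
        exact h4
      refine le_trans ?_ h3
      have h5 : ((m + 1).factorial : ℝ) = (m + 1) * m.factorial := by
        rw [Nat.factorial_succ]; push_cast; ring
      calc ((m + 1).factorial : ℝ) * (esy x T (m + 1) + x a * esy x T m)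
          = ((m + 1).factorial : ℝ) * esy x T (m + 1) + (m + 1) * x a * ((m.factorial : ℝ) * esy x T m) := by
            rw [h5]; ring
        _ ≤ _ := add_le_add h1 (mul_le_mul_of_nonneg_left h2 (by positivity))

end Pool.Agent.K4H18.EK
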