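import Pool.Agent.K4H18.EK.A10

set_option autoImplicit false

/-! The contribution of the small and of the large prime factors. -/

namespace Pool.Agent.K4H18.EK

open Finset Polynomial
open Pool.Agent.H373R2.T7 (pz mem_pz es es_nonneg card_small card_pz_le prod_inj prod_le_pow)
open Pool.Agent.H474R2.PG (rho PR Sg)

lemma inj_sum (z r q D : ℕ) (hq : 1 ≤ q) (T : Finset ℕ) (hT : T ⊆ pz z) (hD : q * (z + 1) ^ r ≤ D) (M : ℕ → ℝ)
    (hM : ∀ q, 0 ≤ M q) : ∑ j ∈ range (r + 1), ∑ S ∈ T.powersetCard j, M (q * ∏ p ∈ S, p) ≤ ∑ d ∈ Icc 1 D, M d := by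
  classical
  rw [sum_levels]
  have hmem : ∀ S ∈ T.powerset.filter (fun S => S.card ≤ r), S ⊆ T ∧ S.card ≤ r := by
    intro S hS
    rw [mem_filter, mem_powerset] at hS
    exact hS
  have hpr : ∀ S ∈ T.powerset.filter (fun S => S.card ≤ r), ∀ p ∈ S, p.Prime :=
    fun S hS p hp => (mem_pz.1 (hT ((hmem S hS).1 hp))).2
  rw [← sum_image (f := M) (g := fun S : Finset ℕ => q * ∏ p ∈ S, p)]
  · apply sum_le_sum_of_subset_of_nonneg
    · intro d hd
      rw [mem_image] at hd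
      obtain ⟨S, hS, rfl⟩ := hd
      rw [mem_Icc]
      constructor
      · exact Nat.mul_pos hq (Nat.pos_of_ne_zero (prod_ne_zero_iff.2 fun p hp => (hpr S hS p hp).ne_zero))
      · refine le_trans ?_ hD
        exact Nat.mul_le_mul_left _ (prod_le_pow S z r ((hmem S hS).1.trans hT) (hmem S hS).2)
    · intro d _ _
      exact hM d
  · intro S hS S' hS' h
    simp only at h
    exact prod_inj S S' (hpr S hS) (hpr S' hS') (Nat.eq_of_mul_eq_mul_left hq h)

/-- the sieved primes with `q ∣ f(p)`, for a small prime `q` -/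
lemma small_prime (f : ℤ[X]) (n z r D q : ℕ) (hn : Even n) (hq : q ∈ pz z) (hD : z * (z + 1) ^ r ≤ D) (M : ℕ → ℝ)
    (hM : Maj n D M) (e : ℝ) (he : ∀ T ⊆ pz z, es (gd n) T r ≤ e) :
    (((Ps n z).filter (fun p : ℕ => (q : ℤ) ∣ f.eval (p : ℤ))).card : ℝ) ≤
      (rho f q : ℝ) * (2 * (H343E.pi1 n * Wn n z) * (1 / ((q : ℝ) - 1)) +
        (∑ d ∈ Icc 1 D, M d + ((z : ℝ) + 1) ^ r + 2 * H343E.pi1 n * e)) + 1 := by
  classical
  have hqp : q.Prime := (mem_pz.1 hq).2
  have hq2 : (2 : ℝ) ≤ q := by exact_mod_cast hqp.two_le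
  have hpi := pi1_nonneg n
  set T := (pz z).erase q with hT
  have hTsub : T ⊆ pz z := erase_subset _ _
  have hTq : ∀ q' ∈ T, ¬ q' ∣ q := by
    intro q' hq' hd
    have h1 := (mem_erase.1 hq').1
    exact h1 ((Nat.prime_dvd_prime_iff_eq (mem_pz.1 (hTsub hq')).2 hqp).1 hd)
  have hqD : q * (z + 1) ^ r ≤ D := (Nat.mul_le_mul_right _ (mem_pz.1 hq).1).trans hD
  have hesn : 0 ≤ es (gd n) T r := es_nonneg (fun p hp => gd_nonneg (mem_pz.1 (hTsub hp)).2) r
  have he0 : 0 ≤ e := hesn.trans (he T hTsub)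
  -- the product
  have hprod : ∏ q' ∈ T, (1 - gd n q') ≤ 2 * Wn n z := by
    have h1 : Wn n z = (1 - gd n q) * ∏ q' ∈ T, (1 - gd n q') := by
      unfold Wn
      rw [hT, mul_prod_erase (pz z) (fun q => 1 - gd n q) hq]
    have h2 : gd n q ≤ 1 / 2 := by
      unfold gd
      split_ifs with hd
      · norm_num
      · have h3 : q ≠ 2 := by
          rintro rfl
          exact hd hn.two_dvd
        have h4 : 3 ≤ q := by
          have := hqp.two_le
          omega
        have h5 : (3 : ℝ) ≤ q := by exact_mod_cast h4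
        apply one_div_le_one_div_of_le (by norm_num)
        linarith
    have h3 : 0 ≤ ∏ q' ∈ T, (1 - gd n q') := prod_nonneg fun q' hq' => by
      have := gd_le (n := n) (mem_pz.1 (hTsub hq')).2
      linarith
    rw [h1]
    nlinarith
  -- one class
  have hcls : ∀ c ∈ Ico 1 q, cn n q c T ≤ 2 * (H343E.pi1 n * Wn n z) * (1 / ((q : ℝ) - 1)) +
        (∑ d ∈ Icc 1 D, M d + ((z : ℝ) + 1) ^ r + 2 * H343E.pi1 n * e) := by
    intro c hc
    rw [mem_Ico] at hc
    have hcop : c.Coprime q := (Nat.coprime_of_lt_prime (by omega) hc.2 hqp).symm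
    have key := sieve1 n z r q c D hqp.one_le hcop T hTsub hTq hqD M hM.1 hM.2
    rw [Nat.totient_prime hqp, Nat.cast_sub hqp.one_le, Nat.cast_one] at key
    have h1 := (abs_le.1 key).2
    have h2 : ∑ j ∈ range (r + 1), ∑ S ∈ T.powersetCard j, (M (q * ∏ q ∈ S, q) + 1) ≤ ∑ d ∈ Icc 1 D, M d + ((z : ℝ) + 1) ^ r := by
      have c1 : ∑ j ∈ range (r + 1), ∑ S ∈ T.powersetCard j, (M (q * ∏ q ∈ S, q) + 1) =
          ∑ j ∈ range (r + 1), ∑ S ∈ T.powersetCard j, M (q * ∏ q ∈ S, q) +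
          ((∑ i ∈ range (r + 1), (T.powersetCard i).card : ℕ) : ℝ) := by
        push_cast
        rw [← sum_add_distrib]
        apply sum_congr rfl
        intro i _
        rw [sum_add_distrib, sum_const, nsmul_eq_mul, mul_one]
      have c2 := card_small T r
      have c3 : ((T.card : ℝ) + 1) ^ r ≤ ((z : ℝ) + 1) ^ r := by
        have h3 : T.card ≤ z := (card_le_card hTsub).trans (card_pz_le z)
        have : (T.card : ℝ) ≤ z := by exact_mod_cast h3
        gcongr
      have c4 := inj_sum z r q D hqp.one_le T hTsub hqD M hM.1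
      rw [c1]
      linarith
    have h3 : 2 * (H343E.pi1 n / ((q : ℝ) - 1)) * es (gd n) T r ≤ 2 * H343E.pi1 n * e := by
      apply mul_le_mul _ (he T hTsub) hesn (by positivity)
      apply mul_le_mul_of_nonneg_left _ (by norm_num)
      apply div_le_self hpi
      linarith
    have h4 : H343E.pi1 n / ((q : ℝ) - 1) * ∏ q' ∈ T, (1 - gd n q') ≤ 2 * (H343E.pi1 n * Wn n z) * (1 / ((q : ℝ) - 1)) := by
      calc H343E.pi1 n / ((q : ℝ) - 1) * ∏ q' ∈ T, (1 - gd n q') ≤ H343E.pi1 n / ((q : ℝ) - 1) * (2 * Wn n z) := by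
            apply mul_le_mul_of_nonneg_left hprod
            apply div_nonneg hpi; linarith
        _ = _ := by ring
    linarith
  -- the decomposition into classes
  have h1 : (((Ps n z).filter (fun p : ℕ => (q : ℤ) ∣ f.eval (p : ℤ))).card : ℝ) =
      ∑ c ∈ (range q).filter (fun c : ℕ => (q : ℤ) ∣ f.eval (c : ℤ)), (((Ps n z).filter (fun p : ℕ => p % q = c)).card : ℝ) := by
    rw [card_eq_sum_card_fiberwise (f := fun p : ℕ => p % q) (t := (range q).filter (fun c : ℕ => (q : ℤ) ∣ f.eval (c : ℤ)))]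
    · push_cast
      apply sum_congr rfl
      intro c hc
      rw [mem_filter] at hc
      congr 2
      ext p
      rw [mem_filter, mem_filter, mem_filter]
      constructor
      · rintro ⟨⟨a, b⟩, c⟩; exact ⟨a, c⟩
      · rintro ⟨a, b⟩
        refine ⟨⟨a, ?_⟩, b⟩
        rw [← dvd_eval_mod, b]
        exact hc.2
    · intro p hp
      rw [mem_coe, mem_filter] at hp
      rw [mem_coe, mem_filter, mem_range]
      exact ⟨Nat.mod_lt _ hqp.pos, (dvd_eval_mod f p q).2 hp.2⟩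
  rw [h1]
  set A := 2 * (H343E.pi1 n * Wn n z) * (1 / ((q : ℝ) - 1)) +
        (∑ d ∈ Icc 1 D, M d + ((z : ℝ) + 1) ^ r + 2 * H343E.pi1 n * e) with hA
  have hA0 : 0 ≤ A := by
    have h5 : 0 ≤ ∑ d ∈ Icc 1 D, M d := sum_nonneg fun d _ => hM.1 d
    have h6 := Wn_nonneg n z
    have h7 : 0 ≤ 1 / ((q : ℝ) - 1) := by apply div_nonneg zero_le_one; linarith
    positivity
  have h2 : ∀ c ∈ (range q).filter (fun c : ℕ => (q : ℤ) ∣ f.eval (c : ℤ)),
      (((Ps n z).filter (fun p : ℕ => p % q = c)).card : ℝ) ≤ A + (if c = 0 then 1 else 0) := by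
    intro c hc
    rw [mem_filter, mem_range] at hc
    by_cases hc0 : c = 0
    · rw [if_pos hc0]
      have h3 : ((Ps n z).filter (fun p : ℕ => p % q = c)).card ≤ 1 := by
        rw [card_le_one]
        intro a ha b hb
        rw [mem_filter, hc0] at ha hb
        unfold Ps at ha hb
        rw [mem_filter] at ha hb
        rw [← (Nat.prime_dvd_prime_iff_eq hqp ha.1.2.1).1 (Nat.dvd_of_mod_eq_zero ha.2),
          ← (Nat.prime_dvd_prime_iff_eq hqp hb.1.2.1).1 (Nat.dvd_of_mod_eq_zero hb.2)]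
      have h4 : (((Ps n z).filter (fun p : ℕ => p % q = c)).card : ℝ) ≤ 1 := by exact_mod_cast h3
      linarith
    · rw [if_neg hc0, add_zero]
      refine le_trans ?_ (hcls c (mem_Ico.2 ⟨by omega, hc.1⟩))
      unfold cn
      norm_cast
      apply card_le_card
      intro p hp
      unfold Ps at hp
      rw [mem_filter, mem_filter] at hp
      rw [mem_filter]
      refine ⟨hp.1.1, ⟨hp.1.2.1, ?_⟩, fun q' hq' => hp.1.2.2 q' (hTsub hq')⟩
      unfold Nat.ModEq
      rw [hp.2, Nat.mod_eq_of_lt hc.1]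
  refine (sum_le_sum h2).trans ?_
  rw [sum_add_distrib, sum_const, nsmul_eq_mul]
  apply add_le_add
  · exact le_rfl
  · rw [← sum_filter, sum_const, nsmul_eq_mul, mul_one]
    have h3 : (((range q).filter (fun c : ℕ => (q : ℤ) ∣ f.eval (c : ℤ))).filter (fun c => c = 0)).card ≤ 1 := by
      rw [card_le_one]
      intro a ha b hb
      rw [mem_filter] at ha hb
      rw [ha.2, hb.2]
    exact_mod_cast h3

/-- the sieved primes with `q ∣ f(p)`, for a large prime `q` -/
lemma large_prime (f : ℤ[X]) (R : ℕ) (hR : ∀ q : ℕ, q.Prime → R < q → ¬ (q : ℤ) ∣ f.eval 0) (n z r D q : ℕ) (hq : q.Prime)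
    (hqz : z < q) (hqR : R < q) (hD : q * (z + 1) ^ r ≤ D) (M : ℕ → ℝ) (hM : Maj n D M) :
    (((Ps n z).filter (fun p : ℕ => (q : ℤ) ∣ f.eval (p : ℤ))).card : ℝ) ≤
      (H343E.pi1 n * Wn n z) * ((rho f q : ℝ) / ((q : ℝ) - 1)) + (rho f q : ℝ) * Err n z r M q := by
  classical
  have key := loc_sum n z r D {q} (fun q' hq' => by rw [mem_singleton] at hq'; rw [hq']; exact ⟨hq, hqz⟩)
    (by rw [prod_singleton]; exact hD) M hM (fun q b => if (q : ℤ) ∣ f.eval (b : ℤ) then 1 else 0)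
    (fun q' hq' => by
      rw [mem_singleton] at hq'
      rw [hq', if_neg]
      exact_mod_cast hR q hq hqR)
  simp only [prod_singleton] at key
  have e1 : ∑ p ∈ Ps n z, (if (q : ℤ) ∣ f.eval (((p % q : ℕ) : ℤ)) then (1 : ℂ) else 0) =
      (((((Ps n z).filter (fun p : ℕ => (q : ℤ) ∣ f.eval (p : ℤ))).card : ℝ)) : ℂ) := by
    simp only [dvd_eval_mod]
    rw [← sum_filter, sum_const, nsmul_eq_mul, mul_one]
    norm_cast
  have e2 : ∑ b ∈ range q, (if (q : ℤ) ∣ f.eval (b : ℤ) then (1 : ℂ) else 0) = ((rho f q : ℝ) : ℂ) := by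
    rw [← sum_filter, sum_const, nsmul_eq_mul, mul_one]
    rfl
  have e3 : ∑ b ∈ range q, ‖(if (q : ℤ) ∣ f.eval (b : ℤ) then (1 : ℂ) else 0)‖ = (rho f q : ℝ) := by
    have : ∀ b ∈ range q, ‖(if (q : ℤ) ∣ f.eval (b : ℤ) then (1 : ℂ) else 0)‖ = if (q : ℤ) ∣ f.eval (b : ℤ) then (1 : ℝ) else 0 := by
      intro b _
      split_ifs <;> simp
    rw [sum_congr rfl this, ← sum_filter, sum_const, nsmul_eq_mul, mul_one]
    rfl
  rw [e1, e2, e3] at key
  have e4 : ((H343E.pi1 n * Wn n z : ℝ) : ℂ) * (((rho f q : ℝ) : ℂ) / ((q : ℂ) - 1)) =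
      (((H343E.pi1 n * Wn n z) * ((rho f q : ℝ) / ((q : ℝ) - 1)) : ℝ) : ℂ) := by push_cast; rfl
  rw [e4, ← Complex.ofReal_sub, Complex.norm_real, Real.norm_eq_abs] at key
  have := (abs_le.1 key).2
  linarith

end Pool.Agent.K4H18.EK
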