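import Pool.Agent.K4H18.EK.A11

set_option autoImplicit false

/-! The total contribution of the small and of the large prime factors. -/

namespace Pool.Agent.K4H18.EK

open Finset Polynomial
open Pool.Agent.H373R2.T7 (pz mem_pz es es_nonneg card_small card_pz_le prod_inj prod_le_pow ev_L')
open Pool.Agent.H474R2.PG (rho PR Sg)

/-- the end of the range of the large primes -/
noncomputable def Y8 (N : ℕ) : ℕ := ⌊(N : ℝ) ^ (1 / 8 : ℝ)⌋₊

/-- the number of the prime factors of the values outside of the range of the truncated function -/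
noncomputable def wf {k : ℕ} (F : Fin k → ℤ[X]) (N z p : ℕ) : ℝ :=
  ∑ i, ((cntP (F i) (pz z) p : ℝ) + (cntP (F i) (PP (YN N) (Y8 N)) p : ℝ))

lemma wf_nonneg {k : ℕ} (F : Fin k → ℤ[X]) (N z p : ℕ) : 0 ≤ wf F N z p :=
  sum_nonneg fun _ _ => by positivity

lemma sum_cntP (f : ℤ[X]) (Q A : Finset ℕ) : ∑ p ∈ A, (cntP f Q p : ℝ) =
    ∑ q ∈ Q, ((A.filter (fun p : ℕ => (q : ℤ) ∣ f.eval (p : ℤ))).card : ℝ) := by
  classical
  unfold cntP
  simp only [card_filter]
  push_cast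
  rw [sum_comm]

/-- reciprocal sums of primes -/
lemma recip_sums (E : ℕ) : ∃ (C : ℝ) (N0 : ℕ), 0 ≤ C ∧ ∀ N : ℕ, N0 ≤ N → ∀ z : ℕ, 3 ≤ z → (z : ℝ) ≤ Real.log N ^ E →
    ∑ q ∈ pz z, 1 / ((q : ℝ) - 1) ≤ C * (1 + Real.log (Real.log (Real.log N))) ∧
    ∑ q ∈ PP (YN N) (Y8 N), 1 / ((q : ℝ) - 1) ≤ C * (1 + Real.log (Real.log (Real.log N))) := by
  obtain ⟨C, hC⟩ := Pool.Agent.Helper256.KM.mertens_inv
  set C' := max C 0 with hC'
  have hC0 : 0 ≤ C' := le_max_right _ _
  have hCC : C ≤ C' := le_max_left _ _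
  obtain ⟨N1, h1⟩ := ev_lam 3 1 one_pos
  obtain ⟨N2, h2⟩ := par_sizes 2
  refine ⟨2 * E + 4 * C' + 10, max (max N1 N2) 3, by positivity, fun N hN z hz3 hz => ?_⟩
  obtain ⟨a1, a2, -⟩ := h1 N (by omega)
  obtain ⟨b1, b2, b3, b4, b5, b6⟩ := h2 N (by omega)
  have hN3 : (3 : ℝ) ≤ N := by exact_mod_cast (by omega : 3 ≤ N)
  set L := Real.log N with hL
  set lam := Real.log L with hlam
  have hL0 : 0 < L := Real.log_pos (show (1 : ℝ) < N by linarith)
  have hz3r : (3 : ℝ) ≤ z := by exact_mod_cast hz3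
  have hllam : 0 ≤ Real.log lam := Real.log_nonneg a2
  have hE0 : (0 : ℝ) ≤ E := Nat.cast_nonneg _
  have hhalf : ∀ q : ℕ, q.Prime → 1 / ((q : ℝ) - 1) ≤ 2 * (1 / (q : ℝ)) := by
    intro q hq
    have : (2 : ℝ) ≤ q := by exact_mod_cast hq.two_le
    rw [mul_one_div, div_le_div_iff₀ (by linarith) (by linarith)]; linarith
  constructor
  · have hlz1 : 1 ≤ Real.log z := by
      rw [Real.le_log_iff_exp_le (by linarith)]
      have := Real.exp_one_lt_d9
      linarith
    have f2 : Real.log (Real.log z) ≤ E + Real.log lam := by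
      have g1 : Real.log z ≤ E * lam := by
        have := Real.log_le_log (by linarith) hz
        rwa [Real.log_pow] at this
      rcases Nat.eq_zero_or_pos E with hE | hE
      · subst hE
        rw [Nat.cast_zero, zero_mul] at g1
        linarith
      have hE1 : (1 : ℝ) ≤ E := by exact_mod_cast hE
      have g2 := Real.log_le_log (by linarith) g1
      rw [Real.log_mul (by linarith) (by linarith)] at g2
      have g3 := Real.log_le_sub_one_of_pos (show (0 : ℝ) < E by linarith)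
      linarith
    have f3 := (abs_le.1 (hC z hz3)).2
    calc ∑ q ∈ pz z, 1 / ((q : ℝ) - 1) ≤ ∑ q ∈ pz z, 2 * (1 / (q : ℝ)) := sum_le_sum fun q hq => hhalf q (mem_pz.1 hq).2
      _ = 2 * ∑ q ∈ pz z, 1 / (q : ℝ) := by rw [mul_sum]
      _ ≤ 2 * (E + Real.log lam + C') := by
          apply mul_le_mul_of_nonneg_left _ (by norm_num)
          change ∑ q ∈ (Icc 1 z).filter Nat.Prime, 1 / (q : ℝ) ≤ _
          linarith
      _ ≤ _ := by nlinarith [mul_nonneg hC0 hllam, mul_nonneg hE0 hllam]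
  · have hY3 : 3 ≤ YN N := by
      have hYpos : (0 : ℝ) < YN N := by
        by_contra hcon
        have h0 : (YN N : ℝ) = 0 := le_antisymm (not_lt.1 hcon) (Nat.cast_nonneg _)
        rw [h0, Real.log_zero] at b5
        linarith
      have h3 : Real.exp 2 ≤ YN N := (Real.le_log_iff_exp_le hYpos).1 b5
      have h4 : (3 : ℝ) ≤ Real.exp 2 := by
        have := Real.add_one_le_exp (2 : ℝ)
        linarith
      exact_mod_cast h4.trans h3
    have hY8 : YN N ≤ Y8 N := Nat.le_floor b4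
    have hY8N : (Y8 N : ℝ) ≤ N := by
      refine (Nat.floor_le (by positivity)).trans ?_
      calc (N : ℝ) ^ (1 / 8 : ℝ) ≤ (N : ℝ) ^ (1 : ℝ) := Real.rpow_le_rpow_of_exponent_le (by linarith) (by norm_num)
        _ = N := Real.rpow_one _
    have f3 := (abs_le.1 (hC (Y8 N) (hY3.trans hY8))).2
    have f4 := (abs_le.1 (hC (YN N) hY3)).1
    have f5 : Real.log (Real.log (Y8 N)) ≤ lam := by
      have h5 : (3 : ℝ) ≤ Y8 N := by exact_mod_cast hY3.trans hY8
      apply Real.log_le_log (Real.log_pos (by linarith))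
      exact Real.log_le_log (by linarith) hY8N
    have f6 : ∑ q ∈ PP (YN N) (Y8 N), 1 / (q : ℝ) = ∑ q ∈ (Icc 1 (Y8 N)).filter Nat.Prime, 1 / (q : ℝ) -
        ∑ q ∈ (Icc 1 (YN N)).filter Nat.Prime, 1 / (q : ℝ) := by
      rw [eq_sub_iff_add_eq, add_comm, ← sum_union]
      · congr 1
        ext q
        unfold PP
        simp only [mem_union, mem_filter, mem_Icc, mem_Ioc]
        constructor
        · rintro (⟨⟨a, b⟩, c⟩ | ⟨⟨a, b⟩, c⟩)
          · exact ⟨⟨a, b.trans hY8⟩, c⟩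
          · exact ⟨⟨by omega, b⟩, c⟩
        · rintro ⟨⟨a, b⟩, c⟩
          rcases Nat.lt_or_ge (YN N) q with h1 | h1
          · right; exact ⟨⟨h1, b⟩, c⟩
          · left; exact ⟨⟨a, h1⟩, c⟩
      · rw [disjoint_left]
        intro q h1 h2
        rw [mem_filter, mem_Icc] at h1
        rw [mem_PP] at h2
        omega
    calc ∑ q ∈ PP (YN N) (Y8 N), 1 / ((q : ℝ) - 1) ≤ ∑ q ∈ PP (YN N) (Y8 N), 2 * (1 / (q : ℝ)) :=
          sum_le_sum fun q hq => hhalf q (mem_PP.1 hq).2.2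
      _ = 2 * ∑ q ∈ PP (YN N) (Y8 N), 1 / (q : ℝ) := by rw [mul_sum]
      _ ≤ 2 * (Real.log lam + 4 + 2 * C') := by
          apply mul_le_mul_of_nonneg_left _ (by norm_num)
          rw [f6]
          linarith
      _ ≤ _ := by nlinarith [mul_nonneg hC0 hllam, mul_nonneg hE0 hllam]

theorem wf_bound {k : ℕ} (F : Fin k → ℤ[X]) (R D : ℕ) (hf : Facts F R D) (E W B U : ℕ) :
    ∃ (C : ℝ) (N0 : ℕ), 0 ≤ C ∧ ∀ N : ℕ, N0 ≤ N → ∀ z : ℕ, 3 ≤ z → R ≤ z → (z : ℝ) ≤ Real.log N ^ E →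
      ∀ n : ℕ, Even n → (N : ℝ) / Real.log N ^ W ≤ n → n ≤ B * N →
      ∑ p ∈ Ps n z, wf F N z p ≤
        C * (1 + Real.log (Real.log (Real.log N))) * (H343E.pi1 n * Wn n z) + N / Real.log N ^ U := by
  obtain ⟨C, N1, hC0, h1⟩ := recip_sums E
  set U1 : ℕ := U + E + 1 with hU1
  obtain ⟨N2, h2⟩ := params D hf.D1 E W B U1
  obtain ⟨N3, h3⟩ := par_sizes 2
  obtain ⟨N4, h4⟩ := ev_L' (k * (D * (2 + 2 * B) + 1) + k + 1)
  obtain ⟨N5, h5⟩ := ev_pow U1 1 (1 / 2) (by norm_num)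
  obtain ⟨N6, h6⟩ := z_le_Y E
  obtain ⟨N7, h7⟩ := ev_lam 0 1 one_pos
  refine ⟨k * (3 * D * C), max (max (max N1 N2) (max N3 N4)) (max (max N5 N6) (max N7 3)), by positivity,
    fun N hN z hz3 hzR hzE n hn hnN hnB => ?_⟩
  obtain ⟨r, DD, M, hMaj, ⟨m1, m2, m3, m4⟩, hpar⟩ := h2 N (by omega) z (by omega) hzE n hnN hnB
  obtain ⟨c1, c2⟩ := h1 N (by omega) z hz3 hzE
  obtain ⟨b1, b2, b3, b4, b5, b6⟩ := h3 N (by omega)
  obtain ⟨-, a1, -⟩ := h7 N (by omega)
  have d1 := h4 N (by omega)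
  have d2 := h5 N (by omega)
  have d3 := h6 N (by omega) z hzE
  have hN3 : (3 : ℝ) ≤ N := by exact_mod_cast (by omega : 3 ≤ N)
  have hN0 : (0 : ℝ) < N := by linarith
  have hN1 : (1 : ℝ) ≤ N := by linarith
  set L := Real.log N with hL
  set lam := Real.log L with hlam
  have hk0 : (0 : ℝ) ≤ k := Nat.cast_nonneg _
  have hD0 : (1 : ℝ) ≤ D := by exact_mod_cast hf.D1
  have hB0 : (0 : ℝ) ≤ B := Nat.cast_nonneg _
  have hL0 : 0 < L := Real.log_pos (by linarith)
  have hL1 : 1 ≤ L := by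
    have : 0 ≤ (k : ℝ) * (D * (2 + 2 * B) + 1) := by positivity
    linarith
  have hll : 0 ≤ Real.log lam := Real.log_nonneg a1
  set X := H343E.pi1 n * Wn n z with hX
  have hX0 : 0 ≤ X := mul_nonneg (pi1_nonneg n) (Wn_nonneg n z)
  have hpiB : H343E.pi1 n ≤ B * N := by
    have : H343E.pi1 n ≤ n := by
      unfold H343E.pi1
      exact_mod_cast (card_filter_le _ _).trans (by simp)
    have h7 : (n : ℝ) ≤ B * N := by exact_mod_cast hnB
    linarith
  set Q0 : ℝ := N / L ^ U1 with hQ0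
  have hQ0pos : 0 < Q0 := by positivity
  have hsqrt : (N : ℝ) ^ (1 / 2 : ℝ) ≤ Q0 := by
    rw [hQ0, le_div_iff₀ (by positivity)]
    rw [one_mul] at d2
    calc (N : ℝ) ^ (1 / 2 : ℝ) * L ^ U1 ≤ (N : ℝ) ^ (1 / 2 : ℝ) * (N : ℝ) ^ (1 / 2 : ℝ) :=
          mul_le_mul_of_nonneg_left d2 (by positivity)
      _ = N := by rw [← Real.rpow_add hN0]; norm_num
  have hQ1 : 1 ≤ Q0 := le_trans (Real.one_le_rpow hN1 (by norm_num)) hsqrt
  have hQ16 : (N : ℝ) ^ (1 / 16 : ℝ) ≤ Q0 := le_trans (Real.rpow_le_rpow_of_exponent_le hN1 (by norm_num)) hsqrt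
  -- the small primes
  have small : ∀ i, ∑ p ∈ Ps n z, (cntP (F i) (pz z) p : ℝ) ≤ 2 * D * C * (1 + Real.log lam) * X + z * ((D * (2 + 2 * B) + 1) * Q0) := by
    intro i
    rw [sum_cntP]
    have hterm : ∀ q ∈ pz z, (((Ps n z).filter (fun p : ℕ => (q : ℤ) ∣ (F i).eval (p : ℤ))).card : ℝ) ≤
        2 * D * X * (1 / ((q : ℝ) - 1)) + (D * (2 + 2 * B) + 1) * Q0 := by
      intro q hq
      have hqp := (mem_pz.1 hq).2
      have hq2 : (2 : ℝ) ≤ q := by exact_mod_cast hqp.two_le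
      have key := small_prime (F i) n z r DD q hn hq m4 M hMaj (1 / L ^ U1) m3
      have hr : (rho (F i) q : ℝ) ≤ D := by exact_mod_cast hf.rho_le q hqp i
      have hr0 : (0 : ℝ) ≤ rho (F i) q := Nat.cast_nonneg _
      have hq1 : 0 ≤ 1 / ((q : ℝ) - 1) := by apply div_nonneg zero_le_one; linarith
      have e1 : 2 * H343E.pi1 n * (1 / L ^ U1) ≤ 2 * B * Q0 := by
        calc 2 * H343E.pi1 n * (1 / L ^ U1) ≤ 2 * (B * N) * (1 / L ^ U1) := by gcongr
          _ = _ := by rw [hQ0]; ring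
      have e2 : ∑ d ∈ Icc 1 DD, M d + ((z : ℝ) + 1) ^ r + 2 * H343E.pi1 n * (1 / L ^ U1) ≤ (2 + 2 * B) * Q0 := by
        have := m1
        have := m2.trans hQ16
        linarith
      have e3 : 0 ≤ ∑ d ∈ Icc 1 DD, M d + ((z : ℝ) + 1) ^ r + 2 * H343E.pi1 n * (1 / L ^ U1) := by
        have h5 : 0 ≤ ∑ d ∈ Icc 1 DD, M d := sum_nonneg fun d _ => hMaj.1 d
        have := pi1_nonneg n
        positivity
      refine key.trans ?_
      calc (rho (F i) q : ℝ) * (2 * X * (1 / ((q : ℝ) - 1)) +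
          (∑ d ∈ Icc 1 DD, M d + ((z : ℝ) + 1) ^ r + 2 * H343E.pi1 n * (1 / L ^ U1))) + 1
          ≤ D * (2 * X * (1 / ((q : ℝ) - 1)) + (2 + 2 * B) * Q0) + Q0 := by
            apply add_le_add _ hQ1
            apply mul_le_mul hr _ (by positivity) (by linarith)
            linarith
        _ = _ := by ring
    calc _ ≤ ∑ q ∈ pz z, (2 * D * X * (1 / ((q : ℝ) - 1)) + (D * (2 + 2 * B) + 1) * Q0) := sum_le_sum hterm
      _ = 2 * D * X * ∑ q ∈ pz z, 1 / ((q : ℝ) - 1) + (pz z).card * ((D * (2 + 2 * B) + 1) * Q0) := by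
          rw [sum_add_distrib, mul_sum, sum_const, nsmul_eq_mul]
      _ ≤ 2 * D * X * (C * (1 + Real.log lam)) + z * ((D * (2 + 2 * B) + 1) * Q0) := by
          apply add_le_add
          · exact mul_le_mul_of_nonneg_left c1 (by positivity)
          · apply mul_le_mul_of_nonneg_right _ (by positivity)
            exact_mod_cast card_pz_le z
      _ = _ := by ring
  -- the large primes
  have large : ∀ i, ∑ p ∈ Ps n z, (cntP (F i) (PP (YN N) (Y8 N)) p : ℝ) ≤ D * C * (1 + Real.log lam) * X + Q0 := by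
    intro i
    rw [sum_cntP]
    set P := PP (YN N) (Y8 N) with hP
    have hPz : ∀ q ∈ P, q.Prime ∧ z < q := fun q hq => ⟨(mem_PP.1 hq).2.2, lt_of_le_of_lt d3 (mem_PP.1 hq).1⟩
    have hY81 : 1 ≤ Y8 N := Nat.le_floor (by push_cast; exact Real.one_le_rpow hN1 (by norm_num))
    have hY8a : (Y8 N : ℝ) ≤ (N : ℝ) ^ (1 / 8 : ℝ) := Nat.floor_le (by positivity)
    have hY8N : (Y8 N : ℝ) ≤ N := by
      refine hY8a.trans ?_
      calc (N : ℝ) ^ (1 / 8 : ℝ) ≤ (N : ℝ) ^ (1 : ℝ) := Real.rpow_le_rpow_of_exponent_le (by linarith) (by norm_num)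
        _ = N := Real.rpow_one _
    obtain ⟨hDp, herr⟩ := hpar P 1 (Y8 N) hPz (by
      intro q hq
      have h := mem_PP.1 hq
      rw [mem_Icc]
      exact ⟨h.2.2.one_le, h.2.1⟩) hY81 (by push_cast; linarith) (by rw [pow_one]; exact hY8a) hY8N
    have herr' := herr (fun q => (rho (F i) q : ℝ)) (fun q hq => ⟨Nat.cast_nonneg _, by exact_mod_cast hf.rho_le q (hPz q hq).1 i⟩)
    rw [sum_range_succ, powersetCard_one, sum_map] at herr'
    simp only [Function.Embedding.coeFn_mk, prod_singleton] at herr'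
    have herr0 : 0 ≤ ∑ x ∈ range 1, ∑ S ∈ P.powersetCard x, (∏ q ∈ S, (rho (F i) q : ℝ)) * Err n z r M (∏ q ∈ S, q) := by
      apply sum_nonneg; intro x _
      apply sum_nonneg; intro S _
      exact mul_nonneg (prod_nonneg fun q _ => Nat.cast_nonneg _) (Err_nonneg n z r _ M hMaj.1)
    have hterm : ∀ q ∈ P, (((Ps n z).filter (fun p : ℕ => (q : ℤ) ∣ (F i).eval (p : ℤ))).card : ℝ) ≤
        D * X * (1 / ((q : ℝ) - 1)) + (rho (F i) q : ℝ) * Err n z r M q := by
      intro q hq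
      have hqp := (hPz q hq).1
      have hq2 : (2 : ℝ) ≤ q := by exact_mod_cast hqp.two_le
      have key := large_prime (F i) R (fun q hq hR => hf.zero q hq hR i) n z r DD q hqp (hPz q hq).2
        (lt_of_le_of_lt hzR (hPz q hq).2) (by
          have := hDp {q} (singleton_subset_iff.2 hq) (by rw [card_singleton])
          rwa [prod_singleton] at this) M hMaj
      refine key.trans ?_
      apply add_le_add _ le_rfl
      have hr : (rho (F i) q : ℝ) ≤ D := by exact_mod_cast hf.rho_le q hqp i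
      calc X * ((rho (F i) q : ℝ) / ((q : ℝ) - 1)) ≤ X * (D / ((q : ℝ) - 1)) := by
            apply mul_le_mul_of_nonneg_left _ hX0
            apply div_le_div_of_nonneg_right hr
            linarith
        _ = _ := by ring
    calc _ ≤ ∑ q ∈ P, (D * X * (1 / ((q : ℝ) - 1)) + (rho (F i) q : ℝ) * Err n z r M q) := sum_le_sum hterm
      _ = D * X * ∑ q ∈ P, 1 / ((q : ℝ) - 1) + ∑ q ∈ P, (rho (F i) q : ℝ) * Err n z r M q := by
          rw [sum_add_distrib, mul_sum]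
      _ ≤ D * X * (C * (1 + Real.log lam)) + Q0 := by
          apply add_le_add
          · exact mul_le_mul_of_nonneg_left c2 (by positivity)
          · linarith
      _ = _ := by ring
  -- the sum over the polynomials
  unfold wf
  rw [sum_comm]
  have htot : ∀ i ∈ (univ : Finset (Fin k)), ∑ p ∈ Ps n z, ((cntP (F i) (pz z) p : ℝ) + (cntP (F i) (PP (YN N) (Y8 N)) p : ℝ)) ≤
      3 * D * C * (1 + Real.log lam) * X + (z * ((D * (2 + 2 * B) + 1) * Q0) + Q0) := by
    intro i _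
    rw [sum_add_distrib]
    have := small i
    have := large i
    linarith
  refine (sum_le_sum htot).trans ?_
  rw [sum_const, card_univ, Fintype.card_fin, nsmul_eq_mul, mul_add]
  apply add_le_add
  · apply le_of_eq; ring
  · have hzQ : z * Q0 ≤ N / L ^ U / L := by
      calc z * Q0 ≤ L ^ E * Q0 := mul_le_mul_of_nonneg_right hzE hQ0pos.le
        _ = N / L ^ U / L := by
            rw [hQ0, hU1, pow_succ, pow_add]
            field_simp
    have hQ0' : Q0 ≤ N / L ^ U / L := by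
      refine le_trans ?_ hzQ
      exact le_mul_of_one_le_left hQ0pos.le (by exact_mod_cast (by omega : 1 ≤ z))
    have hS0 : 0 ≤ N / L ^ U := by positivity
    calc (k : ℝ) * (z * ((D * (2 + 2 * B) + 1) * Q0) + Q0) = (k * (D * (2 + 2 * B) + 1)) * (z * Q0) + k * Q0 := by ring
      _ ≤ (k * (D * (2 + 2 * B) + 1)) * (N / L ^ U / L) + k * (N / L ^ U / L) := by gcongr
      _ = ((k * (D * (2 + 2 * B) + 1) + k) / L) * (N / L ^ U) := by ring
      _ ≤ 1 * (N / L ^ U) := by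
          apply mul_le_mul_of_nonneg_right _ hS0
          rw [div_le_one hL0]
          linarith
      _ = _ := one_mul _

end Pool.Agent.K4H18.EK
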