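import Pool.Agent.K4H18.EK.A12
import Pool.Agent.W93.GB4

set_option autoImplicit false

/-! The exceptional members of a family. -/

namespace Pool.Agent.K4H18.EK

open Finset Polynomial
open Pool.Agent.H373R2.T7 (pz mem_pz lamI lamzI lamz Vz Vz_pos Vz_inv_small ev_L')
open Pool.Agent.H560R3.GB (energy g HL sing)

/-- the difference of the primes and the model, with weights -/
noncomputable def Dif (z A n : ℕ) (G : ℕ → ℂ) : ℂ :=
  ∑ b ∈ Icc 1 A, G b * ((lamI ((n : ℤ) - b) - lamzI z ((n : ℤ) - b) : ℝ) : ℂ)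

lemma dif_reflect (z A n : ℕ) (G : ℕ → ℂ) :
    ∑ a ∈ Icc 1 A, G (A + 1 - a) * ((lamI ((a : ℤ) + ((n : ℤ) - ((A : ℤ) + 1))) -
      lamzI z ((a : ℤ) + ((n : ℤ) - ((A : ℤ) + 1))) : ℝ) : ℂ) = Dif z A n G := by
  unfold Dif
  apply sum_bij (fun a _ => A + 1 - a)
  · intro a ha
    rw [mem_Icc] at ha ⊢
    omega
  · intro a ha b hb h
    rw [mem_Icc] at ha hb
    omega
  · intro b hb
    rw [mem_Icc] at hb
    exact ⟨A + 1 - b, by rw [mem_Icc]; omega, by omega⟩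
  · intro a ha
    rw [mem_Icc] at ha
    have e : ((A + 1 - a : ℕ) : ℤ) = (A : ℤ) + 1 - a := by
      rw [Nat.cast_sub (by omega)]; push_cast; ring
    rw [e]
    have e2 : (n : ℤ) - ((A : ℤ) + 1 - a) = (a : ℤ) + ((n : ℤ) - ((A : ℤ) + 1)) := by ring
    rw [e2]

/-- the first moment of the differences over a family of small energy -/
theorem dif_sum (h B C U : ℕ) : ∃ B0 : ℕ, ∀ E : ℕ, ∃ N0 : ℕ, ∀ N : ℕ, N0 ≤ N → ∀ (x : ℕ) (s : ℕ → ℕ),
    (∀ m ∈ Icc 1 x, s m ≤ B * N) → (energy h x s : ℝ) * N ≤ Real.log N ^ C * (x : ℝ) ^ (2 * h) →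
    ∀ z : ℕ, Real.log N ^ B0 ≤ z → (z : ℝ) ≤ Real.log N ^ E → ∀ G : ℕ → ℂ, (∀ b, ‖G b‖ ≤ 1) →
    ∑ m ∈ Icc 1 x, ‖Dif z (B * N) (s m) G‖ ≤ N * x / Real.log N ^ U := by
  obtain ⟨B0, hlam⟩ := Pool.Agent.H560R3.GB.lam_e h (B + 1) C U
  refine ⟨B0, fun E => ?_⟩
  obtain ⟨n1, h1⟩ := hlam E
  refine ⟨max n1 3, fun N hN x s hs hE z hz1 hz2 G hG => ?_⟩
  have c1 := h1 N (by omega)
  have hN3 : 3 ≤ N := by omega
  set A := B * N with hA
  have hb : ∀ m ∈ Icc 1 x, |((s m : ℕ) : ℤ) - ((A : ℤ) + 1)| ≤ ((B + 1 : ℕ) : ℤ) * N := by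
    intro m hm
    have h5 := hs m hm
    rw [abs_le]
    have h6 : (A : ℤ) = B * N := by rw [hA]; push_cast; rfl
    have h7 : ((s m : ℕ) : ℤ) ≤ B * N := by rw [← h6]; exact_mod_cast h5
    have h8 : (0 : ℤ) ≤ ((s m : ℕ) : ℤ) := Int.natCast_nonneg _
    have h9 : (3 : ℤ) ≤ N := by exact_mod_cast hN3
    push_cast
    rw [add_mul, one_mul]
    constructor <;> linarith
  have h5 := c1 x (fun m => ((s m : ℕ) : ℤ) - ((A : ℤ) + 1)) hb (by
    have e := Pool.Agent.W93.GB.energy_eq h x s ((A : ℤ) + 1)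
    rw [e]; exact hE) A (by rw [hA]; exact Nat.mul_le_mul_right _ (Nat.le_succ _)) z hz1 hz2
    (fun a => G (A + 1 - a)) (fun a => hG _)
  refine le_trans (le_of_eq ?_) h5
  apply sum_congr rfl
  intro m _
  rw [← dif_reflect]

/-- few members of a family of small energy are small -/
theorem few_small (h C U : ℕ) (hh : 1 ≤ h) : ∃ N0 : ℕ, ∀ N : ℕ, N0 ≤ N → ∀ (x : ℕ) (s : ℕ → ℕ),
    (energy h x s : ℝ) * N ≤ Real.log N ^ C * (x : ℝ) ^ (2 * h) →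
    ∀ S : Finset ℕ, S ⊆ Icc 1 x → (∀ m ∈ S, (s m : ℝ) < N / Real.log N ^ (C + 1 + 2 * h * U)) →
    (S.card : ℝ) ≤ x / Real.log N ^ U := by
  classical
  set W : ℕ := C + 1 + 2 * h * U with hW
  obtain ⟨n3, h3⟩ := ev_L' (h + 10)
  obtain ⟨n4, h4⟩ := ev_pow W 1 1 one_pos
  refine ⟨max (max n3 n4) 3, fun N hN x s hE S hSx hS => ?_⟩
  have c3 := h3 N (by omega)
  have c4 := h4 N (by omega)
  have hN3 : 3 ≤ N := by omega
  have hNr : (3 : ℝ) ≤ N := by exact_mod_cast hN3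
  have hN0 : (0 : ℝ) < N := by linarith
  set L := Real.log N with hLd
  have hh0r : (0 : ℝ) ≤ h := Nat.cast_nonneg _
  have hL10 : 10 ≤ L := by linarith
  have hL1 : 1 ≤ L := by linarith
  have hL0 : 0 < L := by linarith
  have hYpos : 1 ≤ (N : ℝ) / L ^ W := by
    rw [le_div_iff₀ (by positivity), one_mul]
    rw [one_mul, Real.rpow_one] at c4
    exact c4
  have hx0 : (0 : ℝ) ≤ x := Nat.cast_nonneg _
  have h5 := Pool.Agent.W93.GB.small_count h x ⌊(N : ℝ) / L ^ W⌋₊ s S hSx (by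
    intro m hm
    exact Nat.le_floor (hS m hm).le)
  have h6 : (S.card : ℝ) ^ (2 * h) ≤ (h * ⌊(N : ℝ) / L ^ W⌋₊ + 1) * energy h x s := by exact_mod_cast h5
  have h7 : ((h : ℝ) * ⌊(N : ℝ) / L ^ W⌋₊ + 1) ≤ (h + 1) * (N / L ^ W) := by
    have := Nat.floor_le (show 0 ≤ (N : ℝ) / L ^ W by positivity)
    have := mul_le_mul_of_nonneg_left this hh0r
    linarith
  have h8 : (S.card : ℝ) ^ (2 * h) * N ≤ (x / L ^ U) ^ (2 * h) * N := by
    calc (S.card : ℝ) ^ (2 * h) * N ≤ ((h * ⌊(N : ℝ) / L ^ W⌋₊ + 1) * energy h x s) * N :=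
          mul_le_mul_of_nonneg_right h6 hN0.le
      _ = (h * ⌊(N : ℝ) / L ^ W⌋₊ + 1) * (energy h x s * N) := by ring
      _ ≤ ((h + 1) * (N / L ^ W)) * (L ^ C * (x : ℝ) ^ (2 * h)) := by
          apply mul_le_mul h7 hE (by positivity) (by positivity)
      _ ≤ (L * (N / L ^ W)) * (L ^ C * (x : ℝ) ^ (2 * h)) := by
          apply mul_le_mul_of_nonneg_right _ (by positivity)
          apply mul_le_mul_of_nonneg_right (by linarith) (by positivity)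
      _ = (x / L ^ U) ^ (2 * h) * N := by
          have e : L ^ W = L ^ C * L * (L ^ U) ^ (2 * h) := by
            rw [hW, ← pow_mul, ← pow_succ, ← pow_add]
            congr 1
            ring
          rw [e, div_pow]
          field_simp
  have h9 := le_of_mul_le_mul_right h8 hN0
  exact le_of_pow_le_pow_left₀ (by omega) (by positivity) h9

/-- the members for which one of the weighted differences of a finite collection is large -/
theorem few_bad (h B C U V κ : ℕ) : ∃ B0 : ℕ, ∀ E : ℕ, ∃ N0 : ℕ, ∀ N : ℕ, N0 ≤ N → ∀ (x : ℕ) (s : ℕ → ℕ),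
    (∀ m ∈ Icc 1 x, s m ≤ B * N) → (energy h x s : ℝ) * N ≤ Real.log N ^ C * (x : ℝ) ^ (2 * h) →
    ∀ z : ℕ, Real.log N ^ B0 ≤ z → (z : ℝ) ≤ Real.log N ^ E → ∀ {ι : Type} (I : Finset ι) (G : ι → ℕ → ℂ),
    (I.card : ℝ) ≤ Real.log N ^ κ → (∀ i ∈ I, ∀ b, ‖G i b‖ ≤ 1) →
    ∀ S : Finset ℕ, S ⊆ Icc 1 x → (∀ m ∈ S, ∃ i ∈ I, N / Real.log N ^ V < ‖Dif z (B * N) (s m) (G i)‖) →
    (S.card : ℝ) ≤ x / Real.log N ^ U := by
  classical
  obtain ⟨B0, hd⟩ := dif_sum h B C (U + V + κ)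
  refine ⟨B0, fun E => ?_⟩
  obtain ⟨N1, h1⟩ := hd E
  refine ⟨max N1 3, fun N hN x s hs hE z hz1 hz2 ι I G hI hG S hSx hS => ?_⟩
  have c1 := h1 N (by omega) x s hs hE z hz1 hz2
  have hNr : (3 : ℝ) ≤ N := by exact_mod_cast (by omega : 3 ≤ N)
  have hN0 : (0 : ℝ) < N := by linarith
  set L := Real.log N with hLd
  have hL0 : 0 < L := Real.log_pos (by linarith)
  have h2 : (S.card : ℝ) * (N / L ^ V) ≤ ∑ i ∈ I, ∑ m ∈ Icc 1 x, ‖Dif z (B * N) (s m) (G i)‖ := by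
    rw [sum_comm]
    calc (S.card : ℝ) * (N / L ^ V) = ∑ _m ∈ S, (N / L ^ V) := by rw [sum_const, nsmul_eq_mul]
      _ ≤ ∑ m ∈ S, ∑ i ∈ I, ‖Dif z (B * N) (s m) (G i)‖ := by
          apply sum_le_sum
          intro m hm
          obtain ⟨i, hi, h⟩ := hS m hm
          exact h.le.trans (single_le_sum (f := fun i => ‖Dif z (B * N) (s m) (G i)‖) (fun _ _ => norm_nonneg _) hi)
      _ ≤ _ := sum_le_sum_of_subset_of_nonneg hSx fun m _ _ => sum_nonneg fun _ _ => norm_nonneg _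
  have h3 : ∑ i ∈ I, ∑ m ∈ Icc 1 x, ‖Dif z (B * N) (s m) (G i)‖ ≤ L ^ κ * (N * x / L ^ (U + V + κ)) := by
    calc _ ≤ ∑ _i ∈ I, (N * x / L ^ (U + V + κ)) := sum_le_sum fun i hi => c1 (G i) (hG i hi)
      _ = I.card * (N * x / L ^ (U + V + κ)) := by rw [sum_const, nsmul_eq_mul]
      _ ≤ _ := mul_le_mul_of_nonneg_right hI (by positivity)
  have h4 : L ^ κ * (N * x / L ^ (U + V + κ)) = (x / L ^ U) * (N / L ^ V) := by
    rw [pow_add, pow_add]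
    field_simp
  rw [h4] at h3
  exact le_of_mul_le_mul_right (h2.trans h3) (by positivity)

end Pool.Agent.K4H18.EK
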