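import Pool.Agent.K4H18.EK.A13
import Pool.Agent.H357R2.SI.Common

set_option autoImplicit false

/-! Sums over the partitions. -/

namespace Pool.Agent.K4H18.EK

open Finset Polynomial
open Pool.Agent.H373R2.T7 (pz mem_pz lamI lamzI lamz lamP Vz Vz_pos Vz_inv_small ev_L')
open Pool.Agent.H560R3.GB (energy g HL sing)
open Pool.Agent.W93.GB (pp)

/-- the primes `p` with `n - p` prime -/
def Pn (n : ℕ) : Finset ℕ := (Icc 1 n).filter (fun p => p.Prime ∧ (n - p).Prime)

lemma card_Pn (n : ℕ) : g n = (Pn n).card := Pool.Agent.W93.GB.g_eq n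

/-- the restriction of a weight to the primes -/
noncomputable def pr (G : ℕ → ℂ) (b : ℕ) : ℂ := if b.Prime then G b else 0

lemma norm_pr (G : ℕ → ℂ) (hG : ∀ b, ‖G b‖ ≤ 1) (b : ℕ) : ‖pr G b‖ ≤ 1 := by
  unfold pr
  split_ifs
  · exact hG b
  · rw [norm_zero]; exact zero_le_one

/-- the weighted sum over the primes `p ≤ n` -/
noncomputable def RG (n : ℕ) (G : ℕ → ℂ) : ℂ :=
  ∑ p ∈ (Icc 1 n).filter Nat.Prime, G p * ((ArithmeticFunction.vonMangoldt (n - p) : ℝ) : ℂ)

lemma sum_lam (A n : ℕ) (h : n ≤ A) (G : ℕ → ℂ) :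
    ∑ b ∈ Icc 1 A, pr G b * ((lamI ((n : ℤ) - b) : ℝ) : ℂ) = RG n G := by
  unfold RG
  rw [sum_filter]
  symm
  apply sum_subset_zero_on_sdiff
  · intro b hb
    rw [mem_Icc] at hb ⊢
    omega
  · intro b hb
    rw [mem_sdiff, mem_Icc, mem_Icc] at hb
    unfold lamI
    rw [if_neg (by omega), Complex.ofReal_zero, mul_zero]
  · intro b hb
    rw [mem_Icc] at hb
    unfold pr
    have e : lamI ((n : ℤ) - b) = ArithmeticFunction.vonMangoldt (n - b) := by
      unfold lamI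
      by_cases h1 : b < n
      · rw [if_pos (by omega)]
        congr 1
        omega
      · rw [if_neg (by omega)]
        have : n - b = 0 := by omega
        rw [this]
        simp
    rw [e]
    split_ifs
    · rfl
    · rw [zero_mul]

lemma sum_model (A n z : ℕ) (hz : 2 ≤ z) (h : n ≤ A) (G : ℕ → ℂ) :
    ∑ b ∈ Icc 1 A, pr G b * ((lamzI z ((n : ℤ) - b) : ℝ) : ℂ) = (((Vz z)⁻¹ : ℝ) : ℂ) * ∑ p ∈ Ps n z, G p := by
  unfold Ps
  rw [sum_filter, mul_sum]
  symm
  apply sum_subset_zero_on_sdiff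
  · intro b hb
    rw [mem_Icc] at hb ⊢
    omega
  · intro b hb
    rw [mem_sdiff, mem_Icc, mem_Icc] at hb
    unfold lamzI
    rw [if_neg (by omega), Complex.ofReal_zero, mul_zero]
  · intro b hb
    rw [mem_Icc] at hb
    unfold pr lamzI
    by_cases h1 : b < n
    · rw [if_pos (show (1 : ℤ) ≤ (n : ℤ) - b by omega)]
      unfold lamz
      have h2 : ((n : ℤ) - b).toNat = n - b := by omega
      rw [h2]
      by_cases h3 : b.Prime
      · by_cases h4 : ∀ q ∈ pz z, ¬ q ∣ n - b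
        · rw [if_pos ⟨h3, h4⟩, if_pos h3, if_pos h4, mul_comm]
        · rw [if_neg (fun h => h4 h.2), if_pos h3, if_neg h4, Complex.ofReal_zero, mul_zero, mul_zero]
      · rw [if_neg (fun h => h3 h.1), if_neg h3, mul_zero, zero_mul]
    · have h3 : n - b = 0 := by omega
      rw [if_neg (show ¬ (1 : ℤ) ≤ (n : ℤ) - b by omega), Complex.ofReal_zero, mul_zero, if_neg, mul_zero]
      rintro ⟨_, h4⟩
      exact h4 2 (mem_pz.2 ⟨hz, Nat.prime_two⟩) (by rw [h3]; exact dvd_zero 2)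

lemma Dif_eq (A n z : ℕ) (hz : 2 ≤ z) (h : n ≤ A) (G : ℕ → ℂ) :
    Dif z A n (pr G) = RG n G - (((Vz z)⁻¹ : ℝ) : ℂ) * ∑ p ∈ Ps n z, G p := by
  rw [← sum_lam A n h G, ← sum_model A n z hz h G, ← sum_sub_distrib]
  unfold Dif
  apply sum_congr rfl
  intro b _
  push_cast
  ring

/-- the sum with the logarithmic weight over the partitions -/
noncomputable def LG (n : ℕ) (G : ℕ → ℂ) : ℂ := ∑ p ∈ Pn n, G p * ((Real.log ((n - p : ℕ) : ℝ) : ℝ) : ℂ)

lemma RG_LG (n : ℕ) (hn : 1 ≤ n) (G : ℕ → ℂ) (hG : ∀ b, ‖G b‖ ≤ 1) : ‖RG n G - LG n G‖ ≤ 2 * √(n : ℝ) * Real.log n := by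
  have e : RG n G - LG n G = ∑ p ∈ (Icc 1 n).filter Nat.Prime, G p * ((pp (n - p) : ℝ) : ℂ) := by
    have e1 : LG n G = ∑ p ∈ (Icc 1 n).filter Nat.Prime, G p * ((lamP ((n - p : ℕ) : ℤ) : ℝ) : ℂ) := by
      unfold LG Pn
      rw [← filter_filter, sum_filter]
      apply sum_congr rfl
      intro p _
      unfold lamP
      rw [Int.toNat_natCast]
      split_ifs
      · rfl
      · simp
    rw [e1]
    unfold RG
    rw [← sum_sub_distrib]
    apply sum_congr rfl
    intro p _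
    unfold pp
    push_cast
    ring
  rw [e]
  calc _ ≤ ∑ p ∈ (Icc 1 n).filter Nat.Prime, pp (n - p) := by
        refine (norm_sum_le _ _).trans (sum_le_sum fun p _ => ?_)
        rw [norm_mul, Complex.norm_real, Real.norm_eq_abs, abs_of_nonneg (Pool.Agent.W93.GB.pp_nonneg _)]
        calc _ ≤ 1 * pp (n - p) := mul_le_mul_of_nonneg_right (hG p) (Pool.Agent.W93.GB.pp_nonneg _)
          _ = _ := one_mul _
    _ ≤ ∑ p ∈ Icc 1 n, pp (n - p) :=
        sum_le_sum_of_subset_of_nonneg (filter_subset _ _) fun p _ _ => Pool.Agent.W93.GB.pp_nonneg _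
    _ ≤ _ := Pool.Agent.W93.GB.sum_pp' n hn

/-- from the logarithmic weight to the number -/
lemma SG_LG (n : ℕ) (hn : 1 ≤ n) (G : ℕ → ℂ) (hG : ∀ b, ‖G b‖ ≤ 1) :
    ‖(Real.log n : ℂ) * ∑ p ∈ Pn n, G p - LG n G‖ ≤ Real.log n * g n - (LG n (fun _ => 1)).re := by
  have h0 : ∀ p ∈ Pn n, 0 ≤ Real.log n - Real.log ((n - p : ℕ) : ℝ) := by
    intro p hp
    unfold Pn at hp
    rw [mem_filter, mem_Icc] at hp
    have h1 : (0 : ℝ) < ((n - p : ℕ) : ℝ) := by exact_mod_cast hp.2.2.pos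
    have h2 : ((n - p : ℕ) : ℝ) ≤ n := by exact_mod_cast Nat.sub_le n p
    have := Real.log_le_log h1 h2
    linarith
  have e1 : Real.log n * g n - (LG n (fun _ => 1)).re = ∑ p ∈ Pn n, (Real.log n - Real.log ((n - p : ℕ) : ℝ)) := by
    unfold LG
    rw [sum_sub_distrib, sum_const, nsmul_eq_mul, card_Pn, Complex.re_sum]
    simp only [one_mul, Complex.ofReal_re]
    ring
  rw [e1]
  unfold LG
  rw [mul_sum, ← sum_sub_distrib]
  refine (norm_sum_le _ _).trans (sum_le_sum fun p hp => ?_)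
  have e2 : (Real.log n : ℂ) * G p - G p * ((Real.log ((n - p : ℕ) : ℝ) : ℝ) : ℂ) =
      G p * ((Real.log n - Real.log ((n - p : ℕ) : ℝ) : ℝ) : ℂ) := by push_cast; ring
  rw [e2, norm_mul, Complex.norm_real, Real.norm_eq_abs, abs_of_nonneg (h0 p hp)]
  calc _ ≤ 1 * (Real.log n - Real.log ((n - p : ℕ) : ℝ)) := mul_le_mul_of_nonneg_right (hG p) (h0 p hp)
    _ = _ := one_mul _

lemma pi1_eq (n : ℕ) : H343E.pi1 n = Nat.primeCounting n := by
  unfold H343E.pi1
  rw [Nat.primeCounting, Nat.primeCounting', Nat.count_eq_card_filter_range]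
  norm_cast
  congr 1
  ext p
  rw [mem_filter, mem_filter, mem_Icc, mem_range]
  constructor
  · rintro ⟨⟨_, b⟩, c⟩; exact ⟨by omega, c⟩
  · rintro ⟨a, b⟩; exact ⟨⟨b.one_le, by omega⟩, b⟩

lemma singZ_eq_Wn (n z : ℕ) : Pool.Agent.H373R2.T7.singZ (Pool.Agent.W93.GB.sh n) z = (Vz z)⁻¹ * Wn n z := by
  rw [Pool.Agent.H373R2.T7.singZ_eq, pow_one]
  congr 1
  unfold Wn
  apply prod_congr rfl
  intro p hp
  have hpp := (mem_pz.1 hp).2
  have h1 := Pool.Agent.H373R2.T7.nuP_eq (Pool.Agent.W93.GB.sh n) p hpp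
  rw [Pool.Agent.W93.GB.nuP_sh n p hpp] at h1
  unfold gd
  split_ifs at h1 ⊢ with h
  · have : Pool.Agent.H373R2.T7.rhoP (Pool.Agent.W93.GB.sh n) p = 0 := by omega
    rw [this]; simp
  · have : Pool.Agent.H373R2.T7.rhoP (Pool.Agent.W93.GB.sh n) p = 1 := by omega
    rw [this]; simp

/-- the main term -/
noncomputable def Xn (n z : ℕ) : ℝ := (Vz z)⁻¹ * (H343E.pi1 n * Wn n z)

lemma Xn_nonneg (n z : ℕ) : 0 ≤ Xn n z :=
  mul_nonneg (inv_pos.2 (Vz_pos z)).le (mul_nonneg (pi1_nonneg n) (Wn_nonneg n z))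

theorem Xn_near (ε : ℝ) (hε : 0 < ε) : ∃ n0 : ℕ, ∀ n : ℕ, n0 ≤ n → Even n → ∀ z : ℕ, Real.log n ^ 2 ≤ z →
    |Xn n z - HL n * Real.log n| ≤ ε * (HL n * Real.log n) := by
  set η : ℝ := min (ε / 3) 1 with hη
  have hη0 : 0 < η := by positivity
  obtain ⟨n1, h1⟩ := Pool.Agent.W93.GB.singZ_near η hη0
  obtain ⟨n2, -, h2⟩ := Pool.Agent.H357R2.SI.pnt η hη0
  refine ⟨max (max n1 n2) 3, fun n hn hev z hz => ?_⟩
  have a1 := h1 n (by omega) hev.two_dvd z hz
  obtain ⟨a2, a3⟩ := h2 n (by omega)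
  have hn3 : (3 : ℝ) ≤ n := by exact_mod_cast (by omega : 3 ≤ n)
  have hlog : 0 < Real.log n := Real.log_pos (by linarith)
  have hs := Pool.Agent.W93.GB.one_le_sing n
  rw [singZ_eq_Wn] at a1
  rw [← pi1_eq] at a2 a3
  set s := sing n with hsd
  set v := (Vz z)⁻¹ * Wn n z with hv
  set P := H343E.pi1 n with hP
  have eX : Xn n z = v * P := by unfold Xn; rw [hv, hP]; ring
  have eH : HL n * Real.log n = s * (n / Real.log n) := by
    unfold HL
    rw [hsd]
    field_simp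
  have hn0 : 0 < (n : ℝ) / Real.log n := by positivity
  have b1 : |P - n / Real.log n| ≤ η * (n / Real.log n) := by
    rw [abs_le]
    have e1 : (1 - η) * n / Real.log n = n / Real.log n - η * (n / Real.log n) := by ring
    have e2 : (1 + η) * n / Real.log n = n / Real.log n + η * (n / Real.log n) := by ring
    rw [e1] at a2
    rw [e2] at a3
    constructor <;> linarith
  have hP0 : 0 ≤ P := pi1_nonneg n
  rw [eX, eH]
  have e : v * P - s * (n / Real.log n) = (v - s) * P + s * (P - n / Real.log n) := by ring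
  rw [e]
  have hη1 : η ≤ 1 := min_le_right _ _
  have hη3 : η ≤ ε / 3 := min_le_left _ _
  calc _ ≤ |(v - s) * P| + |s * (P - n / Real.log n)| := abs_add_le _ _
    _ ≤ (η * s) * (2 * (n / Real.log n)) + s * (η * (n / Real.log n)) := by
        rw [abs_mul, abs_mul, abs_of_nonneg hP0, abs_of_nonneg (by linarith : (0 : ℝ) ≤ s)]
        apply add_le_add
        · apply mul_le_mul a1 _ hP0 (by positivity)
          have := (abs_le.1 b1).2
          nlinarith
        · exact mul_le_mul_of_nonneg_left b1 (by linarith)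
    _ = 3 * η * (s * (n / Real.log n)) := by ring
    _ ≤ ε * (s * (n / Real.log n)) := by
        apply mul_le_mul_of_nonneg_right _ (by positivity)
        linarith

lemma HL_lower (n : ℕ) (hn : 3 ≤ n) : (n : ℝ) / Real.log n ≤ HL n * Real.log n := by
  have hn3 : (3 : ℝ) ≤ n := by exact_mod_cast hn
  have hlog : 0 < Real.log n := Real.log_pos (by linarith)
  have hs := Pool.Agent.W93.GB.one_le_sing n
  have e : HL n * Real.log n = sing n * (n / Real.log n) := by
    unfold HL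
    field_simp
  rw [e]
  exact le_mul_of_one_le_left (by positivity) hs

end Pool.Agent.K4H18.EK
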