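import Pool.Agent.K4H18.EK.A14

set_option autoImplicit false

/-! The exponential sums over the partitions of a good number. -/

namespace Pool.Agent.K4H18.EK

open Finset Polynomial
open Pool.Agent.H373R2.T7 (pz mem_pz lamI lamzI lamz lamP Vz Vz_pos Vz_inv_small ev_L')
open Pool.Agent.H560R3.GB (energy g HL sing)
open Pool.Agent.W93.GB (pp)

/-- basic sizes: `H = HL n log n` -/
theorem basic (W B : ℕ) (c ε : ℝ) (hε : 0 < ε) (hε1 : ε ≤ 1 / 2) : ∃ N0 : ℕ, ∀ N : ℕ, N0 ≤ N → ∀ z : ℕ, Real.log N ^ 3 ≤ z →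
    ∀ n : ℕ, Even n → (N : ℝ) / Real.log N ^ W ≤ n → n ≤ B * N →
      3 ≤ n ∧ 1 ≤ Real.log n ∧ c ≤ Real.log n ∧ c ≤ Real.log N ∧ 0 < HL n * Real.log n ∧
      |Xn n z - HL n * Real.log n| ≤ ε * (HL n * Real.log n) ∧ Xn n z ≤ 2 * (HL n * Real.log n) ∧
      (N : ℝ) / Real.log N ^ (W + 3) ≤ ε / 8 * (HL n * Real.log n) ∧
      2 * √(n : ℝ) * Real.log n ≤ ε / 8 * (HL n * Real.log n) ∧ c * √(n : ℝ) * Real.log N ^ 3 ≤ HL n * Real.log n := by
  obtain ⟨n1, h1⟩ := Xn_near ε hε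
  obtain ⟨N2, h2⟩ := sizes W B
  obtain ⟨N3, h3⟩ := ev_L' (2 * |c| + 16 / ε + 16)
  obtain ⟨N4, h4⟩ := ev_pow 2 (64 / ε) (1 / 4) (by norm_num)
  obtain ⟨N5, h5⟩ := ev_pow 4 (2 * |c|) (1 / 4) (by norm_num)
  refine ⟨max (max (n1 ^ 2) N2) (max (max N3 N4) (max N5 9)), fun N hN z hz n hn hnN hnB => ?_⟩
  have a0 : n1 ^ 2 ≤ N := by omega
  obtain ⟨s1, s2, s3⟩ := h2 N (by omega) n hnN hnB
  have a3 := h3 N (by omega)
  have a4 := h4 N (by omega)
  have a5 := h5 N (by omega)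
  have hN9 : (9 : ℝ) ≤ N := by exact_mod_cast (by omega : 9 ≤ N)
  have hN0 : (0 : ℝ) < N := by linarith
  have hN1 : (1 : ℝ) ≤ N := by linarith
  have hc : 0 ≤ |c| := abs_nonneg c
  have hcc : c ≤ |c| := le_abs_self c
  have hε16 : 0 < 16 / ε := by positivity
  set L := Real.log N with hL
  have hL16 : 16 ≤ L := by linarith
  have hL0 : 0 < L := by linarith
  have hn1 : n1 ≤ n ∧ (3 : ℝ) ≤ n := by
    have h7 : √(N : ℝ) ≤ (N : ℝ) ^ (7 / 8 : ℝ) := by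
      rw [Real.sqrt_eq_rpow]
      exact Real.rpow_le_rpow_of_exponent_le hN1 (by norm_num)
    have h8 : (n1 : ℝ) ≤ √(N : ℝ) := by
      apply Real.le_sqrt_of_sq_le
      exact_mod_cast a0
    have h9 : (3 : ℝ) ≤ √(N : ℝ) := by
      apply Real.le_sqrt_of_sq_le
      linarith
    have h10 : (n1 : ℝ) ≤ n := by linarith
    exact ⟨by exact_mod_cast h10, by linarith⟩
  have hn3 : 3 ≤ n := by exact_mod_cast hn1.2
  have hnr := hn1.2
  have hn0 : (0 : ℝ) < n := by linarith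
  have hln : L / 2 ≤ Real.log n := s2
  have hln1 : 1 ≤ Real.log n := by linarith
  have hln0 : 0 < Real.log n := by linarith
  have hHL := HL_lower n hn3
  set H := HL n * Real.log n with hH
  have hH0 : 0 < H := lt_of_lt_of_le (by positivity) hHL
  have hz2 : Real.log n ^ 2 ≤ z := by
    refine le_trans ?_ hz
    calc Real.log n ^ 2 ≤ (2 * L) ^ 2 := pow_le_pow_left₀ hln0.le s3 2
      _ = 4 * L ^ 2 := by ring
      _ ≤ L * L ^ 2 := mul_le_mul_of_nonneg_right (by linarith) (by positivity)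
      _ = L ^ 3 := by ring
  have hX := h1 n hn1.1 hn z hz2
  have hX2 : Xn n z ≤ 2 * H := by
    have := (abs_le.1 hX).2
    nlinarith
  -- `N / L^W ≤ 2 L H`
  have hHN : (N : ℝ) / L ^ W ≤ 2 * L * H := by
    have h7 : (n : ℝ) ≤ H * Real.log n := by
      rwa [div_le_iff₀ hln0] at hHL
    calc (N : ℝ) / L ^ W ≤ n := hnN
      _ ≤ H * Real.log n := h7
      _ ≤ H * (2 * L) := mul_le_mul_of_nonneg_left s3 hH0.le
      _ = _ := by ring
  refine ⟨hn3, hln1, by linarith, by linarith, hH0, hX, hX2, ?_, ?_, ?_⟩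
  · have e : (N : ℝ) / L ^ (W + 3) = N / L ^ W / L ^ 3 := by rw [pow_add, div_div]
    rw [e, div_le_iff₀ (by positivity)]
    refine hHN.trans ?_
    have h7 : 16 ≤ ε * L := by
      have : 16 / ε ≤ L := by linarith
      rw [div_le_iff₀ hε] at this
      linarith
    calc 2 * L * H ≤ (ε * L / 8) * (L * L) * H := by
          apply mul_le_mul_of_nonneg_right _ hH0.le
          have : 2 ≤ ε * L / 8 := by linarith
          calc 2 * L ≤ (ε * L / 8) * L := mul_le_mul_of_nonneg_right this hL0.le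
            _ ≤ (ε * L / 8) * (L * L) := by
                apply mul_le_mul_of_nonneg_left _ (by positivity)
                nlinarith
      _ = _ := by ring
  · -- `√n log n` is small
    have h7 : 64 / ε * L ^ 2 ≤ √(n : ℝ) := by
      refine a4.trans ?_
      rw [Real.sqrt_eq_rpow]
      calc (N : ℝ) ^ (1 / 4 : ℝ) ≤ (N : ℝ) ^ (7 / 16 : ℝ) := Real.rpow_le_rpow_of_exponent_le hN1 (by norm_num)
        _ = ((N : ℝ) ^ (7 / 8 : ℝ)) ^ (1 / 2 : ℝ) := by rw [← Real.rpow_mul hN0.le]; norm_num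
        _ ≤ (n : ℝ) ^ (1 / 2 : ℝ) := Real.rpow_le_rpow (by positivity) s1 (by norm_num)
    have h8 : √(n : ℝ) * √(n : ℝ) = n := Real.mul_self_sqrt hn0.le
    have h9 : 0 < √(n : ℝ) := Real.sqrt_pos.2 hn0
    have h10 : 2 * √(n : ℝ) * Real.log n ≤ ε / 8 * (n / Real.log n) := by
      have e : ε / 8 * ((n : ℝ) / Real.log n) = (ε / 8 * n) / Real.log n := by ring
      rw [e, le_div_iff₀ hln0]
      have h11 : Real.log n * Real.log n ≤ 4 * L ^ 2 := by nlinarith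
      have h12 : 16 * (4 * L ^ 2) ≤ ε * √(n : ℝ) := by
        rw [div_mul_eq_mul_div, div_le_iff₀ hε] at h7
        linarith
      calc 2 * √(n : ℝ) * Real.log n * Real.log n = 2 * √(n : ℝ) * (Real.log n * Real.log n) := by ring
        _ ≤ 2 * √(n : ℝ) * (4 * L ^ 2) := mul_le_mul_of_nonneg_left h11 (by positivity)
        _ ≤ (1 / 8) * √(n : ℝ) * (ε * √(n : ℝ)) := by nlinarith
        _ = ε / 8 * (√(n : ℝ) * √(n : ℝ)) := by ring
        _ = _ := by rw [h8]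
    exact h10.trans (mul_le_mul_of_nonneg_left hHL (by positivity))
  · have h7 : 2 * |c| * L ^ 4 ≤ √(n : ℝ) := by
      refine a5.trans ?_
      rw [Real.sqrt_eq_rpow]
      calc (N : ℝ) ^ (1 / 4 : ℝ) ≤ (N : ℝ) ^ (7 / 16 : ℝ) := Real.rpow_le_rpow_of_exponent_le hN1 (by norm_num)
        _ = ((N : ℝ) ^ (7 / 8 : ℝ)) ^ (1 / 2 : ℝ) := by rw [← Real.rpow_mul hN0.le]; norm_num
        _ ≤ (n : ℝ) ^ (1 / 2 : ℝ) := Real.rpow_le_rpow (by positivity) s1 (by norm_num)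
    have h8 : √(n : ℝ) * √(n : ℝ) = n := Real.mul_self_sqrt hn0.le
    have h9 : 0 < √(n : ℝ) := Real.sqrt_pos.2 hn0
    refine le_trans ?_ hHL
    rw [le_div_iff₀ hln0]
    calc c * √(n : ℝ) * L ^ 3 * Real.log n ≤ |c| * √(n : ℝ) * L ^ 3 * (2 * L) := by gcongr
      _ = √(n : ℝ) * (2 * |c| * L ^ 4) := by ring
      _ ≤ √(n : ℝ) * √(n : ℝ) := mul_le_mul_of_nonneg_left h7 h9.le
      _ = n := h8

lemma Fex_zero {k : ℕ} (F : Fin k → ℤ[X]) (N z : ℕ) : Fex F N z 0 = fun _ => 1 := by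
  funext p
  unfold Fex
  simp

lemma eta_zero {k : ℕ} (F : Fin k → ℤ[X]) (c : ℝ) (q : ℕ) : eta F (fun i => (0 : Fin k → ℝ) i / c) q = 0 := by
  unfold eta hh
  simp

theorem det_char {k : ℕ} (F : Fin k → ℤ[X]) (R D : ℕ) (hf : Facts F R D) (E W B : ℕ) (T0 ε : ℝ) (hT0 : 0 ≤ T0)
    (hε : 0 < ε) (hε1 : ε ≤ 1 / 2) : ∃ N0 : ℕ, ∀ N : ℕ, N0 ≤ N → ∀ z : ℕ, R ≤ z → Real.log N ^ 3 ≤ z → (z : ℝ) ≤ Real.log N ^ E →
      ∀ n : ℕ, Even n → (N : ℝ) / Real.log N ^ W ≤ n → n ≤ B * N → |(g n : ℝ) - HL n| ≤ ε * HL n →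
      ‖Dif z (B * N) n (pr (fun _ => 1))‖ ≤ N / Real.log N ^ (W + 3) →
      ∀ t : Fin k → ℝ, (∀ i, |t i| ≤ T0) → ‖Dif z (B * N) n (pr (Fex F N z t))‖ ≤ N / Real.log N ^ (W + 3) →
      ‖∑ p ∈ Pn n, Fex F N z t p - (g n : ℂ) * ∏ q ∈ PP z (YN N), (1 + eta F (fun i => t i / √(Real.log (Real.log N))) q)‖ ≤
        12 * ε * g n := by
  obtain ⟨N1, h1⟩ := basic W B (32 / ε) ε hε hε1
  obtain ⟨N2, h2⟩ := eval_char F R D hf E W B (W + 4) T0 hT0
  obtain ⟨N3, h3⟩ := Vz_inv_small E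
  obtain ⟨N4, h4⟩ := ev_L' 3
  refine ⟨max (max N1 N2) (max (max N3 N4) 3), fun N hN z hzR hz3 hzE n hn hnN hnB hgn hD1 t ht hDF => ?_⟩
  have hN3 : (3 : ℝ) ≤ N := by exact_mod_cast (by omega : 3 ≤ N)
  have hL3 := h4 N (by omega)
  obtain ⟨b1, b2, b3, b4, b5, b6, b7, b8, b9, -⟩ := h1 N (by omega) z hz3 n hn hnN hnB
  set L := Real.log N with hL
  have hL0 : 0 < L := by linarith
  have hz3' : 3 ≤ z := by
    have : (3 : ℝ) ≤ z := by
      refine le_trans ?_ hz3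
      calc (3 : ℝ) ≤ L := hL3
        _ ≤ L ^ 3 := le_self_pow₀ (by linarith) (by norm_num)
    exact_mod_cast this
  have hV := h3 N (by omega) z (by omega) hzE
  have hev := h2 N (by omega) z hz3' hzR hzE n hnN hnB
  have hV0 : 0 < (Vz z)⁻¹ := inv_pos.2 (Vz_pos z)
  set H := HL n * Real.log n with hH
  set X := Xn n z with hX
  have hX0 : 0 ≤ X := Xn_nonneg n z
  have hln0 : 0 < Real.log n := by linarith
  have hHL0 : 0 < HL n := by
    by_contra hcon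
    rw [not_lt] at hcon
    have : H ≤ 0 := mul_nonpos_of_nonpos_of_nonneg hcon hln0.le
    linarith
  -- the general bound
  have gen : ∀ (G : ℕ → ℂ) (Q : ℂ), (∀ b, ‖G b‖ ≤ 1) →
      ‖∑ p ∈ Ps n z, G p - ((H343E.pi1 n * Wn n z : ℝ) : ℂ) * Q‖ ≤ 2 * (H343E.pi1 n * Wn n z) / L + N / L ^ (W + 4) →
      ‖Dif z (B * N) n (pr G)‖ ≤ N / L ^ (W + 3) → ‖LG n G - (X : ℂ) * Q‖ ≤ ε * H := by
    intro G Q hG hPs hDG
    rw [Dif_eq (B * N) n z (by omega) hnB G] at hDG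
    have e1 : ‖(((Vz z)⁻¹ : ℝ) : ℂ) * ∑ p ∈ Ps n z, G p - (X : ℂ) * Q‖ ≤ 2 * X / L + N / L ^ (W + 3) := by
      have e2 : (((Vz z)⁻¹ : ℝ) : ℂ) * ∑ p ∈ Ps n z, G p - (X : ℂ) * Q =
          (((Vz z)⁻¹ : ℝ) : ℂ) * (∑ p ∈ Ps n z, G p - ((H343E.pi1 n * Wn n z : ℝ) : ℂ) * Q) := by
        rw [hX]; unfold Xn; push_cast; ring
      rw [e2, norm_mul, Complex.norm_real, Real.norm_eq_abs, abs_of_pos hV0]
      calc (Vz z)⁻¹ * ‖∑ p ∈ Ps n z, G p - ((H343E.pi1 n * Wn n z : ℝ) : ℂ) * Q‖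
          ≤ (Vz z)⁻¹ * (2 * (H343E.pi1 n * Wn n z) / L + N / L ^ (W + 4)) := mul_le_mul_of_nonneg_left hPs hV0.le
        _ = 2 * X / L + (Vz z)⁻¹ * (N / L ^ (W + 4)) := by rw [hX]; unfold Xn; ring
        _ ≤ 2 * X / L + L * (N / L ^ (W + 4)) := by
            apply add_le_add le_rfl
            exact mul_le_mul_of_nonneg_right hV (by positivity)
        _ = _ := by
            congr 1
            rw [pow_succ L (W + 3)]
            field_simp
    have e3 := RG_LG n (by omega) G hG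
    have e4 : LG n G - (X : ℂ) * Q = -(RG n G - LG n G) + (RG n G - (((Vz z)⁻¹ : ℝ) : ℂ) * ∑ p ∈ Ps n z, G p) +
        ((((Vz z)⁻¹ : ℝ) : ℂ) * ∑ p ∈ Ps n z, G p - (X : ℂ) * Q) := by ring
    have e5 : 2 * X / L ≤ ε / 8 * H := by
      rw [div_le_iff₀ hL0]
      have : 32 ≤ ε * L := by
        rw [div_le_iff₀ hε] at b4
        linarith
      nlinarith
    rw [e4]
    calc _ ≤ ‖-(RG n G - LG n G)‖ + ‖RG n G - (((Vz z)⁻¹ : ℝ) : ℂ) * ∑ p ∈ Ps n z, G p‖ +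
        ‖(((Vz z)⁻¹ : ℝ) : ℂ) * ∑ p ∈ Ps n z, G p - (X : ℂ) * Q‖ := (norm_add_le _ _).trans (add_le_add_left (norm_add_le _ _) _)
      _ ≤ ε / 8 * H + ε / 8 * H + (ε / 8 * H + ε / 8 * H) := by
          rw [norm_neg]
          exact add_le_add (add_le_add (e3.trans b9) (hDG.trans b8)) (e1.trans (add_le_add e5 b8))
      _ ≤ ε * H := by nlinarith
  -- the constant function
  have hone := gen (fun _ => 1) 1 (fun b => by rw [norm_one]) (by
    have h5 := hev 0 (fun i => by simp only [Pi.zero_apply, abs_zero]; exact hT0)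
    rw [Fex_zero] at h5
    have h6 : ∏ q ∈ PP z (YN N), (1 + eta F (fun i => (0 : Fin k → ℝ) i / √(Real.log L)) q) = 1 := by
      apply prod_eq_one
      intro q _
      rw [eta_zero, add_zero]
    rw [h6] at h5
    exact h5) hD1
  have hF := gen (Fex F N z t) _ (fun b => (norm_Fex F N z t b).le) (hev t ht) hDF
  set Q := ∏ q ∈ PP z (YN N), (1 + eta F (fun i => t i / √(Real.log L)) q) with hQ
  have hQ1 : ‖Q‖ ≤ 1 := by
    rw [hQ, norm_prod]
    apply prod_le_one (fun _ _ => norm_nonneg _)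
    intro q hq
    have hqp := (mem_PP.1 hq).2.2
    have hqR : R < q := lt_of_le_of_lt hzR (mem_PP.1 hq).1
    exact norm_one_add_avg hqp _ (hh_zero hf _ hqp hqR) (fun b => norm_one_add_hh hf _ hqp hqR b)
  have hre : X - ε * H ≤ (LG n (fun _ => 1)).re := by
    rw [mul_one] at hone
    have h5 := (abs_le.1 ((Complex.abs_re_le_norm _).trans hone)).1
    rw [Complex.sub_re, Complex.ofReal_re] at h5
    linarith
  have hXlo := (abs_le.1 b6).1
  have hglo := (abs_le.1 hgn).1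
  have hghi := (abs_le.1 hgn).2
  have hgH : Real.log n * g n ≤ (1 + ε) * H := by
    calc Real.log n * g n ≤ Real.log n * ((1 + ε) * HL n) := mul_le_mul_of_nonneg_left (by linarith) hln0.le
      _ = _ := by rw [hH]; ring
  have hgH2 : H ≤ 2 * (Real.log n * g n) := by
    have : HL n ≤ 2 * g n := by nlinarith
    calc H = Real.log n * HL n := by rw [hH]; ring
      _ ≤ Real.log n * (2 * g n) := mul_le_mul_of_nonneg_left this hln0.le
      _ = _ := by ring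
  have c1 := SG_LG n (by omega) (Fex F N z t) (fun b => (norm_Fex F N z t b).le)
  have c2 : Real.log n * g n - (LG n (fun _ => 1)).re ≤ 3 * ε * H := by nlinarith
  have c3 : ‖(X : ℂ) * Q - (H : ℂ) * Q‖ ≤ ε * H := by
    rw [← sub_mul, norm_mul, ← Complex.ofReal_sub, Complex.norm_real, Real.norm_eq_abs]
    calc |X - H| * ‖Q‖ ≤ (ε * H) * 1 := mul_le_mul b6 hQ1 (norm_nonneg _) (by positivity)
      _ = _ := mul_one _
  have c4 : ‖(H : ℂ) * Q - ((Real.log n * g n : ℝ) : ℂ) * Q‖ ≤ ε * H := by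
    rw [← sub_mul, norm_mul, ← Complex.ofReal_sub, Complex.norm_real, Real.norm_eq_abs]
    have h5 : |H - Real.log n * g n| ≤ ε * H := by
      have e : H - Real.log n * g n = Real.log n * (-(g n - HL n)) := by rw [hH]; ring
      rw [e, abs_mul, abs_neg, abs_of_pos hln0]
      calc Real.log n * |(g n : ℝ) - HL n| ≤ Real.log n * (ε * HL n) := mul_le_mul_of_nonneg_left hgn hln0.le
        _ = _ := by rw [hH]; ring
    calc |H - Real.log n * g n| * ‖Q‖ ≤ (ε * H) * 1 := mul_le_mul h5 hQ1 (norm_nonneg _) (by positivity)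
      _ = _ := mul_one _
  have c5 : ‖(Real.log n : ℂ) * (∑ p ∈ Pn n, Fex F N z t p - (g n : ℂ) * Q)‖ ≤ 6 * ε * H := by
    have e : (Real.log n : ℂ) * (∑ p ∈ Pn n, Fex F N z t p - (g n : ℂ) * Q) =
        ((Real.log n : ℂ) * ∑ p ∈ Pn n, Fex F N z t p - LG n (Fex F N z t)) + (LG n (Fex F N z t) - (X : ℂ) * Q) +
        ((X : ℂ) * Q - (H : ℂ) * Q) + ((H : ℂ) * Q - ((Real.log n * g n : ℝ) : ℂ) * Q) := by push_cast; ring
    rw [e]
    calc _ ≤ ‖(Real.log n : ℂ) * ∑ p ∈ Pn n, Fex F N z t p - LG n (Fex F N z t)‖ + ‖LG n (Fex F N z t) - (X : ℂ) * Q‖ +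
        ‖(X : ℂ) * Q - (H : ℂ) * Q‖ + ‖(H : ℂ) * Q - ((Real.log n * g n : ℝ) : ℂ) * Q‖ :=
          (norm_add_le _ _).trans (add_le_add_left ((norm_add_le _ _).trans (add_le_add_left (norm_add_le _ _) _)) _)
      _ ≤ 3 * ε * H + ε * H + ε * H + ε * H := add_le_add (add_le_add (add_le_add (c1.trans c2) hF) c3) c4
      _ = _ := by ring
  rw [norm_mul, Complex.norm_real, Real.norm_eq_abs, abs_of_pos hln0] at c5
  have c6 : Real.log n * ‖∑ p ∈ Pn n, Fex F N z t p - (g n : ℂ) * Q‖ ≤ Real.log n * (12 * ε * g n) := by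
    refine c5.trans ?_
    calc 6 * ε * H ≤ 6 * ε * (2 * (Real.log n * g n)) := mul_le_mul_of_nonneg_left hgH2 (by positivity)
      _ = _ := by ring
  exact le_of_mul_le_mul_left c6 hln0

end Pool.Agent.K4H18.EK
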