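import Pool.Agent.K4H18.EK.A15

set_option autoImplicit false

/-! The remaining prime factors over the partitions of a good number. -/

namespace Pool.Agent.K4H18.EK

open Finset Polynomial
open Pool.Agent.H373R2.T7 (pz mem_pz lamI lamzI lamz lamP Vz Vz_pos Vz_inv_small ev_L')
open Pool.Agent.H560R3.GB (energy g HL sing)
open Pool.Agent.W93.GB (pp)

/-- the weight for the remaining prime factors -/
noncomputable def wG {k : ℕ} (F : Fin k → ℤ[X]) (N z b : ℕ) : ℂ :=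
  ((min (wf F N z b) (Real.log N ^ 2) / Real.log N ^ 2 : ℝ) : ℂ)

lemma norm_wG {k : ℕ} (F : Fin k → ℤ[X]) (N z b : ℕ) (hN : 3 ≤ N) : ‖wG F N z b‖ ≤ 1 := by
  unfold wG
  have hN3 : (3 : ℝ) ≤ N := by exact_mod_cast hN
  have hL : 0 < Real.log N := Real.log_pos (by linarith)
  have h0 := wf_nonneg F N z b
  rw [Complex.norm_real, Real.norm_eq_abs, abs_of_nonneg (by positivity), div_le_one (by positivity)]
  exact min_le_right _ _

theorem det_wf {k : ℕ} (F : Fin k → ℤ[X]) (R D : ℕ) (hf : Facts F R D) (E W B : ℕ) : ∃ (C : ℝ) (N0 : ℕ), 0 ≤ C ∧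
    ∀ N : ℕ, N0 ≤ N → ∀ z : ℕ, R ≤ z → Real.log N ^ 3 ≤ z → (z : ℝ) ≤ Real.log N ^ E →
      ∀ n : ℕ, Even n → (N : ℝ) / Real.log N ^ W ≤ n → n ≤ B * N → |(g n : ℝ) - HL n| ≤ 1 / 2 * HL n →
      ‖Dif z (B * N) n (pr (wG F N z))‖ ≤ N / Real.log N ^ (W + 5) →
      ∑ p ∈ Pn n, min (wf F N z p) (Real.log N ^ 2) ≤ C * (1 + Real.log (Real.log (Real.log N))) * g n := by
  obtain ⟨C1, N1, hC1, h1⟩ := wf_bound F R D hf E W B (W + 4)
  obtain ⟨N2, h2⟩ := basic W B 4 (1 / 2) (by norm_num) le_rfl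
  obtain ⟨N3, h3⟩ := Vz_inv_small E
  obtain ⟨N4, h4⟩ := ev_L' 3
  obtain ⟨N5, h5⟩ := ev_lam 0 1 one_pos
  obtain ⟨N6, h6⟩ := sizes W B
  refine ⟨2 * (4 * C1 + 9), max (max N1 N2) (max (max N3 N4) (max (max N5 N6) 3)), by positivity,
    fun N hN z hzR hz3 hzE n hn hnN hnB hgn hDw => ?_⟩
  have hN3 : (3 : ℝ) ≤ N := by exact_mod_cast (by omega : 3 ≤ N)
  have hL3 := h4 N (by omega)
  obtain ⟨b1, b2, -, -, b5, b6, b7, b8, b9, b10⟩ := h2 N (by omega) z hz3 n hn hnN hnB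
  obtain ⟨-, a1, -⟩ := h5 N (by omega)
  set L := Real.log N with hL
  have hL0 : 0 < L := by linarith
  have hz3' : 3 ≤ z := by
    have : (3 : ℝ) ≤ z := by
      refine le_trans ?_ hz3
      calc (3 : ℝ) ≤ L := hL3
        _ ≤ L ^ 3 := le_self_pow₀ (by linarith) (by norm_num)
    exact_mod_cast this
  have hV := h3 N (by omega) z (by omega) hzE
  have hwf := h1 N (by omega) z hz3' hzR hzE n hn hnN hnB
  have hV0 : 0 < (Vz z)⁻¹ := inv_pos.2 (Vz_pos z)
  set H := HL n * Real.log n with hH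
  set X := Xn n z with hX
  set ll := Real.log (Real.log L) with hll
  have hll0 : 0 ≤ ll := Real.log_nonneg a1
  have hX0 : 0 ≤ X := Xn_nonneg n z
  have hln0 : 0 < Real.log n := by linarith
  obtain ⟨s1, s2, s3⟩ := h6 N (by omega) n hnN hnB
  set w : ℕ → ℝ := fun p => min (wf F N z p) (L ^ 2) with hw
  have hw0 : ∀ p, 0 ≤ w p := fun p => le_min (wf_nonneg F N z p) (by positivity)
  have hwL : ∀ p, w p ≤ L ^ 2 := fun p => min_le_right _ _
  -- the logarithmic sum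
  have hG := norm_wG F N z
  have e1 : ((∑ p ∈ Pn n, w p * Real.log ((n - p : ℕ) : ℝ)) : ℝ) = L ^ 2 * (LG n (wG F N z)).re := by
    unfold LG wG
    rw [Complex.re_sum, mul_sum]
    apply sum_congr rfl
    intro p _
    rw [← Complex.ofReal_mul, Complex.ofReal_re]
    change w p * Real.log ((n - p : ℕ) : ℝ) = L ^ 2 * (w p / L ^ 2 * Real.log ((n - p : ℕ) : ℝ))
    field_simp
  have e2 := RG_LG n (by omega) (wG F N z) (fun b => norm_wG F N z b (by omega))
  rw [Dif_eq (B * N) n z (by omega) hnB (wG F N z)] at hDw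
  have e3 : (LG n (wG F N z)).re ≤ (Vz z)⁻¹ * ∑ p ∈ Ps n z, w p / L ^ 2 + N / L ^ (W + 5) + 2 * √(n : ℝ) * Real.log n := by
    have f1 : (LG n (wG F N z)).re = -(RG n (wG F N z) - LG n (wG F N z)).re +
        (RG n (wG F N z) - (((Vz z)⁻¹ : ℝ) : ℂ) * ∑ p ∈ Ps n z, wG F N z p).re +
        ((((Vz z)⁻¹ : ℝ) : ℂ) * ∑ p ∈ Ps n z, wG F N z p).re := by
      simp only [Complex.sub_re]; ring
    have f2 : ((((Vz z)⁻¹ : ℝ) : ℂ) * ∑ p ∈ Ps n z, wG F N z p).re = (Vz z)⁻¹ * ∑ p ∈ Ps n z, w p / L ^ 2 := by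
      unfold wG
      rw [← Complex.ofReal_sum, ← Complex.ofReal_mul, Complex.ofReal_re]
    have f3 := (abs_le.1 ((Complex.abs_re_le_norm _).trans e2)).1
    have f4 := (abs_le.1 ((Complex.abs_re_le_norm _).trans hDw)).2
    rw [f1, f2]
    linarith
  have e4 : (Vz z)⁻¹ * ∑ p ∈ Ps n z, w p ≤ C1 * (1 + ll) * X + N / L ^ (W + 3) := by
    calc (Vz z)⁻¹ * ∑ p ∈ Ps n z, w p ≤ (Vz z)⁻¹ * ∑ p ∈ Ps n z, wf F N z p := by
          apply mul_le_mul_of_nonneg_left _ hV0.le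
          exact sum_le_sum fun p _ => min_le_left _ _
      _ ≤ (Vz z)⁻¹ * (C1 * (1 + ll) * (H343E.pi1 n * Wn n z) + N / L ^ (W + 4)) := mul_le_mul_of_nonneg_left hwf hV0.le
      _ = C1 * (1 + ll) * X + (Vz z)⁻¹ * (N / L ^ (W + 4)) := by rw [hX]; unfold Xn; ring
      _ ≤ C1 * (1 + ll) * X + L * (N / L ^ (W + 4)) := by
          apply add_le_add le_rfl
          exact mul_le_mul_of_nonneg_right hV (by positivity)
      _ = _ := by
          congr 1
          rw [pow_succ L (W + 3)]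
          field_simp
  have e5 : ∑ p ∈ Pn n, w p * Real.log ((n - p : ℕ) : ℝ) ≤ (2 * C1 + 4) * (1 + ll) * H := by
    rw [e1]
    have f1 : L ^ 2 * (LG n (wG F N z)).re ≤ (Vz z)⁻¹ * ∑ p ∈ Ps n z, w p + N / L ^ (W + 3) + 2 * √(n : ℝ) * Real.log n * L ^ 2 := by
      have f2 := mul_le_mul_of_nonneg_left e3 (show 0 ≤ L ^ 2 by positivity)
      have f3 : L ^ 2 * ((Vz z)⁻¹ * ∑ p ∈ Ps n z, w p / L ^ 2 + N / L ^ (W + 5) + 2 * √(n : ℝ) * Real.log n) =
          (Vz z)⁻¹ * ∑ p ∈ Ps n z, w p + N / L ^ (W + 3) + 2 * √(n : ℝ) * Real.log n * L ^ 2 := by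
        rw [← sum_div, show W + 5 = W + 3 + 2 by ring, pow_add L (W + 3) 2]
        field_simp
      rw [f3] at f2
      exact f2
    have f4 : 2 * √(n : ℝ) * Real.log n * L ^ 2 ≤ H := by
      refine le_trans ?_ b10
      have f5 : 0 ≤ √(n : ℝ) := Real.sqrt_nonneg _
      calc 2 * √(n : ℝ) * Real.log n * L ^ 2 ≤ 2 * √(n : ℝ) * (2 * L) * L ^ 2 := by gcongr
        _ = 4 * √(n : ℝ) * L ^ 3 := by ring
    have f6 : C1 * (1 + ll) * X ≤ C1 * (1 + ll) * (2 * H) := mul_le_mul_of_nonneg_left b7 (by positivity)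
    have f7 : (N : ℝ) / L ^ (W + 3) ≤ H := by nlinarith
    have f8 : 0 ≤ ll * H := by positivity
    nlinarith
  -- removing the logarithm
  have e6 : Real.log n * ∑ p ∈ Pn n, w p ≤ 2 * ∑ p ∈ Pn n, w p * Real.log ((n - p : ℕ) : ℝ) + Real.log n * L ^ 2 * (2 * √(n : ℝ)) := by
    have f1 : ∀ p ∈ Pn n, Real.log n * w p ≤ 2 * (w p * Real.log ((n - p : ℕ) : ℝ)) + (if (n - p) ^ 2 < n then Real.log n * L ^ 2 else 0) := by
      intro p hp
      unfold Pn at hp
      rw [mem_filter, mem_Icc] at hp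
      have g1 : (1 : ℝ) ≤ ((n - p : ℕ) : ℝ) := by exact_mod_cast hp.2.2.one_le
      have g2 : 0 ≤ Real.log ((n - p : ℕ) : ℝ) := Real.log_nonneg g1
      split_ifs with hlt
      · have : Real.log n * w p ≤ Real.log n * L ^ 2 := mul_le_mul_of_nonneg_left (hwL p) hln0.le
        have := mul_nonneg (hw0 p) g2
        linarith
      · rw [not_lt] at hlt
        have g3 : (n : ℝ) ≤ ((n - p : ℕ) : ℝ) ^ 2 := by exact_mod_cast hlt
        have g4 := Real.log_le_log (by exact_mod_cast (by omega : 0 < n)) g3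
        rw [Real.log_pow] at g4
        push_cast at g4
        rw [add_zero]
        calc Real.log n * w p ≤ (2 * Real.log ((n - p : ℕ) : ℝ)) * w p := mul_le_mul_of_nonneg_right g4 (hw0 p)
          _ = _ := by ring
    rw [mul_sum]
    refine (sum_le_sum f1).trans ?_
    rw [sum_add_distrib, ← mul_sum]
    apply add_le_add le_rfl
    rw [← sum_filter, sum_const, nsmul_eq_mul]
    have f2 : (((Pn n).filter (fun p => (n - p) ^ 2 < n)).card : ℝ) ≤ 2 * √(n : ℝ) := by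
      have g1 : ((Pn n).filter (fun p => (n - p) ^ 2 < n)).card ≤ Nat.sqrt n := by
        have g2 : ((Pn n).filter (fun p => (n - p) ^ 2 < n)).card ≤ (Icc 1 (Nat.sqrt n)).card := by
          apply card_le_card_of_injOn (fun p => n - p)
          · intro p hp
            rw [mem_coe, mem_filter] at hp
            unfold Pn at hp
            rw [mem_filter, mem_Icc] at hp
            rw [mem_coe, mem_Icc]
            refine ⟨hp.1.2.2.one_le, ?_⟩
            rw [Nat.le_sqrt']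
            exact hp.2.le
          · intro a ha b hb hab
            rw [mem_coe, mem_filter] at ha hb
            unfold Pn at ha hb
            rw [mem_filter, mem_Icc] at ha hb
            simp only at hab
            omega
        rw [Nat.card_Icc] at g2
        omega
      have g3 : (Nat.sqrt n : ℝ) ≤ √(n : ℝ) := Real.nat_sqrt_le_real_sqrt
      have g4 : (((Pn n).filter (fun p => (n - p) ^ 2 < n)).card : ℝ) ≤ Nat.sqrt n := by exact_mod_cast g1
      have g5 := Real.sqrt_nonneg (n : ℝ)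
      linarith
    calc _ ≤ (2 * √(n : ℝ)) * (Real.log n * L ^ 2) := mul_le_mul_of_nonneg_right f2 (by positivity)
      _ = _ := by ring
  have e7 : Real.log n * L ^ 2 * (2 * √(n : ℝ)) ≤ H := by
    refine le_trans ?_ b10
    have f5 : 0 ≤ √(n : ℝ) := Real.sqrt_nonneg _
    calc Real.log n * L ^ 2 * (2 * √(n : ℝ)) ≤ (2 * L) * L ^ 2 * (2 * √(n : ℝ)) := by gcongr
      _ = 4 * √(n : ℝ) * L ^ 3 := by ring
  have hgH2 : H ≤ 2 * (Real.log n * g n) := by
    have hglo := (abs_le.1 hgn).1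
    have : HL n ≤ 2 * g n := by linarith
    calc H = Real.log n * HL n := by rw [hH]; ring
      _ ≤ Real.log n * (2 * g n) := mul_le_mul_of_nonneg_left this hln0.le
      _ = _ := by ring
  have e8 : Real.log n * ∑ p ∈ Pn n, w p ≤ Real.log n * (2 * (4 * C1 + 9) * (1 + ll) * g n) := by
    calc Real.log n * ∑ p ∈ Pn n, w p ≤ 2 * ((2 * C1 + 4) * (1 + ll) * H) + H := e6.trans (add_le_add (mul_le_mul_of_nonneg_left e5 (by norm_num)) e7)
      _ ≤ (4 * C1 + 9) * (1 + ll) * H := by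
          have f8 : 0 ≤ ll * H := by positivity
          nlinarith
      _ ≤ (4 * C1 + 9) * (1 + ll) * (2 * (Real.log n * g n)) := mul_le_mul_of_nonneg_left hgH2 (by positivity)
      _ = _ := by ring
  exact le_of_mul_le_mul_left e8 hln0

end Pool.Agent.K4H18.EK
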