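import Pool.Agent.K4H18.EK.A16
import Pool.Agent.H373R2.T7.BilLam

set_option autoImplicit false

/-! The number of prime factors and the truncated additive functions. -/

namespace Pool.Agent.K4H18.EK

open Finset Polynomial
open Pool.Agent.H373R2.T7 (pz mem_pz ev_L')
open Pool.Agent.H560R3.GB (energy g HL sing)

/-- the number of the distinct prime factors of `f(p)` -/
noncomputable def om (f : ℤ[X]) (p : ℕ) : ℝ := (((f.eval (p : ℤ)).natAbs.primeFactors.card : ℕ) : ℝ)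

lemma om_bounds (f : ℤ[X]) (B : ℕ) : ∃ c N0 : ℕ, 1 ≤ c ∧ ∀ N : ℕ, N0 ≤ N → ∀ z : ℕ, z ≤ YN N →
    ∀ p : ℕ, 1 ≤ p → p ≤ B * N → f.eval (p : ℤ) ≠ 0 →
      (cntP f (PP z (YN N)) p : ℝ) ≤ om f p ∧
      (cntP f (pz z) p : ℝ) + cntP f (PP (YN N) (Y8 N)) p ≤ om f p ∧
      om f p ≤ cntP f (PP z (YN N)) p + ((cntP f (pz z) p : ℝ) + cntP f (PP (YN N) (Y8 N)) p) + c ∧
      om f p ≤ c * Real.log N := by
  set d := f.natDegree with hd
  set c1 := Pool.Agent.H373R2.T7.cf f with hc1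
  obtain ⟨N1, h1⟩ := par_sizes 2
  refine ⟨8 * (d + 1) + 1, max (max N1 (c1 * B ^ d)) 3, by omega, fun N hN z hz p hp hpN hf0 => ?_⟩
  obtain ⟨-, -, -, b4, -, -⟩ := h1 N (by omega)
  have hc2 : c1 * B ^ d ≤ N := by omega
  have hN3 : (3 : ℝ) ≤ N := by exact_mod_cast (by omega : 3 ≤ N)
  have hN0 : (0 : ℝ) < N := by linarith
  have hN1 : (1 : ℝ) < N := by linarith
  have hL0 : 0 < Real.log N := Real.log_pos hN1
  set m := (f.eval (p : ℤ)).natAbs with hm
  have hm0 : m ≠ 0 := by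
    rw [hm]
    exact Int.natAbs_ne_zero.2 hf0
  -- the size of the value
  have hmN : m ≤ N ^ (d + 1) := by
    have h2 := Pool.Agent.H373R2.T7.abs_eval_le f p hp
    have h3 : (m : ℤ) = |f.eval (p : ℤ)| := by rw [hm]; exact Int.natCast_natAbs _
    rw [← h3] at h2
    have h4 : m ≤ c1 * p ^ d := by exact_mod_cast h2
    calc m ≤ c1 * p ^ d := h4
      _ ≤ c1 * (B * N) ^ d := Nat.mul_le_mul_left _ (Nat.pow_le_pow_left hpN d)
      _ = (c1 * B ^ d) * N ^ d := by rw [mul_pow]; ring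
      _ ≤ N * N ^ d := Nat.mul_le_mul_right _ hc2
      _ = N ^ (d + 1) := by ring
  have hdvd : ∀ q : ℕ, ((q : ℤ) ∣ f.eval (p : ℤ)) ↔ q ∣ m := by
    intro q
    rw [hm]
    exact Int.natCast_dvd
  have hY8 : YN N ≤ Y8 N := Nat.le_floor b4
  -- the parts
  have hpart : ∀ (Q : Finset ℕ), (∀ q ∈ Q, q.Prime) → Q.filter (fun q : ℕ => (q : ℤ) ∣ f.eval (p : ℤ)) = m.primeFactors.filter (fun q => q ∈ Q) := by
    intro Q hQ
    ext q
    rw [mem_filter, mem_filter, Nat.mem_primeFactors, hdvd]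
    constructor
    · rintro ⟨a, b⟩
      exact ⟨⟨hQ q a, b, hm0⟩, a⟩
    · rintro ⟨⟨_, b, _⟩, c⟩
      exact ⟨c, b⟩
  have p1 : cntP f (pz z) p = (m.primeFactors.filter (fun q => q ∈ pz z)).card := by
    unfold cntP; rw [hpart _ (fun q hq => (mem_pz.1 hq).2)]
  have p2 : cntP f (PP z (YN N)) p = (m.primeFactors.filter (fun q => q ∈ PP z (YN N))).card := by
    unfold cntP; rw [hpart _ (fun q hq => (mem_PP.1 hq).2.2)]
  have p3 : cntP f (PP (YN N) (Y8 N)) p = (m.primeFactors.filter (fun q => q ∈ PP (YN N) (Y8 N))).card := by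
    unfold cntP; rw [hpart _ (fun q hq => (mem_PP.1 hq).2.2)]
  have hsub : ∀ Q : Finset ℕ, (m.primeFactors.filter (fun q => q ∈ Q)).card ≤ m.primeFactors.card := fun Q => card_le_card (filter_subset _ _)
  -- the large prime factors
  set T := m.primeFactors.filter (fun q => Y8 N < q) with hT
  have hprodle : ∀ S ⊆ m.primeFactors, ∏ q ∈ S, q ≤ N ^ (d + 1) := by
    intro S hS
    have h2 : ∏ q ∈ S, q ∣ m := by
      refine (prod_dvd_prod_of_subset S m.primeFactors (fun q => q) hS).trans ?_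
      exact Nat.prod_primeFactors_dvd m
    exact (Nat.le_of_dvd (Nat.pos_of_ne_zero hm0) h2).trans hmN
  have hTcard : T.card ≤ 8 * (d + 1) := by
    by_contra hcon
    rw [not_le] at hcon
    have h2 := hprodle T (filter_subset _ _)
    have h3 : ((N : ℝ) ^ (1 / 8 : ℝ)) ^ T.card ≤ ∏ q ∈ T, (q : ℝ) := by
      rw [← prod_const]
      apply prod_le_prod
      · intro q _; positivity
      · intro q hq
        rw [hT, mem_filter] at hq
        have h4 : (N : ℝ) ^ (1 / 8 : ℝ) < (Y8 N : ℝ) + 1 := Nat.lt_floor_add_one _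
        have h5 : ((Y8 N : ℝ) + 1) ≤ q := by exact_mod_cast hq.2
        linarith
    have h4 : ∏ q ∈ T, (q : ℝ) ≤ (N : ℝ) ^ (d + 1) := by
      have h44 := (Nat.cast_le (α := ℝ)).2 h2
      rw [Nat.cast_prod, Nat.cast_pow] at h44
      exact h44
    have h5 : (N : ℝ) ^ (d + 1) = ((N : ℝ) ^ (1 / 8 : ℝ)) ^ (8 * (d + 1)) := by
      rw [← Real.rpow_natCast ((N : ℝ) ^ (1 / 8 : ℝ)), ← Real.rpow_mul hN0.le, ← Real.rpow_natCast]
      congr 1
      push_cast
      ring
    have h6 : 1 < (N : ℝ) ^ (1 / 8 : ℝ) := Real.one_lt_rpow hN1 (by norm_num)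
    have h7 : ((N : ℝ) ^ (1 / 8 : ℝ)) ^ (8 * (d + 1)) < ((N : ℝ) ^ (1 / 8 : ℝ)) ^ T.card := pow_lt_pow_right₀ h6 hcon
    rw [← h5] at h7
    linarith
  have hom : om f p = (m.primeFactors.card : ℝ) := rfl
  -- the union
  have hcover : m.primeFactors.card ≤ (m.primeFactors.filter (fun q => q ∈ PP z (YN N))).card +
      ((m.primeFactors.filter (fun q => q ∈ pz z)).card + (m.primeFactors.filter (fun q => q ∈ PP (YN N) (Y8 N))).card) + T.card := by
    have h2 : m.primeFactors ⊆ ((m.primeFactors.filter (fun q => q ∈ PP z (YN N))) ∪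
      ((m.primeFactors.filter (fun q => q ∈ pz z)) ∪ (m.primeFactors.filter (fun q => q ∈ PP (YN N) (Y8 N))))) ∪ T := by
      intro q hq
      have hqp := (Nat.mem_primeFactors.1 hq).1
      rw [mem_union, mem_union, mem_union]
      rcases Nat.lt_or_ge (Y8 N) q with h3 | h3
      · right; rw [hT, mem_filter]; exact ⟨hq, h3⟩
      · left
        rcases Nat.lt_or_ge (YN N) q with h4 | h4
        · right; right; rw [mem_filter]; exact ⟨hq, mem_PP.2 ⟨h4, h3, hqp⟩⟩
        · rcases Nat.lt_or_ge z q with h5 | h5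
          · left; rw [mem_filter]; exact ⟨hq, mem_PP.2 ⟨h5, h4, hqp⟩⟩
          · right; left; rw [mem_filter]; exact ⟨hq, mem_pz.2 ⟨h5, hqp⟩⟩
    refine (card_le_card h2).trans ((card_union_le _ _).trans ?_)
    apply add_le_add _ le_rfl
    exact (card_union_le _ _).trans (add_le_add le_rfl (card_union_le _ _))
  have hdisj : (m.primeFactors.filter (fun q => q ∈ pz z)).card + (m.primeFactors.filter (fun q => q ∈ PP (YN N) (Y8 N))).card ≤
      m.primeFactors.card := by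
    rw [← card_union_of_disjoint]
    · apply card_le_card
      apply union_subset (filter_subset _ _) (filter_subset _ _)
    · rw [disjoint_left]
      intro q h2 h3
      rw [mem_filter, mem_pz] at h2
      rw [mem_filter, mem_PP] at h3
      omega
  have hlog : (m.primeFactors.card : ℝ) ≤ (8 * (d + 1) + 1 : ℕ) * Real.log N := by
    have h2 : 2 ^ m.primeFactors.card ≤ N ^ (d + 1) := by
      calc 2 ^ m.primeFactors.card = ∏ _q ∈ m.primeFactors, 2 := by rw [prod_const]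
        _ ≤ ∏ q ∈ m.primeFactors, q := prod_le_prod' fun q hq => (Nat.prime_of_mem_primeFactors hq).two_le
        _ ≤ N ^ (d + 1) := hprodle _ (Subset.refl _)
    have h3 : ((2 : ℝ)) ^ m.primeFactors.card ≤ (N : ℝ) ^ (d + 1) := by exact_mod_cast h2
    have h4 := Real.log_le_log (by positivity) h3
    rw [Real.log_pow, Real.log_pow] at h4
    have h5 := Real.log_two_gt_d9
    have h6 : (m.primeFactors.card : ℝ) * (1 / 2) ≤ m.primeFactors.card * Real.log 2 :=
      mul_le_mul_of_nonneg_left (by linarith) (Nat.cast_nonneg _)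
    push_cast at h4 ⊢
    have h7 : 0 ≤ (d : ℝ) * Real.log N := by positivity
    nlinarith
  rw [hom, p1, p2, p3]
  refine ⟨by exact_mod_cast hsub _, by exact_mod_cast hdisj, ?_, hlog⟩
  have h2 : (m.primeFactors.card : ℝ) ≤ (m.primeFactors.filter (fun q => q ∈ PP z (YN N))).card +
      ((m.primeFactors.filter (fun q => q ∈ pz z)).card + (m.primeFactors.filter (fun q => q ∈ PP (YN N) (Y8 N))).card) + T.card := by
    exact_mod_cast hcover
  have h3 : (T.card : ℝ) ≤ 8 * (d + 1) := by exact_mod_cast hTcard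
  push_cast
  linarith

/-- common constants for a family -/
lemma om_fam {k : ℕ} (F : Fin k → ℤ[X]) (B : ℕ) : ∃ c N0 : ℕ, 1 ≤ c ∧ ∀ N : ℕ, N0 ≤ N → ∀ z : ℕ, z ≤ YN N →
    ∀ p : ℕ, 1 ≤ p → p ≤ B * N → ∀ i, (F i).eval (p : ℤ) ≠ 0 →
      (cntP (F i) (PP z (YN N)) p : ℝ) ≤ om (F i) p ∧
      (cntP (F i) (pz z) p : ℝ) + cntP (F i) (PP (YN N) (Y8 N)) p ≤ om (F i) p ∧
      om (F i) p ≤ cntP (F i) (PP z (YN N)) p + ((cntP (F i) (pz z) p : ℝ) + cntP (F i) (PP (YN N) (Y8 N)) p) + c ∧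
      om (F i) p ≤ c * Real.log N := by
  choose c M hc hM using fun i => om_bounds (F i) B
  refine ⟨∑ i, c i + 1, ∑ i, M i + 3, by omega, fun N hN z hz p hp hpN i hi => ?_⟩
  have a1 := single_le_sum (f := c) (s := univ) (fun _ _ => Nat.zero_le _) (mem_univ i)
  have a2 := single_le_sum (f := M) (s := univ) (fun _ _ => Nat.zero_le _) (mem_univ i)
  obtain ⟨h1, h2, h3, h4⟩ := hM i N (by omega) z hz p hp hpN hi
  have hN3 : (3 : ℝ) ≤ N := by exact_mod_cast (by omega : 3 ≤ N)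
  have hL0 : 0 < Real.log N := Real.log_pos (by linarith)
  have a3 : (c i : ℝ) ≤ ((∑ i, c i + 1 : ℕ) : ℝ) := by exact_mod_cast (by omega : c i ≤ ∑ i, c i + 1)
  refine ⟨h1, h2, by linarith, h4.trans ?_⟩
  exact mul_le_mul_of_nonneg_right a3 hL0.le

/-- few zeros of the polynomials -/
lemma few_zeros {k : ℕ} (F : Fin k → ℤ[X]) (hF : ∀ i, F i ≠ 0) : ∃ c : ℕ, ∀ A : Finset ℕ,
    (A.filter (fun p : ℕ => ∃ i, (F i).eval (p : ℤ) = 0)).card ≤ c := by
  classical
  refine ⟨∑ i, (F i).roots.toFinset.card, fun A => ?_⟩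
  have h1 : (A.filter (fun p : ℕ => ∃ i, (F i).eval (p : ℤ) = 0)) ⊆
      univ.biUnion (fun i => A.filter (fun p : ℕ => (F i).eval (p : ℤ) = 0)) := by
    intro p hp
    rw [mem_filter] at hp
    obtain ⟨i, hi⟩ := hp.2
    rw [mem_biUnion]
    exact ⟨i, mem_univ i, mem_filter.2 ⟨hp.1, hi⟩⟩
  refine (card_le_card h1).trans (card_biUnion_le.trans (sum_le_sum fun i _ => ?_))
  apply card_le_card_of_injOn (fun p : ℕ => (p : ℤ))
  · intro p hp
    rw [mem_coe, mem_filter] at hp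
    rw [mem_coe, Multiset.mem_toFinset, mem_roots (hF i)]
    exact hp.2
  · intro a _ b _ h
    exact Nat.cast_injective h

end Pool.Agent.K4H18.EK
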