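import Pool.Agent.K4H18.EK.A17

set_option autoImplicit false

/-! Comparison of the number of prime factors with the truncated additive function. -/

namespace Pool.Agent.K4H18.EK

open Finset Polynomial
open Pool.Agent.H373R2.T7 (pz mem_pz Vz Vz_pos Vz_inv_small ev_L')
open Pool.Agent.H560R3.GB (energy g HL sing)

/-- the linear form in the standardised variables -/
noncomputable def ZZ {k : ℕ} (F : Fin k → ℤ[X]) (n : ℕ) (t : Fin k → ℝ) (p : ℕ) : ℝ :=
  ∑ i, t i * ((om (F i) p - Real.log (Real.log n)) / √(Real.log (Real.log n)))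

/-- `log log n` and `log log N` -/
lemma lam_near (W B : ℕ) : ∃ N0 : ℕ, ∀ N : ℕ, N0 ≤ N → ∀ n : ℕ, (N : ℝ) / Real.log N ^ W ≤ n → n ≤ B * N →
    1 ≤ Real.log (Real.log n) ∧ Real.log (Real.log N) ≤ 4 * Real.log (Real.log n) ∧
    |Real.log (Real.log n) - Real.log (Real.log N)| ≤ 2 * (W + B) * Real.log (Real.log N) / Real.log N := by
  obtain ⟨N1, h1⟩ := sizes W B
  obtain ⟨N2, h2⟩ := ev_lam 2 1 one_pos
  obtain ⟨N3, h3⟩ := ev_L' (4 * (W + B))
  refine ⟨max (max N1 N2) (max N3 3), fun N hN n hnN hnB => ?_⟩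
  obtain ⟨s1, s2, s3⟩ := h1 N (by omega) n hnN hnB
  obtain ⟨a0, a1, -⟩ := h2 N (by omega)
  have a2 := h3 N (by omega)
  have hN3 : (3 : ℝ) ≤ N := by exact_mod_cast (by omega : 3 ≤ N)
  have hN0 : (0 : ℝ) < N := by linarith
  set L := Real.log N with hL
  have hL0 : 0 < L := Real.log_pos (by linarith)
  set lam := Real.log L with hlam
  have hW0 : (0 : ℝ) ≤ W := Nat.cast_nonneg _
  have hB0 : (0 : ℝ) ≤ B := Nat.cast_nonneg _
  have hn0 : (0 : ℝ) < n := lt_of_lt_of_le (by positivity) hnN
  have hB1 : (1 : ℝ) ≤ B := by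
    have : 0 < B := by
      rcases Nat.eq_zero_or_pos B with h | h
      · rw [h, zero_mul] at hnB
        have : n = 0 := by omega
        rw [this] at hn0
        norm_num at hn0
      · exact h
    exact_mod_cast this
  set ln := Real.log n with hln
  have hln0 : 0 < ln := by linarith
  have hlo : L - W * lam ≤ ln := by
    have h4 := Real.log_le_log (by positivity) hnN
    rw [Real.log_div hN0.ne' (by positivity), Real.log_pow] at h4
    exact h4
  have hhi : ln ≤ L + B := by
    have h4 : (n : ℝ) ≤ B * N := by exact_mod_cast hnB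
    have h5 := Real.log_le_log hn0 h4
    rw [Real.log_mul (by linarith) hN0.ne'] at h5
    have h6 := Real.log_le_sub_one_of_pos (show (0 : ℝ) < B by linarith)
    linarith
  have hdif : |ln - L| ≤ (W + B) * lam := by
    rw [abs_le]
    constructor
    · nlinarith
    · nlinarith
  have hlog : ∀ x y : ℝ, 0 < x → 0 < y → Real.log x - Real.log y ≤ (x - y) / y := by
    intro x y hx hy
    rw [← Real.log_div hx.ne' hy.ne']
    have := Real.log_le_sub_one_of_pos (show 0 < x / y by positivity)
    calc Real.log (x / y) ≤ x / y - 1 := this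
      _ = (x - y) / y := by field_simp
  have h5 : |Real.log ln - lam| ≤ 2 * (W + B) * lam / L := by
    obtain ⟨d1, d2⟩ := abs_le.1 hdif
    rw [abs_le]
    constructor
    · have h6 := hlog L ln hL0 hln0
      have h7 : (L - ln) / ln ≤ 2 * (W + B) * lam / L := by
        rw [div_le_div_iff₀ hln0 hL0]
        have h8 : 0 ≤ (W + B) * lam := by positivity
        calc (L - ln) * L ≤ ((W + B) * lam) * L := mul_le_mul_of_nonneg_right (by linarith) hL0.le
          _ ≤ ((W + B) * lam) * (2 * ln) := mul_le_mul_of_nonneg_left (by linarith) h8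
          _ = _ := by ring
      linarith
    · have h6 := hlog ln L hln0 hL0
      have h7 : (ln - L) / L ≤ 2 * (W + B) * lam / L := by
        apply div_le_div_of_nonneg_right _ hL0.le
        have h8 : 0 ≤ (W + B) * lam := by positivity
        linarith
      linarith
  have h6 : 2 * (W + B) * lam / L ≤ lam / 2 := by
    rw [div_le_iff₀ hL0]
    have : 2 * (W + B) * lam = (4 * (W + B)) * lam / 2 := by ring
    rw [this]
    have h7 : (4 * (W + B)) * lam ≤ L * lam := mul_le_mul_of_nonneg_right a2 (by linarith)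
    linarith
  have h7 := (abs_le.1 h5).1
  exact ⟨by linarith, by linarith, h5⟩

/-- one prime -/
lemma one_prime {k : ℕ} (F : Fin k → ℤ[X]) (E W B : ℕ) (T0 : ℝ) (hT0 : 0 ≤ T0) : ∃ (K : ℝ) (N0 : ℕ), 0 ≤ K ∧ ∀ N : ℕ, N0 ≤ N →
    ∀ z : ℕ, (z : ℝ) ≤ Real.log N ^ E → ∀ n : ℕ, (N : ℝ) / Real.log N ^ W ≤ n → n ≤ B * N →
    ∀ p : ℕ, 1 ≤ p → p ≤ n → (∀ i, (F i).eval (p : ℤ) ≠ 0) →
    ∀ t t' : Fin k → ℝ, (∀ i, |t i| ≤ T0) → (∀ i, |t i - t' i| ≤ 1 / Real.log N) →
      |ZZ F n t p - ∑ i, t' i / √(Real.log (Real.log N)) * (cntP (F i) (PP z (YN N)) p - Real.log (Real.log N))| ≤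
        K * (1 + min (wf F N z p) (Real.log N ^ 2)) / √(Real.log (Real.log N)) := by
  obtain ⟨N1, h1⟩ := lam_near W B
  obtain ⟨N2, h2⟩ := z_le_Y E
  obtain ⟨c, N3, hc, h3⟩ := om_fam F B
  obtain ⟨N4, h4⟩ := ev_lam 1 1 one_pos
  obtain ⟨N5, h5⟩ := ev_L' (k * c + 1)
  set M : ℝ := W + B with hM
  have hM0 : 0 ≤ M := by positivity
  have hc0 : (0 : ℝ) ≤ c := Nat.cast_nonneg _
  have hk0 : (0 : ℝ) ≤ k := Nat.cast_nonneg _
  -- the constant for one polynomial
  set K1 : ℝ := T0 * (4 * M + 4 * (c + 1) * M) + (c + 1) + (T0 + 1) * (c + 1) with hK1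
  have hK10 : 0 ≤ K1 := by positivity
  refine ⟨k * K1 + K1, max (max N1 N2) (max (max N3 N4) (max N5 3)), by positivity,
    fun N hN z hzE n hnN hnB p hp1 hpn hp t t' ht ht' => ?_⟩
  obtain ⟨l1, l2, l3⟩ := h1 N (by omega) n hnN hnB
  have hzY := h2 N (by omega) z hzE
  have hom := h3 N (by omega) z hzY p hp1 (hpn.trans hnB)
  obtain ⟨-, a1, -⟩ := h4 N (by omega)
  have a5 := h5 N (by omega)
  have hN3 : (3 : ℝ) ≤ N := by exact_mod_cast (by omega : 3 ≤ N)
  have hN0 : (0 : ℝ) < N := by linarith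
  set L := Real.log N with hL
  set lam := Real.log L with hlam
  set ln := Real.log (Real.log n) with hln
  set σ := √lam with hσ
  set τ := √ln with hτ
  have hL1 : 1 ≤ L := by
    have : 0 ≤ (k : ℝ) * c := by positivity
    linarith
  have hL0 : 0 < L := by linarith
  have hlam0 : 0 < lam := by linarith
  have hln0 : 0 < ln := by linarith
  have hσ1 : 1 ≤ σ := by rw [hσ, Real.one_le_sqrt]; exact a1
  have hτ1 : 1 ≤ τ := by rw [hτ, Real.one_le_sqrt]; exact l1
  have hσ0 : 0 < σ := by linarith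
  have hτ0 : 0 < τ := by linarith
  have hσ2 : σ * σ = lam := Real.mul_self_sqrt hlam0.le
  have hτ2 : τ * τ = ln := Real.mul_self_sqrt hln0.le
  have hστ : σ ≤ 2 * τ := by
    rw [hσ]
    apply Real.sqrt_le_iff.2
    exact ⟨by positivity, by rw [mul_pow, sq τ, hτ2]; linarith⟩
  have hlamL : lam ≤ L := by
    have := Real.log_le_sub_one_of_pos hL0
    linarith
  -- the difference of the standardisations
  have hd : |lam - ln| ≤ 2 * M * lam / L := by rw [abs_sub_comm]; exact l3
  -- the weights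
  have hwf : wf F N z p ≤ L ^ 2 := by
    have h6 : wf F N z p ≤ ∑ _i : Fin k, c * L := by
      unfold wf
      apply sum_le_sum
      intro i _
      obtain ⟨-, e2, -, e4⟩ := hom i (hp i)
      exact e2.trans e4
    rw [sum_const, card_univ, Fintype.card_fin, nsmul_eq_mul] at h6
    calc wf F N z p ≤ k * (c * L) := h6
      _ = (k * c) * L := by ring
      _ ≤ L * L := mul_le_mul_of_nonneg_right (by linarith) hL0.le
      _ = L ^ 2 := by ring
  rw [min_eq_left hwf]
  -- one term
  have hterm : ∀ i, |t i * ((om (F i) p - ln) / τ) - t' i / σ * (cntP (F i) (PP z (YN N)) p - lam)| ≤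
      (K1 + K1 * ((cntP (F i) (pz z) p : ℝ) + cntP (F i) (PP (YN N) (Y8 N)) p)) / σ := by
    intro i
    obtain ⟨e1, e2, e3, e4⟩ := hom i (hp i)
    set w := om (F i) p with hw
    set v : ℝ := (cntP (F i) (PP z (YN N)) p : ℝ) with hv
    set r : ℝ := (cntP (F i) (pz z) p : ℝ) + cntP (F i) (PP (YN N) (Y8 N)) p with hr
    have hr0 : 0 ≤ r := by positivity
    have hw0 : 0 ≤ w := by rw [hw]; unfold om; positivity
    have hwlam : |w - lam| ≤ (c + 1) * L := by
      rw [abs_le]
      constructor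
      · nlinarith
      · nlinarith
    have hident : t i * ((w - ln) / τ) - t' i / σ * (v - lam) =
        t i * ((lam - ln) / τ + (w - lam) * (1 / τ - 1 / σ)) + (t i - t' i) * (w - lam) / σ + t' i * (w - v) / σ := by
      field_simp
      ring
    rw [hident]
    -- the three parts
    have f1 : |(lam - ln) / τ| ≤ 4 * M / σ := by
      rw [abs_div, abs_of_pos hτ0]
      have g1 : |lam - ln| ≤ 2 * M := by
        refine hd.trans ?_
        rw [div_le_iff₀ hL0]
        exact mul_le_mul_of_nonneg_left hlamL (by positivity)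
      rw [div_le_div_iff₀ hτ0 hσ0]
      calc |lam - ln| * σ ≤ (2 * M) * (2 * τ) := mul_le_mul g1 hστ hσ0.le (by positivity)
        _ = _ := by ring
    have f2 : |(w - lam) * (1 / τ - 1 / σ)| ≤ 4 * (c + 1) * M / σ := by
      have g1 : 1 / τ - 1 / σ = (lam - ln) / (τ * σ * (σ + τ)) := by
        have : lam - ln = (σ + τ) * (σ - τ) := by rw [← hσ2, ← hτ2]; ring
        rw [this]
        field_simp
      rw [g1, abs_mul, abs_div, abs_of_pos (show 0 < τ * σ * (σ + τ) by positivity)]
      have g2 : |w - lam| * |lam - ln| ≤ (c + 1) * L * (2 * M * lam / L) := mul_le_mul hwlam hd (abs_nonneg _) (by positivity)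
      have g3 : (c + 1) * L * (2 * M * lam / L) = 2 * (c + 1) * M * lam := by field_simp
      rw [g3] at g2
      rw [← mul_div_assoc, div_le_div_iff₀ (by positivity) hσ0]
      calc |w - lam| * |lam - ln| * σ ≤ (2 * (c + 1) * M * lam) * σ := mul_le_mul_of_nonneg_right g2 hσ0.le
        _ ≤ (2 * (c + 1) * M * lam) * (2 * τ) := mul_le_mul_of_nonneg_left hστ (by positivity)
        _ = 4 * (c + 1) * M * (τ * (σ * σ)) := by rw [hσ2]; ring
        _ ≤ 4 * (c + 1) * M * (τ * σ * (σ + τ)) := by
            apply mul_le_mul_of_nonneg_left _ (by positivity)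
            have : 0 ≤ τ * σ * τ := by positivity
            nlinarith
    have f3 : |t i * ((lam - ln) / τ + (w - lam) * (1 / τ - 1 / σ))| ≤ T0 * (4 * M + 4 * (c + 1) * M) / σ := by
      rw [abs_mul]
      have g1 : |(lam - ln) / τ + (w - lam) * (1 / τ - 1 / σ)| ≤ (4 * M + 4 * (c + 1) * M) / σ := by
        refine (abs_add_le _ _).trans ?_
        rw [add_div]
        exact add_le_add f1 f2
      rw [mul_div_assoc]
      exact mul_le_mul (ht i) g1 (abs_nonneg _) hT0
    have f4 : |(t i - t' i) * (w - lam) / σ| ≤ (c + 1) / σ := by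
      rw [abs_div, abs_of_pos hσ0, abs_mul]
      apply div_le_div_of_nonneg_right _ hσ0.le
      calc |t i - t' i| * |w - lam| ≤ (1 / L) * ((c + 1) * L) := mul_le_mul (ht' i) hwlam (abs_nonneg _) (by positivity)
        _ = c + 1 := by field_simp
    have f5 : |t' i * (w - v) / σ| ≤ (T0 + 1) * (r + c) / σ := by
      rw [abs_div, abs_of_pos hσ0, abs_mul]
      apply div_le_div_of_nonneg_right _ hσ0.le
      have g1 : |t' i| ≤ T0 + 1 := by
        have g2 : |t' i| ≤ |t i| + |t i - t' i| := by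
          have := abs_sub_abs_le_abs_sub (t' i) (t i)
          rw [abs_sub_comm (t' i)] at this
          linarith
        have g3 : 1 / L ≤ 1 := by rw [div_le_one hL0]; exact hL1
        have := ht i
        have := ht' i
        linarith
      have g2 : |w - v| ≤ r + c := by
        rw [abs_of_nonneg (by linarith)]
        linarith
      exact mul_le_mul g1 g2 (abs_nonneg _) (by positivity)
    have f6 := (abs_add_le _ _).trans (add_le_add ((abs_add_le _ _).trans (add_le_add f3 f4)) f5)
    refine f6.trans ?_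
    rw [← add_div, ← add_div]
    apply div_le_div_of_nonneg_right _ hσ0.le
    have g1 : (T0 + 1) * (r + c) ≤ (T0 + 1) * (c + 1) + K1 * r := by
      have g2 : (T0 + 1) * r ≤ K1 * r := by
        apply mul_le_mul_of_nonneg_right _ hr0
        rw [hK1]
        have g3 : 0 ≤ T0 * (4 * M + 4 * (c + 1) * M) := by positivity
        have g4 : 0 ≤ (T0 + 1) * c := by positivity
        nlinarith
      nlinarith
    linarith
  unfold ZZ
  rw [← sum_sub_distrib]
  refine (abs_sum_le_sum_abs _ _).trans ((sum_le_sum fun i _ => hterm i).trans ?_)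
  rw [← sum_div]
  apply div_le_div_of_nonneg_right _ hσ0.le
  rw [sum_add_distrib, sum_const, card_univ, Fintype.card_fin, nsmul_eq_mul, ← mul_sum]
  have hw0 := wf_nonneg F N z p
  have e : ∑ i, ((cntP (F i) (pz z) p : ℝ) + cntP (F i) (PP (YN N) (Y8 N)) p) = wf F N z p := rfl
  rw [e]
  have : 0 ≤ k * K1 * wf F N z p := by positivity
  nlinarith

end Pool.Agent.K4H18.EK
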