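import Pool.Agent.K4H18.EK.A18

set_option autoImplicit false

/-! The characteristic function of the standardised numbers of prime factors over the partitions of a good number. -/

namespace Pool.Agent.K4H18.EK

open Finset Polynomial
open Pool.Agent.H373R2.T7 (pz mem_pz Vz Vz_pos Vz_inv_small ev_L')
open Pool.Agent.H560R3.GB (energy g HL sing)

/-- the mesh -/
noncomputable def gN (N : ℕ) : ℕ := ⌈Real.log N⌉₊

/-- the frequencies -/
noncomputable def fq {k : ℕ} (N : ℕ) (u : Fin k → ℤ) : Fin k → ℝ := fun i => (u i : ℝ) / (gN N : ℝ) ^ 2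

/-- the set of the frequencies -/
noncomputable def Fqs (k N : ℕ) : Finset (Fin k → ℤ) := Fintype.piFinset (fun _ => Icc (-((gN N : ℤ) ^ 3)) ((gN N : ℤ) ^ 3))

/-- the analytic conditions on a number `n` -/
def AG {k : ℕ} (F : Fin k → ℤ[X]) (N z W B n : ℕ) : Prop :=
  (∀ u ∈ Fqs k N, ‖Dif z (B * N) n (pr (Fex F N z (fq N u)))‖ ≤ N / Real.log N ^ (W + 5)) ∧
  ‖Dif z (B * N) n (pr (wG F N z))‖ ≤ N / Real.log N ^ (W + 5)

/-- the frequencies are dense -/
lemma fq_dense {k : ℕ} (T0 : ℝ) : ∃ N0 : ℕ, ∀ N : ℕ, N0 ≤ N → ∀ t : Fin k → ℝ, (∀ i, |t i| ≤ T0) →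
    ∃ u ∈ Fqs k N, ∀ i, |t i - fq N u i| ≤ 1 / Real.log N := by
  obtain ⟨N1, h1⟩ := ev_L' (|T0| + 2)
  refine ⟨max N1 3, fun N hN t ht => ?_⟩
  have a1 := h1 N (by omega)
  set L := Real.log N with hL
  have hT := abs_nonneg T0
  have hL2 : 2 ≤ L := by linarith
  have hg : L ≤ (gN N : ℝ) := Nat.le_ceil _
  set γ : ℝ := (gN N : ℝ) with hγ
  have hγ2 : 2 ≤ γ := by linarith
  have hγ0 : 0 < γ := by linarith
  refine ⟨fun i => ⌊t i * γ ^ 2⌋, ?_, fun i => ?_⟩
  · unfold Fqs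
    rw [Fintype.mem_piFinset]
    intro i
    rw [mem_Icc]
    have h2 : |t i| ≤ |T0| := (ht i).trans (le_abs_self _)
    obtain ⟨h3, h4⟩ := abs_le.1 h2
    have h5 : |T0| * γ ^ 2 + 1 ≤ γ ^ 3 := by
      have : γ ^ 3 = γ * γ ^ 2 := by ring
      nlinarith [sq_nonneg γ]
    have h6 : t i * γ ^ 2 ≤ |T0| * γ ^ 2 := mul_le_mul_of_nonneg_right h4 (by positivity)
    have h7 : -(|T0| * γ ^ 2) ≤ t i * γ ^ 2 := by
      have := mul_le_mul_of_nonneg_right h3 (show 0 ≤ γ ^ 2 by positivity)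
      linarith
    constructor
    · rw [Int.le_floor]
      push_cast
      linarith
    · have h8 := Int.floor_le (t i * γ ^ 2)
      have h9 : ((⌊t i * γ ^ 2⌋ : ℤ) : ℝ) ≤ (((gN N : ℤ) ^ 3 : ℤ) : ℝ) := by
        push_cast
        linarith
      exact_mod_cast h9
  · unfold fq
    have h8 := Int.floor_le (t i * γ ^ 2)
    have h9 := Int.lt_floor_add_one (t i * γ ^ 2)
    have e : t i - (⌊t i * γ ^ 2⌋ : ℝ) / γ ^ 2 = (t i * γ ^ 2 - ⌊t i * γ ^ 2⌋) / γ ^ 2 := by field_simp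
    rw [e, abs_div, abs_of_pos (show 0 < γ ^ 2 by positivity), abs_of_nonneg (by linarith),
      div_le_div_iff₀ (by positivity) (by linarith)]
    have : L ≤ γ ^ 2 := by nlinarith
    nlinarith

lemma exp_dist (x y : ℝ) : ‖Complex.exp (Complex.I * (x : ℂ)) - Complex.exp (Complex.I * (y : ℂ))‖ ≤ |x - y| := by
  have e : Complex.exp (Complex.I * (x : ℂ)) - Complex.exp (Complex.I * (y : ℂ)) =
      Complex.exp (Complex.I * (y : ℂ)) * (Complex.exp (Complex.I * ((x - y : ℝ) : ℂ)) - 1) := by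
    rw [mul_sub, ← Complex.exp_add, mul_one]
    congr 2
    push_cast
    ring
  rw [e, norm_mul, norm_exp_I, one_mul]
  exact norm_exp_sub_one_le _

lemma gauss_dist {k : ℕ} (t t' : Fin k → ℝ) (T0 δ : ℝ) (hT0 : 0 ≤ T0) (hδ : 0 ≤ δ) (hδ1 : δ ≤ 1) (ht : ∀ i, |t i| ≤ T0)
    (h : ∀ i, |t i - t' i| ≤ δ) : |Real.exp (-∑ i, t i ^ 2 / 2) - Real.exp (-∑ i, t' i ^ 2 / 2)| ≤ k * (T0 + 1) * δ := by
  have h1 : ∀ x y : ℝ, 0 ≤ x → 0 ≤ y → |Real.exp (-x) - Real.exp (-y)| ≤ |x - y| := by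
    have aux : ∀ x y : ℝ, 0 ≤ x → x ≤ y → |Real.exp (-x) - Real.exp (-y)| ≤ |x - y| := by
      intro x y hx hxy
      have h2 : Real.exp (-y) = Real.exp (-x) * Real.exp (x - y) := by rw [← Real.exp_add]; congr 1; ring
      have h3 : Real.exp (-x) ≤ 1 := Real.exp_le_one_iff.2 (by linarith)
      have h4 := Real.add_one_le_exp (x - y)
      have h5 : Real.exp (x - y) ≤ 1 := Real.exp_le_one_iff.2 (by linarith)
      have h6 : 0 < Real.exp (-x) := Real.exp_pos _
      rw [h2, abs_of_nonneg (by nlinarith), abs_of_nonpos (by linarith)]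
      nlinarith
    intro x y hx hy
    rcases le_total x y with h | h
    · exact aux x y hx h
    · rw [abs_sub_comm, abs_sub_comm x y]
      exact aux y x hy h
  refine (h1 _ _ (sum_nonneg fun i _ => by positivity) (sum_nonneg fun i _ => by positivity)).trans ?_
  rw [← sum_sub_distrib]
  refine (abs_sum_le_sum_abs _ _).trans ?_
  calc ∑ i, |t i ^ 2 / 2 - t' i ^ 2 / 2| ≤ ∑ _i : Fin k, (T0 + 1) * δ := by
        apply sum_le_sum
        intro i _
        have e : t i ^ 2 / 2 - t' i ^ 2 / 2 = ((t i + t' i) / 2) * (t i - t' i) := by ring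
        rw [e, abs_mul]
        apply mul_le_mul _ (h i) (abs_nonneg _) (by linarith)
        have h2 := ht i
        have h3 := h i
        rw [abs_le] at h2 h3 ⊢
        constructor <;> linarith
    _ = _ := by rw [sum_const, card_univ, Fintype.card_fin, nsmul_eq_mul]; ring

theorem det_gauss {k : ℕ} (F : Fin k → ℤ[X]) (hF : Fam F) (R D : ℕ) (hf : Facts F R D) (E W B : ℕ) (T0 ε : ℝ) (hT0 : 0 ≤ T0)
    (hε : 0 < ε) (hε1 : ε ≤ 1 / 2) : ∃ N0 : ℕ, ∀ N : ℕ, N0 ≤ N → ∀ z : ℕ, R ≤ z → Real.log N ^ 3 ≤ z → (z : ℝ) ≤ Real.log N ^ E →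
      ∀ n : ℕ, Even n → (N : ℝ) / Real.log N ^ W ≤ n → n ≤ B * N → |(g n : ℝ) - HL n| ≤ ε * HL n → AG F N z W B n →
      0 < g n ∧ ∀ t : Fin k → ℝ, (∀ i, |t i| ≤ T0) →
      ‖∑ p ∈ Pn n, Complex.exp (Complex.I * (ZZ F n t p : ℂ)) - (g n : ℂ) * ((Real.exp (-∑ i, t i ^ 2 / 2) : ℝ) : ℂ)‖ ≤
        20 * ε * g n := by
  classical
  obtain ⟨N1, h1⟩ := det_char F R D hf E W B (T0 + 1) ε (by linarith) hε hε1
  obtain ⟨N2, h2⟩ := model_limit F hF R D hf E (T0 + 1) ε (by linarith) hε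
  obtain ⟨C3, N3, hC3, h3⟩ := det_wf F R D hf E W B
  obtain ⟨K, N4, hK, h4⟩ := one_prime F E W B T0 hT0
  obtain ⟨N5, h5⟩ := fq_dense (k := k) T0
  obtain ⟨c0, h6⟩ := few_zeros F (fun i => (hF.irr i).ne_zero)
  obtain ⟨N7, h7⟩ := basic W B (8 * (2 * c0 / ε + 1)) ε hε hε1
  obtain ⟨N8, h8⟩ := ev_lam (K * (1 + C3)) ε hε
  obtain ⟨N9, h9⟩ := ev_L' (k * (T0 + 1) / ε + 3)
  obtain ⟨N10, h10⟩ := sizes W B
  refine ⟨max (max (max N1 N2) (max N3 N4)) (max (max (max N5 3) (max N7 N8)) (max N9 N10)),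
    fun N hN z hzR hz3 hzE n hn hnN hnB hgn hAG => ?_⟩
  have hN3 : (3 : ℝ) ≤ N := by exact_mod_cast (by omega : 3 ≤ N)
  have hN0 : (0 : ℝ) < N := by linarith
  obtain ⟨b1, b2, b3, b4, b5, b6, b7, b8, b9, b10⟩ := h7 N (by omega) z hz3 n hn hnN hnB
  obtain ⟨a0, a1, a2⟩ := h8 N (by omega)
  have a9 := h9 N (by omega)
  obtain ⟨s1, s2, s3⟩ := h10 N (by omega) n hnN hnB
  set L := Real.log N with hL
  set lam := Real.log L with hlam
  set σ := √lam with hσ
  have hkT : 0 ≤ k * (T0 + 1) / ε := by positivity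
  have hL3 : 3 ≤ L := by linarith
  have hL0 : 0 < L := by linarith
  have hσ1 : 1 ≤ σ := by rw [hσ, Real.one_le_sqrt]; exact a1
  have hσ0 : 0 < σ := by linarith
  have hlam0 : 0 < lam := by linarith
  have hσ2 : σ * σ = lam := Real.mul_self_sqrt hlam0.le
  have hz3' : 3 ≤ z := by
    have : (3 : ℝ) ≤ z := by
      refine le_trans ?_ hz3
      calc (3 : ℝ) ≤ L := hL3
        _ ≤ L ^ 3 := le_self_pow₀ (by linarith) (by norm_num)
    exact_mod_cast this
  -- the number of partitions is large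
  have hH0 : 0 < HL n := by
    by_contra hcon
    rw [not_lt] at hcon
    have : HL n * Real.log n ≤ 0 := mul_nonpos_of_nonpos_of_nonneg hcon (by linarith)
    linarith
  have hg1 : (1 / 2) * HL n ≤ g n := by
    have h := (abs_le.1 hgn).1
    nlinarith
  have hglarge : 2 * c0 / ε + 1 ≤ g n := by
    have hn1 : (1 : ℝ) ≤ √(n : ℝ) := by
      rw [Real.one_le_sqrt]
      have : (3 : ℝ) ≤ n := by exact_mod_cast b1
      linarith
    have f1 : 8 * (2 * c0 / ε + 1) * L ^ 3 ≤ HL n * Real.log n := by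
      refine le_trans ?_ b10
      have : 0 ≤ 8 * (2 * c0 / ε + 1) * L ^ 3 := by positivity
      nlinarith
    have f2 : HL n * Real.log n ≤ (2 * g n) * (2 * L) := by
      apply mul_le_mul (by linarith) s3 (by linarith) (by positivity)
    have f3 : (8 * (2 * c0 / ε + 1)) * L ≤ 8 * (2 * c0 / ε + 1) * L ^ 3 := by
      apply mul_le_mul_of_nonneg_left _ (by positivity)
      exact le_self_pow₀ (by linarith) (by norm_num)
    have f4 : (8 * (2 * c0 / ε + 1)) * L ≤ (4 * g n) * L := by linarith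
    have f5 := le_of_mul_le_mul_right f4 hL0
    have f6 : 0 ≤ 2 * c0 / ε := by positivity
    linarith
  have hcε : 0 ≤ 2 * c0 / ε := by positivity
  have hg0 : (0 : ℝ) < g n := by linarith
  have hg0' : 0 < g n := by exact_mod_cast hg0
  refine ⟨hg0', fun t ht => ?_⟩
  obtain ⟨u, hu, hut⟩ := h5 N (by omega) t ht
  set t' := fq N u with ht'
  have ht1 : ∀ i, |t' i| ≤ T0 + 1 := by
    intro i
    have g3 : 1 / L ≤ 1 := by rw [div_le_one hL0]; linarith
    have g1 := ht i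
    have g2 := hut i
    rw [abs_le] at g1 g2 ⊢
    constructor <;> linarith
  -- the conditions
  have hu0 : (0 : Fin k → ℤ) ∈ Fqs k N := by
    unfold Fqs
    rw [Fintype.mem_piFinset]
    intro i
    rw [mem_Icc]
    constructor
    · have : (0 : ℤ) ≤ (gN N : ℤ) ^ 3 := by positivity
      simp only [Pi.zero_apply]
      linarith
    · positivity
  have hw5 : (N : ℝ) / L ^ (W + 5) ≤ N / L ^ (W + 3) := by
    apply div_le_div_of_nonneg_left hN0.le (by positivity)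
    exact pow_le_pow_right₀ (by linarith) (by omega)
  have hD1 : ‖Dif z (B * N) n (pr (fun _ => 1))‖ ≤ N / L ^ (W + 3) := by
    have h := hAG.1 0 hu0
    have e : fq N (0 : Fin k → ℤ) = 0 := by
      funext i
      unfold fq
      simp
    rw [e, Fex_zero] at h
    exact h.trans hw5
  have hD2 : ‖Dif z (B * N) n (pr (Fex F N z t'))‖ ≤ N / L ^ (W + 3) := (hAG.1 u hu).trans hw5
  have r1 := h1 N (by omega) z hzR hz3 hzE n hn hnN hnB hgn hD1 t' ht1 hD2
  have r2 := h2 N (by omega) z hz3' hzR hzE t' ht1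
  have r3 := h3 N (by omega) z hzR hz3 hzE n hn hnN hnB (hgn.trans (mul_le_mul_of_nonneg_right hε1 hH0.le)) hAG.2
  have r5 := gauss_dist t t' T0 (1 / L) hT0 (by positivity) (by rw [div_le_one hL0]; linarith) ht hut
  -- notation
  set P := ∏ q ∈ PP z (YN N), (1 + eta F (fun i => t' i / σ) q) with hP
  set e1 := Complex.exp (-(Complex.I * ((∑ i, t' i * σ : ℝ) : ℂ))) with he1
  set Q := ((Real.exp (-∑ i, t i ^ 2 / 2) : ℝ) : ℂ) with hQ
  set Q' := ((Real.exp (-∑ i, t' i ^ 2 / 2) : ℝ) : ℂ) with hQ'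
  have hne1 : ‖e1‖ = 1 := by
    rw [he1, Complex.norm_exp]
    simp
  -- one prime
  have q1 : ∀ p ∈ Pn n, ‖Complex.exp (Complex.I * (ZZ F n t p : ℂ)) - e1 * Fex F N z t' p‖ ≤
      (if ∃ i, (F i).eval (p : ℤ) = 0 then 2 else 0) + K * (1 + min (wf F N z p) (L ^ 2)) / σ := by
    intro p hp
    unfold Pn at hp
    rw [mem_filter, mem_Icc] at hp
    have hwf0 := wf_nonneg F N z p
    have hmin : 0 ≤ min (wf F N z p) (L ^ 2) := le_min hwf0 (by positivity)
    have hpos : 0 ≤ K * (1 + min (wf F N z p) (L ^ 2)) / σ := by positivity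
    split_ifs with hz
    · have : ‖Complex.exp (Complex.I * (ZZ F n t p : ℂ)) - e1 * Fex F N z t' p‖ ≤ 2 := by
        refine (norm_sub_le _ _).trans ?_
        rw [norm_exp_I, norm_mul, hne1, norm_Fex]
        norm_num
      linarith
    · push Not at hz
      rw [zero_add]
      have h := h4 N (by omega) z hzE n hnN hnB p hp.1.1 hp.1.2 hz t t' ht hut
      refine le_trans ?_ h
      have e : e1 * Fex F N z t' p =
          Complex.exp (Complex.I * ((∑ i, t' i / σ * (cntP (F i) (PP z (YN N)) p - lam) : ℝ) : ℂ)) := by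
        rw [he1]
        unfold Fex
        rw [← Complex.exp_add]
        congr 1
        have e2 : (∑ i, t' i / σ * ((cntP (F i) (PP z (YN N)) p : ℝ) - lam)) =
            (∑ i, t' i / σ * (cntP (F i) (PP z (YN N)) p : ℝ)) - ∑ i, t' i * σ := by
          rw [← sum_sub_distrib]
          apply sum_congr rfl
          intro i _
          rw [← hσ2]
          field_simp
        rw [e2]
        push_cast
        ring
      rw [e]
      exact exp_dist _ _
  have q2 : ‖∑ p ∈ Pn n, Complex.exp (Complex.I * (ZZ F n t p : ℂ)) - e1 * ∑ p ∈ Pn n, Fex F N z t' p‖ ≤ 2 * c0 + ε * g n := by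
    rw [mul_sum, ← sum_sub_distrib]
    refine (norm_sum_le _ _).trans ((sum_le_sum q1).trans ?_)
    rw [sum_add_distrib]
    apply add_le_add
    · rw [← sum_filter, sum_const, nsmul_eq_mul]
      have h := h6 (Pn n)
      have h' : (((Pn n).filter (fun p : ℕ => ∃ i, (F i).eval (p : ℤ) = 0)).card : ℝ) ≤ c0 := by exact_mod_cast h
      linarith
    · rw [← sum_div, ← mul_sum, sum_add_distrib, sum_const, nsmul_eq_mul, mul_one, ← card_Pn]
      have f1 : K * ((g n : ℝ) + ∑ p ∈ Pn n, min (wf F N z p) (L ^ 2)) / σ ≤ (K * (1 + C3)) * (1 + Real.log lam) / σ * g n := by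
        rw [div_mul_eq_mul_div]
        apply div_le_div_of_nonneg_right _ hσ0.le
        have hll : 0 ≤ Real.log lam := Real.log_nonneg a1
        have f2 : (g n : ℝ) + ∑ p ∈ Pn n, min (wf F N z p) (L ^ 2) ≤ (1 + C3) * (1 + Real.log lam) * g n := by
          have f3 : 0 ≤ Real.log lam * g n := by positivity
          nlinarith
        calc K * ((g n : ℝ) + ∑ p ∈ Pn n, min (wf F N z p) (L ^ 2)) ≤ K * ((1 + C3) * (1 + Real.log lam) * g n) :=
              mul_le_mul_of_nonneg_left f2 hK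
          _ = _ := by ring
      refine f1.trans ?_
      exact mul_le_mul_of_nonneg_right a2 hg0.le
  -- the total
  have q3 : ‖e1 * (∑ p ∈ Pn n, Fex F N z t' p) - (g n : ℂ) * (e1 * P)‖ ≤ 12 * ε * g n := by
    have e : e1 * (∑ p ∈ Pn n, Fex F N z t' p) - (g n : ℂ) * (e1 * P) = e1 * ((∑ p ∈ Pn n, Fex F N z t' p) - (g n : ℂ) * P) := by ring
    rw [e, norm_mul, hne1, one_mul]
    exact r1
  have q4 : ‖(g n : ℂ) * (e1 * P) - (g n : ℂ) * Q'‖ ≤ g n * ε := by
    rw [← mul_sub, norm_mul, Complex.norm_natCast]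
    exact mul_le_mul_of_nonneg_left r2 hg0.le
  have q5 : ‖(g n : ℂ) * Q' - (g n : ℂ) * Q‖ ≤ g n * ε := by
    rw [← mul_sub, norm_mul, Complex.norm_natCast]
    apply mul_le_mul_of_nonneg_left _ hg0.le
    rw [hQ, hQ', ← Complex.ofReal_sub, Complex.norm_real, Real.norm_eq_abs, abs_sub_comm]
    refine r5.trans ?_
    rw [mul_one_div, div_le_iff₀ hL0]
    have f1 : k * (T0 + 1) / ε ≤ L := by linarith
    rw [div_le_iff₀ hε] at f1
    linarith
  have q6 : 2 * (c0 : ℝ) ≤ ε * g n := by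
    have f1 : 2 * c0 / ε ≤ g n := by linarith
    rw [div_le_iff₀ hε] at f1
    linarith
  have e : ∑ p ∈ Pn n, Complex.exp (Complex.I * (ZZ F n t p : ℂ)) - (g n : ℂ) * Q =
      (∑ p ∈ Pn n, Complex.exp (Complex.I * (ZZ F n t p : ℂ)) - e1 * ∑ p ∈ Pn n, Fex F N z t' p) +
      (e1 * (∑ p ∈ Pn n, Fex F N z t' p) - (g n : ℂ) * (e1 * P)) +
      ((g n : ℂ) * (e1 * P) - (g n : ℂ) * Q') + ((g n : ℂ) * Q' - (g n : ℂ) * Q) := by ring
  rw [e]
  have q7 := (norm_add_le _ _).trans (add_le_add ((norm_add_le _ _).trans (add_le_add ((norm_add_le _ _).trans (add_le_add q2 q3)) q4)) q5)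
  refine q7.trans ?_
  have hεg : 0 ≤ ε * g n := by positivity
  linarith

end Pool.Agent.K4H18.EK
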