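import Pool.Agent.H373R2.T7.TupleMain2
import Pool.Agent.H96R2.EQP.A
import Pool.Agent.K4H18.EK.A1

set_option autoImplicit false

/-! The pure sieve for the differences `n - p`, with `p` in a residue class. -/

namespace Pool.Agent.K4H18.EK

open Finset Pool.Agent.H373R2.T7

/-- local density of the primes `p` with `q ∣ n - p` -/
noncomputable def gd (n q : ℕ) : ℝ := if q ∣ n then 0 else 1 / ((q : ℝ) - 1)

/-- the number of the primes `p ≤ n`, `p ≡ c (mod d)`, such that no element of `T` divides `n - p` -/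
noncomputable def cn (n d c : ℕ) (T : Finset ℕ) : ℝ :=
  (((Icc 1 n).filter (fun p => (p.Prime ∧ p ≡ c [MOD d]) ∧ ∀ q ∈ T, ¬ q ∣ n - p)).card : ℝ)

lemma gd_nonneg {n q : ℕ} (hq : q.Prime) : 0 ≤ gd n q := by
  unfold gd
  have : (2 : ℝ) ≤ q := by exact_mod_cast hq.two_le
  split_ifs
  · exact le_rfl
  · apply div_nonneg zero_le_one; linarith

lemma gd_le {n q : ℕ} (hq : q.Prime) : gd n q ≤ 1 := by
  unfold gd
  have : (2 : ℝ) ≤ q := by exact_mod_cast hq.two_le
  split_ifs
  · exact zero_le_one
  · rw [div_le_one (by linarith)]; linarith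

lemma gd_le' {n q : ℕ} (hq : q.Prime) : gd n q ≤ 2 * (1 / (q : ℝ)) := by
  unfold gd
  have : (2 : ℝ) ≤ q := by exact_mod_cast hq.two_le
  split_ifs
  · positivity
  · rw [mul_one_div, div_le_div_iff₀ (by linarith) (by linarith)]; linarith

lemma pi1_nonneg (n : ℕ) : 0 ≤ H343E.pi1 n := by unfold H343E.pi1; positivity

theorem sieve1 (n z r d c D : ℕ) (hd : 1 ≤ d) (hc : c.Coprime d) (T : Finset ℕ) (hT : T ⊆ pz z)
    (hTd : ∀ q ∈ T, ¬ q ∣ d) (hD : d * (z + 1) ^ r ≤ D) (M : ℕ → ℝ) (hM0 : ∀ q, 0 ≤ M q)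
    (hM : ∀ q a : ℕ, 1 ≤ q → a.Coprime q → q ≤ D → |H343E.piAP n q a - H343E.pi1 n / (Nat.totient q : ℝ)| ≤ M q) :
    |cn n d c T - (H343E.pi1 n / (Nat.totient d : ℝ)) * ∏ q ∈ T, (1 - gd n q)| ≤
      ∑ j ∈ range (r + 1), ∑ S ∈ T.powersetCard j, (M (d * ∏ q ∈ S, q) + 1) +
      2 * (H343E.pi1 n / (Nat.totient d : ℝ)) * es (gd n) T r := by
  classical
  have hTp : ∀ q ∈ T, q.Prime := fun q hq => (mem_pz.1 (hT hq)).2
  have key := sieve_gen' ((Icc 1 n).filter (fun p => p.Prime ∧ p ≡ c [MOD d])) (fun _ => (1 : ℝ))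
    (fun _ _ => zero_le_one) (fun q p => q ∣ n - p) T (gd n)
    (fun q hq => ⟨gd_nonneg (hTp q hq), gd_le (hTp q hq)⟩) (H343E.pi1 n / (Nat.totient d : ℝ))
    (div_nonneg (pi1_nonneg n) (Nat.cast_nonneg _)) (fun S => M (d * ∏ q ∈ S, q) + 1) r (by
      intro S hS hr
      have hSp : ∀ q ∈ S, q.Prime := fun q hq => hTp q (hS hq)
      rw [sum_const, nsmul_eq_mul, mul_one, filter_filter]
      by_cases hdiv : ∃ q ∈ S, q ∣ n
      · obtain ⟨q, hq, hqn⟩ := hdiv
        have h0 : ∏ q ∈ S, gd n q = 0 := prod_eq_zero hq (by unfold gd; rw [if_pos hqn])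
        rw [h0, mul_zero, sub_zero, abs_of_nonneg (Nat.cast_nonneg _)]
        have h1 : ((Icc 1 n).filter (fun p => (p.Prime ∧ p ≡ c [MOD d]) ∧ ∀ q ∈ S, q ∣ n - p)).card ≤ 1 := by
          rw [card_le_one]
          intro a ha b hb
          rw [mem_filter, mem_Icc] at ha hb
          have h2 : q ∣ a := by
            have := ha.2.2 q hq
            have h3 := Nat.dvd_sub hqn this
            rwa [Nat.sub_sub_self ha.1.2] at h3
          have h3 : q ∣ b := by
            have := hb.2.2 q hq
            have h3 := Nat.dvd_sub hqn this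
            rwa [Nat.sub_sub_self hb.1.2] at h3
          rw [← (Nat.prime_dvd_prime_iff_eq (hSp q hq) ha.2.1.1).1 h2,
            ← (Nat.prime_dvd_prime_iff_eq (hSp q hq) hb.2.1.1).1 h3]
        have h4 : (((Icc 1 n).filter (fun p => (p.Prime ∧ p ≡ c [MOD d]) ∧ ∀ q ∈ S, q ∣ n - p)).card : ℝ) ≤ 1 := by
          exact_mod_cast h1
        have := hM0 (d * ∏ q ∈ S, q)
        linarith
      · push Not at hdiv
        set e := ∏ q ∈ S, q with he
        have he1 : 1 ≤ e := Nat.pos_of_ne_zero (prod_ne_zero_iff.2 fun q hq => (hSp q hq).ne_zero)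
        have hde : d.Coprime e := by
          refine Nat.Coprime.prod_right fun q hq => ?_
          exact Nat.Coprime.symm ((Nat.Prime.coprime_iff_not_dvd (hSp q hq)).2 (hTd q (hS hq)))
        have hne : n.Coprime e := by
          refine Nat.Coprime.prod_right fun q hq => ?_
          exact Nat.Coprime.symm ((Nat.Prime.coprime_iff_not_dvd (hSp q hq)).2 (hdiv q hq))
        obtain ⟨k, hk1, hk2⟩ := Nat.chineseRemainder hde c n
        have hkd : k.Coprime d := by
          have := hk1.gcd_eq
          unfold Nat.Coprime at hc ⊢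
          rw [this]; exact hc
        have hke : k.Coprime e := by
          have := hk2.gcd_eq
          unfold Nat.Coprime at hne ⊢
          rw [this]; exact hne
        have hele : e ≤ (z + 1) ^ r := prod_le_pow S z r (hS.trans hT) hr
        have h1 := hM (d * e) k (Nat.mul_pos hd he1) (Nat.Coprime.mul_right hkd hke)
          ((Nat.mul_le_mul_left d hele).trans hD)
        have h2 : ((Icc 1 n).filter (fun p => (p.Prime ∧ p ≡ c [MOD d]) ∧ ∀ q ∈ S, q ∣ n - p)) =
            (Icc 1 n).filter (fun p => p.Prime ∧ p ≡ k [MOD (d * e)]) := by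
          apply filter_congr
          intro p hp
          rw [mem_Icc] at hp
          rw [← Nat.modEq_and_modEq_iff_modEq_mul hde]
          have h3 : (∀ q ∈ S, q ∣ n - p) ↔ p ≡ k [MOD e] := by
            rw [prod_dvd_iff S hSp (n - p), ← he, ← Nat.modEq_iff_dvd' hp.2]
            constructor
            · intro h; exact h.trans hk2.symm
            · intro h; exact h.trans hk2
          rw [h3]
          constructor
          · rintro ⟨⟨a, b⟩, c'⟩
            exact ⟨a, b.trans hk1.symm, c'⟩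
          · rintro ⟨a, b, c'⟩
            exact ⟨⟨a, b.trans hk1⟩, c'⟩
        have h3 : H343E.pi1 n / (Nat.totient d : ℝ) * ∏ q ∈ S, gd n q = H343E.pi1 n / (Nat.totient (d * e) : ℝ) := by
          rw [Nat.totient_mul hde, he, totient_prod S hSp]
          have h4 : ∏ q ∈ S, gd n q = 1 / ((∏ q ∈ S, (q - 1) : ℕ) : ℝ) := by
            rw [Nat.cast_prod, one_div, ← prod_inv_distrib]
            apply prod_congr rfl
            intro q hq
            unfold gd
            rw [if_neg (hdiv q hq), Nat.cast_sub (hSp q hq).one_le, one_div]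
            push_cast
            rfl
          rw [h4]
          push_cast
          rw [div_mul_div_comm, mul_one]
        rw [h2, h3]
        unfold H343E.piAP at h1
        linarith)
  refine le_trans (le_of_eq ?_) key
  congr 1
  unfold cn
  rw [sum_const, nsmul_eq_mul, mul_one, filter_filter]

end Pool.Agent.K4H18.EK
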