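import Mathlib

set_option autoImplicit false

/-! From the characteristic functions of finite families of vectors to the joint distribution functions. -/

namespace Pool.Agent.K4H18.EK

open Finset MeasureTheory ProbabilityTheory Filter Topology WithLp

/-- the standard normal distribution function -/
noncomputable def Ph (x : ℝ) : ℝ := cdf (gaussianReal 0 1) x

/-- the box below `c` -/
def Bx {k : ℕ} (c : Fin k → ℝ) : Set (EuclideanSpace ℝ (Fin k)) := {x | ∀ i, x i ≤ c i}

lemma Bx_closed {k : ℕ} (c : Fin k → ℝ) : IsClosed (Bx c) := by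
  unfold Bx
  simp only [Set.setOf_forall]
  apply isClosed_iInter
  intro i
  apply isClosed_le (by fun_prop) continuous_const

lemma std_pre {k : ℕ} (s : Fin k → Set ℝ) (hs : ∀ i, MeasurableSet (s i)) :
    (stdGaussian (EuclideanSpace ℝ (Fin k))) {x | ∀ i, x i ∈ s i} = ∏ i, gaussianReal 0 1 (s i) := by
  rw [← map_pi_eq_stdGaussian, Measure.map_apply (by fun_prop)]
  · have e : (toLp 2 ⁻¹' {x : EuclideanSpace ℝ (Fin k) | ∀ i, x i ∈ s i}) = Set.pi Set.univ s := by
      ext x
      simp
    rw [e, Measure.pi_pi]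
  · simp only [Set.setOf_forall]
    apply MeasurableSet.iInter
    intro i
    exact (hs i).preimage (by fun_prop)

lemma std_Bx {k : ℕ} (c : Fin k → ℝ) : (stdGaussian (EuclideanSpace ℝ (Fin k))).real (Bx c) = ∏ i, Ph (c i) := by
  have h := std_pre (fun i => Set.Iic (c i)) (fun i => measurableSet_Iic)
  rw [measureReal_def]
  have e : Bx c = {x : EuclideanSpace ℝ (Fin k) | ∀ i, x i ∈ Set.Iic (c i)} := rfl
  rw [e, h, ENNReal.toReal_prod]
  apply prod_congr rfl
  intro i _
  unfold Ph
  rw [cdf_eq_real, measureReal_def]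

lemma std_frontier {k : ℕ} (c : Fin k → ℝ) : (stdGaussian (EuclideanSpace ℝ (Fin k))) (frontier (Bx c)) = 0 := by
  have h1 : frontier (Bx c) ⊆ ⋃ i, {x : EuclideanSpace ℝ (Fin k) | x i = c i} := by
    intro x hx
    rw [(Bx_closed c).frontier_eq] at hx
    by_contra hcon
    rw [Set.mem_iUnion] at hcon
    push Not at hcon
    apply hx.2
    rw [mem_interior]
    refine ⟨{y | ∀ i, y i < c i}, ?_, ?_, ?_⟩
    · intro y hy i
      exact (hy i).le
    · simp only [Set.setOf_forall]
      apply isOpen_iInter_of_finite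
      intro i
      apply isOpen_lt (by fun_prop) continuous_const
    · intro i
      have h2 : x i ≤ c i := hx.1 i
      exact lt_of_le_of_ne h2 (hcon i)
  apply measure_mono_null h1
  rw [measure_iUnion_null_iff]
  intro i
  have h3 := std_pre (fun j => if j = i then ({c i} : Set ℝ) else Set.univ) (fun j => by
    split_ifs
    · exact measurableSet_singleton _
    · exact MeasurableSet.univ)
  have e : {x : EuclideanSpace ℝ (Fin k) | x i = c i} =
      {x : EuclideanSpace ℝ (Fin k) | ∀ j, x j ∈ (fun j => if j = i then ({c i} : Set ℝ) else Set.univ) j} := by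
    ext x
    simp only [Set.mem_setOf_eq]
    constructor
    · intro h j
      by_cases hj : j = i
      · rw [if_pos hj, hj, h]; rfl
      · rw [if_neg hj]; trivial
    · intro h
      have := h i
      rw [if_pos rfl] at this
      exact this
  rw [e, h3]
  apply prod_eq_zero (mem_univ i)
  simp only [if_pos]
  haveI := noAtoms_gaussianReal (μ := 0) (v := 1) one_ne_zero
  exact measure_singleton _

/-- pointwise convergence -/
theorem levy_point {k : ℕ} (P : ℕ → Finset ℕ) (hP : ∀ K, (P K).Nonempty) (Z : ℕ → ℕ → Fin k → ℝ)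
    (h : ∀ t : Fin k → ℝ, Tendsto (fun K => (∑ p ∈ P K, Complex.exp (Complex.I * ((∑ i, t i * Z K p i : ℝ) : ℂ))) /
      ((P K).card : ℂ)) atTop (𝓝 ((Real.exp (-∑ i, t i ^ 2 / 2) : ℝ) : ℂ))) (c : Fin k → ℝ) :
    Tendsto (fun K => (((P K).filter (fun p => ∀ i, Z K p i ≤ c i)).card : ℝ) / ((P K).card : ℝ)) atTop
      (𝓝 (∏ i, Ph (c i))) := by
  classical
  set μ : ℕ → Measure (EuclideanSpace ℝ (Fin k)) := fun n => ((P n).card : ENNReal)⁻¹ •
    ∑ a ∈ P n, Measure.dirac (toLp 2 (Z n a)) with hμ
  have hc0 : ∀ n, ((P n).card : ENNReal) ≠ 0 := fun n => by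
    exact_mod_cast (Finset.card_pos.mpr (hP n)).ne'
  have hcT : ∀ n, ((P n).card : ENNReal) ≠ ⊤ := fun n => ENNReal.natCast_ne_top _
  haveI hprob : ∀ n, IsProbabilityMeasure (μ n) := by
    intro n
    constructor
    rw [hμ, Measure.smul_apply, Measure.finsetSum_apply]
    simp only [measure_univ, Finset.sum_const, smul_eq_mul, nsmul_eq_mul, mul_one]
    exact ENNReal.inv_mul_cancel (hc0 n) (hcT n)
  have hchar : ∀ n (t : EuclideanSpace ℝ (Fin k)), charFun (μ n) t =
      (∑ p ∈ P n, Complex.exp (Complex.I * ((∑ i, t i * Z n p i : ℝ) : ℂ))) / ((P n).card : ℂ) := by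
    intro n t
    rw [charFun_apply, hμ, integral_smul_measure, integral_finsetSum_measure]
    · simp only [integral_dirac]
      rw [ENNReal.toReal_inv, ENNReal.toReal_natCast, div_eq_inv_mul, Complex.real_smul]
      push_cast
      congr 1
      apply sum_congr rfl
      intro p _
      congr 1
      rw [PiLp.inner_apply]
      push_cast
      rw [mul_comm, mul_sum, mul_sum]
      apply sum_congr rfl
      intro i _
      simp
    · intro a _
      exact integrable_dirac (by simp)
  have hreal : ∀ n, (μ n).real (Bx c) =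
      (((P n).filter (fun p => ∀ i, Z n p i ≤ c i)).card : ℝ) / ((P n).card : ℝ) := by
    intro n
    rw [measureReal_def, hμ, Measure.smul_apply, Measure.finsetSum_apply, smul_eq_mul,
      ENNReal.toReal_mul, ENNReal.toReal_inv, ENNReal.toReal_natCast, div_eq_inv_mul]
    congr 1
    have : ∑ a ∈ P n, (Measure.dirac (toLp 2 (Z n a))) (Bx c) =
        (((P n).filter (fun p => ∀ i, Z n p i ≤ c i)).card : ENNReal) := by
      rw [Finset.card_filter]
      push_cast
      apply Finset.sum_congr rfl
      intro a _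
      rw [Measure.dirac_apply' _ (Bx_closed c).measurableSet]
      by_cases hx : ∀ i, Z n a i ≤ c i
      · rw [Set.indicator_of_mem (show toLp 2 (Z n a) ∈ Bx c from hx), if_pos hx]; rfl
      · rw [Set.indicator_of_notMem (show toLp 2 (Z n a) ∉ Bx c from hx), if_neg hx]
    rw [this, ENNReal.toReal_natCast]
  set G : ProbabilityMeasure (EuclideanSpace ℝ (Fin k)) := ⟨stdGaussian (EuclideanSpace ℝ (Fin k)), inferInstance⟩ with hG
  set Mu : ℕ → ProbabilityMeasure (EuclideanSpace ℝ (Fin k)) := fun n => ⟨μ n, hprob n⟩ with hMu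
  have hlim : Tendsto Mu atTop (𝓝 G) := by
    rw [ProbabilityMeasure.tendsto_iff_tendsto_charFun]
    intro t
    change Tendsto (fun n => charFun (μ n) t) atTop (𝓝 (charFun (stdGaussian (EuclideanSpace ℝ (Fin k))) t))
    rw [charFun_stdGaussian]
    simp only [hchar]
    have e : Complex.exp (-((‖t‖ : ℝ) : ℂ) ^ 2 / 2) = ((Real.exp (-∑ i, t i ^ 2 / 2) : ℝ) : ℂ) := by
      rw [← Complex.ofReal_pow, EuclideanSpace.real_norm_sq_eq]
      push_cast
      congr 1
      rw [← sum_div]
      ring
    rw [e]
    exact h t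
  have h1 := ProbabilityMeasure.tendsto_measure_of_null_frontier_of_tendsto' hlim (std_frontier c)
  have h2 := (ENNReal.tendsto_toReal (measure_ne_top (G : Measure (EuclideanSpace ℝ (Fin k))) (Bx c))).comp h1
  have h3 : ((G : Measure (EuclideanSpace ℝ (Fin k))) (Bx c)).toReal = ∏ i, Ph (c i) := std_Bx c
  rw [h3] at h2
  refine h2.congr fun n => ?_
  rw [← hreal n]
  rfl

end Pool.Agent.K4H18.EK
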