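import Pool.Agent.K4H18.EK.A19
import Pool.Agent.K4H18.EK.A21

set_option autoImplicit false

/-! The joint Gaussian law over the partitions of almost all members of a family of small energy. -/

namespace Pool.Agent.K4H18.EK

open Finset Polynomial
open Pool.Agent.H373R2.T7 (pz mem_pz Vz Vz_pos Vz_inv_small ev_L')
open Pool.Agent.H560R3.GB (energy g HL sing)

/-- the number of the frequencies -/
lemma card_Fqs (k : ℕ) : ∃ N0 : ℕ, ∀ N : ℕ, N0 ≤ N → ((Fqs k N).card : ℝ) + 1 ≤ Real.log N ^ (4 * k + 1) := by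
  obtain ⟨N1, h1⟩ := ev_L' 17
  refine ⟨max N1 3, fun N hN => ?_⟩
  have a1 := h1 N (by omega)
  set L := Real.log N with hL
  have hL0 : 0 < L := by linarith
  have hg : (gN N : ℝ) ≤ 2 * L := by
    have := Nat.ceil_lt_add_one hL0.le
    unfold gN
    rw [← hL]
    linarith
  have hcard : ((Fqs k N).card : ℝ) = (2 * (gN N : ℝ) ^ 3 + 1) ^ k := by
    unfold Fqs
    rw [Fintype.card_piFinset, prod_const, card_univ, Fintype.card_fin, Int.card_Icc]
    have e : ((gN N : ℤ) ^ 3 + 1 - -(gN N : ℤ) ^ 3).toNat = 2 * gN N ^ 3 + 1 := by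
      have : (gN N : ℤ) ^ 3 + 1 - -(gN N : ℤ) ^ 3 = ((2 * gN N ^ 3 + 1 : ℕ) : ℤ) := by push_cast; ring
      rw [this, Int.toNat_natCast]
    rw [e]
    push_cast
    rfl
  have h2 : 2 * (gN N : ℝ) ^ 3 + 1 ≤ L ^ 4 := by
    have h3 : (gN N : ℝ) ^ 3 ≤ (2 * L) ^ 3 := pow_le_pow_left₀ (Nat.cast_nonneg _) hg 3
    have h4 : (2 * L) ^ 3 = 8 * L ^ 3 := by ring
    have h5 : (1 : ℝ) ≤ L ^ 3 := one_le_pow₀ (by linarith)
    have h6 : L ^ 4 = L * L ^ 3 := by ring
    nlinarith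
  have h3 : ((Fqs k N).card : ℝ) ≤ L ^ (4 * k) := by
    rw [hcard, pow_mul]
    exact pow_le_pow_left₀ (by positivity) h2 k
  have h4 : (1 : ℝ) ≤ L ^ (4 * k) := one_le_pow₀ (by linarith)
  rw [pow_succ]
  nlinarith

/-- the number of the partitions `n = p + q` for which the values at `p` have few prime factors -/
noncomputable def GC {k : ℕ} (F : Fin k → ℤ[X]) (n : ℕ) (t : Fin k → ℝ) : ℝ :=
  bc (Pn n) (fun p i => (om (F i) p - Real.log (Real.log n)) / √(Real.log (Real.log n))) t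

/-- the Gaussian law for the partitions of `n` -/
def Gauss {k : ℕ} (F : Fin k → ℤ[X]) (ε : ℝ) (n : ℕ) : Prop :=
  ∀ t : Fin k → ℝ, |GC F n t - g n * ∏ i, Ph (t i)| ≤ ε * g n

theorem fam_gauss {k : ℕ} (F : Fin k → ℤ[X]) (hF : Fam F) (h B C U : ℕ) (hh : 1 ≤ h) (ε : ℝ) (hε : 0 < ε) :
    ∃ N₀ : ℕ, ∀ N : ℕ, N₀ ≤ N → ∀ (x : ℕ) (s : ℕ → ℕ), (∀ m ∈ Icc 1 x, s m ≤ B * N ∧ Even (s m)) →
      (energy h x s : ℝ) * N ≤ Real.log N ^ C * (x : ℝ) ^ (2 * h) →
      ∀ S : Finset ℕ, S ⊆ Icc 1 x → (∀ m ∈ S, ¬ (Pool.Agent.W93.GB.Good ε (s m) ∧ Gauss F ε (s m) ∧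
        1 ≤ Real.log (Real.log (s m)))) →
      (S.card : ℝ) ≤ x / Real.log N ^ U := by
  classical
  obtain ⟨R, D, hf⟩ := exists_facts F hF
  obtain ⟨T0, δ, hT0, hδ, hlevy⟩ := levy_uniform k ε hε
  set ε' : ℝ := min ε (min (1 / 2) (δ / 20)) with hε'
  have hε'0 : 0 < ε' := by
    rw [hε', lt_min_iff, lt_min_iff]
    exact ⟨hε, by norm_num, by positivity⟩
  have hε'1 : ε' ≤ ε := min_le_left _ _
  have hε'2 : ε' ≤ 1 / 2 := (min_le_right _ _).trans (min_le_left _ _)
  have hε'3 : 20 * ε' ≤ δ := by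
    have : ε' ≤ δ / 20 := (min_le_right _ _).trans (min_le_right _ _)
    linarith
  set W : ℕ := C + 1 + 2 * h * (U + 2) with hW
  obtain ⟨N1, h1⟩ := few_small h C (U + 2) hh
  obtain ⟨N2, h2⟩ := Pool.Agent.W93.GB.fam h B C (U + 2) hh ε' hε'0
  obtain ⟨B0, hB0⟩ := few_bad h B C (U + 2) (W + 5) (4 * k + 1)
  set B1 := max B0 3 with hB1
  obtain ⟨N3, h3⟩ := hB0 (B1 + 1)
  obtain ⟨N4, h4⟩ := det_gauss F hF R D hf (B1 + 1) W B T0 ε' hT0 hε'0 hε'2
  obtain ⟨N5, h5⟩ := card_Fqs k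
  obtain ⟨N6, h6⟩ := ev_L' (R + 3)
  obtain ⟨N7, h7⟩ := lam_near W B
  refine ⟨max (max (max N1 N2) (max N3 N4)) (max (max N5 N6) (max N7 3)), fun N hN x s hs hE S hSx hS => ?_⟩
  have hN3 : (3 : ℝ) ≤ N := by exact_mod_cast (by omega : 3 ≤ N)
  have a6 := h6 N (by omega)
  set L := Real.log N with hL
  have hR0 : (0 : ℝ) ≤ R := Nat.cast_nonneg _
  have hL3 : 3 ≤ L := by linarith
  have hL1 : 1 ≤ L := by linarith
  have hL0 : 0 < L := by linarith
  -- the parameter `z`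
  set z := ⌈L ^ B1⌉₊ with hz
  have hzlo : L ^ B1 ≤ z := Nat.le_ceil _
  have hL1B : 1 ≤ L ^ B1 := one_le_pow₀ hL1
  have hzhi : (z : ℝ) ≤ L ^ (B1 + 1) := by
    have := Nat.ceil_lt_add_one (show 0 ≤ L ^ B1 by positivity)
    calc (z : ℝ) ≤ L ^ B1 + 1 := this.le
      _ ≤ L ^ B1 + L ^ B1 := by linarith
      _ = 2 * L ^ B1 := by ring
      _ ≤ L * L ^ B1 := mul_le_mul_of_nonneg_right (by linarith) (by positivity)
      _ = L ^ (B1 + 1) := by ring
  have hzB0 : L ^ B0 ≤ z := (pow_le_pow_right₀ hL1 (le_max_left _ _)).trans hzlo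
  have hz3 : L ^ 3 ≤ z := (pow_le_pow_right₀ hL1 (le_max_right _ _)).trans hzlo
  have hzR : R ≤ z := by
    have : (R : ℝ) ≤ z := by
      refine le_trans ?_ hz3
      calc (R : ℝ) ≤ L := by linarith
        _ ≤ L ^ 3 := le_self_pow₀ hL1 (by norm_num)
    exact_mod_cast this
  -- the three parts of the exceptional set
  set S1 := S.filter (fun m => (s m : ℝ) < N / L ^ W) with hS1
  set S2 := S.filter (fun m => ¬ Pool.Agent.W93.GB.Good ε' (s m)) with hS2
  set S3 := S.filter (fun m => ¬ AG F N z W B (s m)) with hS3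
  have hcover : S ⊆ (S1 ∪ S2) ∪ S3 := by
    intro m hm
    rw [mem_union, mem_union, hS1, hS2, hS3, mem_filter, mem_filter, mem_filter]
    by_contra hcon
    push Not at hcon
    obtain ⟨⟨g1, g2⟩, g3⟩ := hcon
    have g1' := g1 hm
    have g2' := g2 hm
    have g3' := g3 hm
    apply hS m hm
    obtain ⟨hsB, hsE⟩ := hs m (hSx hm)
    obtain ⟨l1, l2, l3⟩ := h7 N (by omega) (s m) g1' hsB
    obtain ⟨c1, c2⟩ := h4 N (by omega) z hzR hz3 hzhi (s m) hsE g1' hsB g2'.1 g3'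
    have hHL : 0 ≤ HL (s m) := by
      have := g2'.1
      by_contra hcon
      rw [not_le] at hcon
      have h8 : ε' * HL (s m) < 0 := mul_neg_of_pos_of_neg hε'0 hcon
      have h9 := abs_nonneg ((g (s m) : ℝ) - HL (s m))
      linarith
    refine ⟨⟨g2'.1.trans (mul_le_mul_of_nonneg_right hε'1 hHL), g2'.2⟩, ?_, l1⟩
    intro t
    have hne : (Pn (s m)).Nonempty := by
      rw [← card_pos, ← card_Pn]
      exact c1
    have h8 := hlevy (Pn (s m)) (fun p i => (om (F i) p - Real.log (Real.log (s m))) / √(Real.log (Real.log (s m)))) hne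
      (fun u hu => by
        have h9 := c2 u hu
        rw [card_Pn] at h9
        refine h9.trans ?_
        exact mul_le_mul_of_nonneg_right hε'3 (Nat.cast_nonneg _)) t
    rw [← card_Pn] at h8
    exact h8
  have r1 : (S1.card : ℝ) ≤ x / L ^ (U + 2) := by
    apply h1 N (by omega) x s hE S1 ((filter_subset _ _).trans hSx)
    intro m hm
    rw [hS1, mem_filter] at hm
    exact hm.2
  have r2 : (S2.card : ℝ) ≤ x / L ^ (U + 2) := by
    apply h2 N (by omega) x s (fun m hm => ⟨(hs m hm).1, (hs m hm).2.two_dvd⟩) hE S2 ((filter_subset _ _).trans hSx)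
    intro m hm
    rw [hS2, mem_filter] at hm
    exact hm.2
  have r3 : (S3.card : ℝ) ≤ x / L ^ (U + 2) := by
    refine h3 N (by omega) x s (fun m hm => (hs m hm).1) hE z hzB0 hzhi (ι := Option (Fin k → ℤ)) (Finset.insertNone (Fqs k N))
      (fun o => match o with
        | none => pr (wG F N z)
        | some u => pr (Fex F N z (fq N u))) ?_ ?_ S3 ((filter_subset _ _).trans hSx) ?_
    · rw [Finset.card_insertNone]
      push_cast
      exact h5 N (by omega)
    · intro o _ b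
      cases o with
      | none => exact norm_pr _ (fun b => norm_wG F N z b (by omega)) b
      | some u => exact norm_pr _ (fun b => (norm_Fex F N z _ b).le) b
    · intro m hm
      rw [hS3, mem_filter] at hm
      have h8 := hm.2
      unfold AG at h8
      rw [not_and_or] at h8
      rcases h8 with h8 | h8
      · push Not at h8
        obtain ⟨u, hu, h9⟩ := h8
        exact ⟨some u, by rw [Finset.some_mem_insertNone]; exact hu, h9⟩
      · rw [not_le] at h8
        exact ⟨none, Finset.none_mem_insertNone, h8⟩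
  have r4 : (S.card : ℝ) ≤ 3 * (x / L ^ (U + 2)) := by
    have f1 := card_le_card hcover
    have f2 := card_union_le (S1 ∪ S2) S3
    have f3 := card_union_le S1 S2
    have f4 : (S.card : ℝ) ≤ S1.card + S2.card + S3.card := by exact_mod_cast (by omega : S.card ≤ S1.card + S2.card + S3.card)
    linarith
  refine r4.trans ?_
  have hx0 : (0 : ℝ) ≤ x := Nat.cast_nonneg _
  rw [pow_add, ← mul_div_assoc, div_le_div_iff₀ (by positivity) (by positivity)]
  have h9 : (3 : ℝ) ≤ L ^ 2 := by nlinarith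
  calc 3 * (x : ℝ) * L ^ U ≤ L ^ 2 * x * L ^ U := by gcongr
    _ = _ := by ring

end Pool.Agent.K4H18.EK
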