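import Pool.Agent.K4H18.EK.A2

set_option autoImplicit false

/-! Products of local functions over the sieved primes. -/

namespace Pool.Agent.K4H18.EK

open Finset Pool.Agent.H373R2.T7

/-- the sieve error -/
noncomputable def Err (n z r : ℕ) (M : ℕ → ℝ) (d : ℕ) : ℝ :=
  ∑ j ∈ range (r + 1), ∑ S ∈ (pz z).powersetCard j, (M (d * ∏ q ∈ S, q) + 1) +
      2 * (H343E.pi1 n / (Nat.totient d : ℝ)) * es (gd n) (pz z) r

/-- the primes `p ≤ n` such that `n - p` has no prime factor `≤ z` -/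
def Ps (n z : ℕ) : Finset ℕ := (Icc 1 n).filter (fun p => p.Prime ∧ ∀ q ∈ pz z, ¬ q ∣ n - p)

/-- the product of the local densities -/
noncomputable def Wn (n z : ℕ) : ℝ := ∏ q ∈ pz z, (1 - gd n q)

lemma Wn_nonneg (n z : ℕ) : 0 ≤ Wn n z :=
  prod_nonneg fun q hq => by have := gd_le (n := n) (mem_pz.1 hq).2; linarith

lemma Wn_le_one (n z : ℕ) : Wn n z ≤ 1 :=
  prod_le_one (fun q hq => by have := gd_le (n := n) (mem_pz.1 hq).2; linarith)
    (fun q hq => by have := gd_nonneg (n := n) (mem_pz.1 hq).2; linarith)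

/-- the Bombieri-Vinogradov majorant for `n` up to the level `D` -/
def Maj (n D : ℕ) (M : ℕ → ℝ) : Prop := (∀ q, 0 ≤ M q) ∧
  ∀ q a : ℕ, 1 ≤ q → a.Coprime q → q ≤ D → |H343E.piAP n q a - H343E.pi1 n / (Nat.totient q : ℝ)| ≤ M q

lemma Err_nonneg (n z r d : ℕ) (M : ℕ → ℝ) (hM : ∀ q, 0 ≤ M q) : 0 ≤ Err n z r M d := by
  unfold Err
  have h1 := pi1_nonneg n
  have h2 : 0 ≤ es (gd n) (pz z) r := es_nonneg (fun p hp => gd_nonneg (mem_pz.1 hp).2) r
  have h3 : 0 ≤ ∑ j ∈ range (r + 1), ∑ S ∈ (pz z).powersetCard j, (M (d * ∏ q ∈ S, q) + 1) :=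
    sum_nonneg fun _ _ => sum_nonneg fun _ _ => by have := hM (d * ∏ q ∈ (by assumption : Finset ℕ), q); linarith
  positivity

theorem loc_sum (n z r D : ℕ) (S : Finset ℕ) (hS : ∀ q ∈ S, q.Prime ∧ z < q)
    (hD : (∏ q ∈ S, q) * (z + 1) ^ r ≤ D) (M : ℕ → ℝ) (hM : Maj n D M) (h : ℕ → ℕ → ℂ)
    (h0 : ∀ q ∈ S, h q 0 = 0) :
    ‖∑ p ∈ Ps n z, ∏ q ∈ S, h q (p % q) -
      ((H343E.pi1 n * Wn n z : ℝ) : ℂ) * ∏ q ∈ S, ((∑ b ∈ range q, h q b) / ((q : ℂ) - 1))‖ ≤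
      (∏ q ∈ S, ∑ b ∈ range q, ‖h q b‖) * Err n z r M (∏ q ∈ S, q) := by
  classical
  set d := ∏ q ∈ S, q with hd
  have hSp : ∀ q ∈ S, q.Prime := fun q hq => (hS q hq).1
  have hd1 : 1 ≤ d := Nat.pos_of_ne_zero (prod_ne_zero_iff.2 fun q hq => (hSp q hq).ne_zero)
  have hqd : ∀ q ∈ S, q ∣ d := fun q hq => dvd_prod_of_mem _ hq
  have hpd : ∀ q ∈ pz z, ¬ q ∣ d := by
    intro q hq hqd'
    obtain ⟨q', hq', hdv⟩ := (Prime.dvd_finset_prod_iff (mem_pz.1 hq).2.prime _).1 hqd'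
    have := (Nat.prime_dvd_prime_iff_eq (mem_pz.1 hq).2 (hSp q' hq')).1 hdv
    have h1 := (hS q' hq').2
    have h2 := (mem_pz.1 hq).1
    omega
  set G : ℕ → ℂ := fun c => ∏ q ∈ S, h q (c % q) with hG
  have e1 : ∑ p ∈ Ps n z, ∏ q ∈ S, h q (p % q) = ∑ c ∈ range d, G c * (cn n d c (pz z) : ℂ) := by
    rw [← sum_fiberwise_of_maps_to (t := range d) (g := fun p => p % d)
      (fun p _ => mem_range.2 (Nat.mod_lt _ hd1))]
    apply sum_congr rfl
    intro c hc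
    rw [mem_range] at hc
    have e2 : ∀ p ∈ (Ps n z).filter (fun p => p % d = c), ∏ q ∈ S, h q (p % q) = G c := by
      intro p hp
      rw [mem_filter] at hp
      rw [hG]
      simp only
      apply prod_congr rfl
      intro q hq
      rw [← hp.2, Nat.mod_mod_of_dvd p (hqd q hq)]
    rw [sum_congr rfl e2, sum_const, nsmul_eq_mul, mul_comm]
    congr 1
    unfold cn Ps
    rw [filter_filter]
    norm_cast
    congr 1
    apply filter_congr
    intro p _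
    unfold Nat.ModEq
    rw [Nat.mod_eq_of_lt hc]
    tauto
  have e3 : ((H343E.pi1 n * Wn n z : ℝ) : ℂ) * ∏ q ∈ S, ((∑ b ∈ range q, h q b) / ((q : ℂ) - 1)) =
      ∑ c ∈ range d, G c * (((H343E.pi1 n / (Nat.totient d : ℝ)) * Wn n z : ℝ) : ℂ) := by
    rw [← sum_mul, prod_div_distrib, ← crt_sum h S hSp, ← hd]
    have h4 : ((Nat.totient d : ℝ) : ℂ) = ∏ q ∈ S, ((q : ℂ) - 1) := by
      rw [hd, totient_prod S hSp]
      push_cast
      apply prod_congr rfl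
      intro q hq
      rw [Nat.cast_sub (hSp q hq).one_le]
      push_cast
      rfl
    rw [← h4]
    push_cast
    ring
  rw [e1, e3, ← sum_sub_distrib]
  have e5 : ∏ q ∈ S, ∑ b ∈ range q, ‖h q b‖ = ∑ c ∈ range d, ‖G c‖ := by
    rw [← crt_sum (fun q b => ‖h q b‖) S hSp]
    apply sum_congr rfl
    intro c _
    rw [hG, norm_prod]
  rw [e5, sum_mul]
  refine (norm_sum_le _ _).trans (sum_le_sum fun c hc => ?_)
  rw [← mul_sub, norm_mul]
  by_cases hcop : c.Coprime d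
  · apply mul_le_mul_of_nonneg_left _ (norm_nonneg _)
    have e6 : ((cn n d c (pz z) : ℝ) : ℂ) - (((H343E.pi1 n / (Nat.totient d : ℝ)) * Wn n z : ℝ) : ℂ) =
        ((cn n d c (pz z) - (H343E.pi1 n / (Nat.totient d : ℝ)) * Wn n z : ℝ) : ℂ) := by push_cast; ring
    rw [e6, Complex.norm_real, Real.norm_eq_abs]
    exact sieve1 n z r d c D hd1 hcop (pz z) (Subset.refl _) hpd hD M hM.1 hM.2
  · have hG0 : G c = 0 := by
      obtain ⟨p, hp, hpc, hpd'⟩ := Nat.Prime.not_coprime_iff_dvd.1 hcop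
      obtain ⟨q, hq, hdv⟩ := (Prime.dvd_finset_prod_iff hp.prime _).1 hpd'
      have hpq := (Nat.prime_dvd_prime_iff_eq hp (hSp q hq)).1 hdv
      rw [hG]
      apply prod_eq_zero hq
      rw [← hpq, Nat.mod_eq_zero_of_dvd hpc, hpq]
      exact h0 q hq
    rw [hG0, norm_zero, zero_mul, zero_mul]

/-- sums over the small subsets -/
lemma sum_levels {R : Type*} [AddCommMonoid R] (P : Finset ℕ) (m : ℕ) (f : Finset ℕ → R) :
    ∑ j ∈ range (m + 1), ∑ S ∈ P.powersetCard j, f S = ∑ S ∈ P.powerset.filter (fun S => S.card ≤ m), f S := by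
  classical
  rw [← sum_fiberwise_of_maps_to (t := range (m + 1)) (g := fun S : Finset ℕ => S.card)]
  · apply sum_congr rfl
    intro j hj
    rw [mem_range] at hj
    apply sum_congr _ (fun _ _ => rfl)
    ext S
    rw [mem_powersetCard, mem_filter, mem_filter, mem_powerset]
    constructor
    · rintro ⟨a, b⟩
      exact ⟨⟨a, by omega⟩, b⟩
    · rintro ⟨⟨a, _⟩, b⟩
      exact ⟨a, b⟩
  · intro S hS
    rw [mem_filter] at hS
    rw [mem_range]
    omega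

/-- the expansion of the product -/
theorem expand (n z r m D : ℕ) (P : Finset ℕ) (hP : ∀ q ∈ P, q.Prime ∧ z < q)
    (hD : ∀ S ⊆ P, S.card ≤ m → (∏ q ∈ S, q) * (z + 1) ^ r ≤ D) (M : ℕ → ℝ) (hM : Maj n D M) (h : ℕ → ℕ → ℂ)
    (h0 : ∀ q ∈ P, h q 0 = 0) (h1 : ∀ q ∈ P, ∀ b, ‖1 + h q b‖ ≤ 1) :
    ‖∑ p ∈ Ps n z, ∏ q ∈ P, (1 + h q (p % q)) -
      ((H343E.pi1 n * Wn n z : ℝ) : ℂ) * ∏ q ∈ P, (1 + (∑ b ∈ range q, h q b) / ((q : ℂ) - 1))‖ ≤
      2 * (H343E.pi1 n * Wn n z) * esy (fun q => (∑ b ∈ range q, ‖h q b‖) / ((q : ℝ) - 1)) P m +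
      ∑ j ∈ range (m + 1), ∑ S ∈ P.powersetCard j, (∏ q ∈ S, ∑ b ∈ range q, ‖h q b‖) * Err n z r M (∏ q ∈ S, q) := by
  classical
  have hX : 0 ≤ H343E.pi1 n * Wn n z := mul_nonneg (pi1_nonneg n) (Wn_nonneg n z)
  set η : ℕ → ℂ := fun q => (∑ b ∈ range q, h q b) / ((q : ℂ) - 1) with hη
  set a : ℕ → ℝ := fun q => (∑ b ∈ range q, ‖h q b‖) / ((q : ℝ) - 1) with ha
  have hq1 : ∀ q ∈ P, (1 : ℝ) ≤ (q : ℝ) - 1 := by
    intro q hq
    have : (2 : ℝ) ≤ q := by exact_mod_cast (hP q hq).1.two_le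
    linarith
  have hnorm : ∀ q ∈ P, ‖(q : ℂ) - 1‖ = (q : ℝ) - 1 := by
    intro q hq
    have e : (q : ℂ) - 1 = (((q : ℝ) - 1 : ℝ) : ℂ) := by push_cast; rfl
    rw [e, Complex.norm_real, Real.norm_eq_abs, abs_of_nonneg (by have := hq1 q hq; linarith)]
  have hηa : ∀ q ∈ P, ‖η q‖ ≤ a q := by
    intro q hq
    rw [hη, ha]
    simp only
    rw [norm_div, hnorm q hq]
    apply div_le_div_of_nonneg_right (norm_sum_le _ _)
    have := hq1 q hq; linarith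
  have h2 : ∀ q ∈ P, ‖1 + η q‖ ≤ 1 := by
    intro q hq
    have hq0 : (0 : ℝ) < (q : ℝ) - 1 := by have := hq1 q hq; linarith
    have hqc : ((q : ℂ) - 1) ≠ 0 := by
      intro h
      have := hnorm q hq
      rw [h, norm_zero] at this
      linarith
    have hpos : 0 < q := (hP q hq).1.pos
    have e : 1 + η q = (∑ b ∈ Ico 1 q, (1 + h q b)) / ((q : ℂ) - 1) := by
      rw [hη]
      simp only
      rw [sum_add_distrib, range_eq_Ico, sum_eq_sum_Ico_succ_bot hpos, h0 q hq, zero_add, sum_const, Nat.card_Ico,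
        nsmul_eq_mul, mul_one, Nat.cast_sub (hP q hq).1.one_le]
      push_cast
      rw [add_div, div_self hqc]
    rw [e, norm_div, hnorm q hq, div_le_one hq0]
    refine (norm_sum_le _ _).trans ((sum_le_sum fun b _ => h1 q hq b).trans ?_)
    rw [sum_const, Nat.card_Ico, nsmul_eq_mul, mul_one, Nat.cast_sub (hP q hq).1.one_le]
    push_cast
    exact le_rfl
  -- the truncation of the product over primes
  have t1 : ‖∑ p ∈ Ps n z, ∏ q ∈ P, (1 + h q (p % q)) -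
      ∑ p ∈ Ps n z, ∑ j ∈ range m, esy (fun q => h q (p % q)) P j‖ ≤
      ∑ p ∈ Ps n z, esy (fun q => ‖h q (p % q)‖) P m := by
    rw [← sum_sub_distrib]
    refine (norm_sum_le _ _).trans (sum_le_sum fun p _ => ?_)
    exact trunc_prod (fun q => h q (p % q)) P (fun q hq => h1 q hq _) m
  have t2 : ∑ p ∈ Ps n z, esy (fun q => ‖h q (p % q)‖) P m ≤
      (H343E.pi1 n * Wn n z) * esy a P m +
        ∑ S ∈ P.powersetCard m, (∏ q ∈ S, ∑ b ∈ range q, ‖h q b‖) * Err n z r M (∏ q ∈ S, q) := by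
    unfold esy
    rw [sum_comm, mul_sum, ← sum_add_distrib]
    apply sum_le_sum
    intro S hS
    rw [mem_powersetCard] at hS
    have key := loc_sum n z r D S (fun q hq => hP q (hS.1 hq)) (hD S hS.1 hS.2.le) M hM
      (fun q b => ((‖h q b‖ : ℝ) : ℂ)) (fun q hq => by rw [h0 q (hS.1 hq), norm_zero, Complex.ofReal_zero])
    have e1 : ∑ p ∈ Ps n z, ∏ q ∈ S, ((‖h q (p % q)‖ : ℝ) : ℂ) = ((∑ p ∈ Ps n z, ∏ q ∈ S, ‖h q (p % q)‖ : ℝ) : ℂ) := by
      push_cast; rfl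
    have e2 : ((H343E.pi1 n * Wn n z : ℝ) : ℂ) * ∏ q ∈ S, ((∑ b ∈ range q, ((‖h q b‖ : ℝ) : ℂ)) / ((q : ℂ) - 1)) =
        (((H343E.pi1 n * Wn n z) * ∏ q ∈ S, a q : ℝ) : ℂ) := by
      rw [ha]
      push_cast
      rfl
    have e3 : ∀ q, ∑ b ∈ range q, ‖((‖h q b‖ : ℝ) : ℂ)‖ = ∑ b ∈ range q, ‖h q b‖ := by
      intro q
      apply sum_congr rfl
      intro b _
      rw [Complex.norm_real, norm_norm]
    rw [e1, e2, ← Complex.ofReal_sub, Complex.norm_real, Real.norm_eq_abs] at key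
    simp only [e3] at key
    have := (abs_le.1 key).2
    linarith
  -- the truncation of the model
  have t3 : ‖∏ q ∈ P, (1 + η q) - ∑ j ∈ range m, esy η P j‖ ≤ esy a P m := by
    refine (trunc_prod η P h2 m).trans ?_
    unfold esy
    apply sum_le_sum
    intro S hS
    rw [mem_powersetCard] at hS
    exact prod_le_prod (fun _ _ => norm_nonneg _) (fun q hq => hηa q (hS.1 hq))
  -- the comparison of the truncated sums
  have t4 : ‖∑ p ∈ Ps n z, ∑ j ∈ range m, esy (fun q => h q (p % q)) P j -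
      ((H343E.pi1 n * Wn n z : ℝ) : ℂ) * ∑ j ∈ range m, esy η P j‖ ≤
      ∑ j ∈ range m, ∑ S ∈ P.powersetCard j, (∏ q ∈ S, ∑ b ∈ range q, ‖h q b‖) * Err n z r M (∏ q ∈ S, q) := by
    rw [sum_comm, mul_sum, ← sum_sub_distrib]
    refine (norm_sum_le _ _).trans (sum_le_sum fun j hj => ?_)
    unfold esy
    rw [sum_comm, mul_sum, ← sum_sub_distrib]
    refine (norm_sum_le _ _).trans (sum_le_sum fun S hS => ?_)
    rw [mem_powersetCard] at hS
    rw [mem_range] at hj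
    exact loc_sum n z r D S (fun q hq => hP q (hS.1 hq)) (hD S hS.1 (by omega)) M hM h (fun q hq => h0 q (hS.1 hq))
  have e : ∑ p ∈ Ps n z, ∏ q ∈ P, (1 + h q (p % q)) - ((H343E.pi1 n * Wn n z : ℝ) : ℂ) * ∏ q ∈ P, (1 + η q) =
      (∑ p ∈ Ps n z, ∏ q ∈ P, (1 + h q (p % q)) - ∑ p ∈ Ps n z, ∑ j ∈ range m, esy (fun q => h q (p % q)) P j) +
      (∑ p ∈ Ps n z, ∑ j ∈ range m, esy (fun q => h q (p % q)) P j -
        ((H343E.pi1 n * Wn n z : ℝ) : ℂ) * ∑ j ∈ range m, esy η P j) -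
      ((H343E.pi1 n * Wn n z : ℝ) : ℂ) * (∏ q ∈ P, (1 + η q) - ∑ j ∈ range m, esy η P j) := by ring
  rw [e]
  have t5 : ‖((H343E.pi1 n * Wn n z : ℝ) : ℂ) * (∏ q ∈ P, (1 + η q) - ∑ j ∈ range m, esy η P j)‖ ≤
      (H343E.pi1 n * Wn n z) * esy a P m := by
    rw [norm_mul, Complex.norm_real, Real.norm_eq_abs, abs_of_nonneg hX]
    exact mul_le_mul_of_nonneg_left t3 hX
  refine (norm_sub_le _ _).trans ?_
  refine (add_le_add ((norm_add_le _ _).trans (add_le_add (t1.trans t2) t4)) t5).trans ?_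
  rw [sum_range_succ]
  linarith

end Pool.Agent.K4H18.EK
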