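import Pool.Agent.K4H18.EK.A5
import Pool.Agent.H474R2.GE.FA

set_option autoImplicit false

/-! The local functions attached to polynomials. -/

namespace Pool.Agent.K4H18.EK

open Finset Polynomial
open Pool.Agent.H373R2.T7 (pz mem_pz)
open Pool.Agent.H474R2.PG (rho)

/-- irreducible polynomials of positive degree, not associated to `X`, pairwise not associated -/
structure Fam {k : ℕ} (F : Fin k → ℤ[X]) : Prop where
  irr : ∀ i, Irreducible (F i)
  deg : ∀ i, 0 < (F i).natDegree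
  neX : ∀ i, ¬ Associated (F i) X
  nass : ∀ i j, i ≠ j → ¬ Associated (F i) (F j)

/-- Bezout over the integers -/
theorem bezout_int {f g : ℤ[X]}
    (h : IsCoprime (f.map (Int.castRingHom ℚ)) (g.map (Int.castRingHom ℚ))) :
    ∃ (u v : ℤ[X]) (R : ℤ), R ≠ 0 ∧ u * f + v * g = C R := by
  obtain ⟨a, b, hab⟩ := h
  have hinj : Function.Injective (Int.castRingHom ℚ) := (Int.castRingHom ℚ).injective_int
  obtain ⟨c, hcm, hc⟩ := IsLocalization.integerNormalization_spec (nonZeroDivisors ℤ) a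
  obtain ⟨d, hdm, hd⟩ := IsLocalization.integerNormalization_spec (nonZeroDivisors ℤ) b
  refine ⟨C d * IsLocalization.integerNormalization (nonZeroDivisors ℤ) a,
    C c * IsLocalization.integerNormalization (nonZeroDivisors ℤ) b, c * d,
    mul_ne_zero (nonZeroDivisors.ne_zero hcm) (nonZeroDivisors.ne_zero hdm), ?_⟩
  apply Polynomial.map_injective _ hinj
  have e : (algebraMap ℤ ℚ) = Int.castRingHom ℚ := rfl
  rw [e] at hc hd
  simp only [Polynomial.map_add, Polynomial.map_mul, Polynomial.map_C, hc, hd]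
  have h1 : ∀ (x : ℤ) (p : ℚ[X]), x • p = C ((Int.castRingHom ℚ) x) * p := by
    intro x p
    rw [zsmul_eq_mul]
    simp
  rw [h1, h1]
  have h2 : (C ((Int.castRingHom ℚ) (c * d)) : ℚ[X]) =
      C ((Int.castRingHom ℚ) c) * C ((Int.castRingHom ℚ) d) * (a * f.map (Int.castRingHom ℚ) +
        b * g.map (Int.castRingHom ℚ)) := by
    rw [hab, mul_one, map_mul, C_mul]
  rw [h2]
  ring

lemma coprime_of_irr {f g : ℤ[X]} (hf : Irreducible f) (hg : Irreducible g) (hdf : 0 < f.natDegree)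
    (hdg : 0 < g.natDegree) (h : ¬ Associated f g) :
    IsCoprime (f.map (Int.castRingHom ℚ)) (g.map (Int.castRingHom ℚ)) := by
  have hpf : f.IsPrimitive := hf.isPrimitive hdf.ne'
  have hpg : g.IsPrimitive := hg.isPrimitive hdg.ne'
  have hif : Irreducible (f.map (Int.castRingHom ℚ)) :=
    (IsPrimitive.Int.irreducible_iff_irreducible_map_cast hpf).1 hf
  rw [hif.coprime_iff_not_dvd]
  intro hdvd
  have h1 : f ∣ g := (IsPrimitive.Int.dvd_iff_map_cast_dvd_map_cast f g hpf).2 hdvd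
  exact h (hf.associated_of_dvd hg h1)

lemma eval_zero_ne {f : ℤ[X]} (hf : Irreducible f) (h : ¬ Associated f X) : f.eval 0 ≠ 0 := by
  intro h0
  have h1 : X ∣ f := by
    rw [X_dvd_iff, coeff_zero_eq_eval_zero]
    exact h0
  exact h ((irreducible_X.associated_of_dvd hf h1).symm)

/-- the arithmetic facts about a family of polynomials -/
lemma poly_facts {k : ℕ} (F : Fin k → ℤ[X]) (hF : Fam F) : ∃ R D : ℕ, 1 ≤ D ∧
    (∀ q : ℕ, q.Prime → R < q → (∀ i, ¬ (q : ℤ) ∣ (F i).eval 0) ∧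
      ∀ i j, i ≠ j → ∀ b : ℤ, ¬ ((q : ℤ) ∣ (F i).eval b ∧ (q : ℤ) ∣ (F j).eval b)) ∧
    ∀ q : ℕ, q.Prime → ∀ i, rho (F i) q ≤ D := by
  classical
  -- the resultants
  have h1 : ∀ i j, ∃ R : ℤ, R ≠ 0 ∧ (i ≠ j → ∃ u v : ℤ[X], u * F i + v * F j = C R) := by
    intro i j
    by_cases hij : i = j
    · exact ⟨1, one_ne_zero, fun h => absurd hij h⟩
    · obtain ⟨u, v, R, hR, h⟩ := bezout_int (coprime_of_irr (hF.irr i) (hF.irr j) (hF.deg i) (hF.deg j) (hF.nass i j hij))
      exact ⟨R, hR, fun _ => ⟨u, v, h⟩⟩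
  choose R hR0 hR using h1
  have h2 : ∀ i, ∃ B : ℕ, ∀ p : ℕ, p.Prime → B < p → rho (F i) p ≤ (F i).natDegree :=
    fun i => Pool.Agent.H474R2.PG.rho_le (F i) (hF.irr i).ne_zero
  choose B hB using h2
  have hsmall : ∀ (x : ℤ) (q : ℕ), x ≠ 0 → x.natAbs < q → ¬ (q : ℤ) ∣ x := by
    intro x q hx hxq hd
    have h1 := Int.natAbs_dvd_natAbs.mpr hd
    rw [Int.natAbs_natCast] at h1
    exact absurd (Nat.le_of_dvd (Int.natAbs_pos.mpr hx) h1) (by omega)
  refine ⟨∑ i, ((F i).eval 0).natAbs + ∑ i, ∑ j, (R i j).natAbs, ∑ i, (B i + (F i).natDegree) + 1, by omega, ?_, ?_⟩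
  · intro q hq hRq
    constructor
    · intro i
      apply hsmall _ _ (eval_zero_ne (hF.irr i) (hF.neX i))
      have := single_le_sum (f := fun i => ((F i).eval 0).natAbs) (s := univ) (fun _ _ => Nat.zero_le _) (mem_univ i)
      omega
    · intro i j hij b hb
      obtain ⟨u, v, huv⟩ := hR i j hij
      have h3 : (q : ℤ) ∣ R i j := by
        have := congrArg (Polynomial.eval b) huv
        rw [eval_add, eval_mul, eval_mul, eval_C] at this
        rw [← this]
        exact dvd_add (hb.1.mul_left _) (hb.2.mul_left _)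
      refine hsmall _ _ (hR0 i j) ?_ h3
      have a1 := single_le_sum (f := fun j => (R i j).natAbs) (s := univ) (fun _ _ => Nat.zero_le _) (mem_univ j)
      have a2 := single_le_sum (f := fun i => ∑ j, (R i j).natAbs) (s := univ) (fun _ _ => Nat.zero_le _) (mem_univ i)
      omega
  · intro q hq i
    have a1 := single_le_sum (f := fun i => (B i + (F i).natDegree)) (s := univ) (fun _ _ => Nat.zero_le _) (mem_univ i)
    rcases Nat.lt_or_ge (B i) q with h | h
    · have := hB i q hq h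
      omega
    · have := Pool.Agent.H474R2.PG.rho_le_self (F i) q
      omega

/-- the number of the `q ∈ P` which divide `f(p)` -/
def cntP (f : ℤ[X]) (P : Finset ℕ) (p : ℕ) : ℕ := (P.filter (fun q : ℕ => (q : ℤ) ∣ f.eval (p : ℤ))).card

/-- the local function -/
noncomputable def hh {k : ℕ} (F : Fin k → ℤ[X]) (θ : Fin k → ℝ) (q b : ℕ) : ℂ :=
  ∑ i, if (q : ℤ) ∣ (F i).eval (b : ℤ) then Complex.exp (Complex.I * θ i) - 1 else 0

lemma dvd_eval_mod (f : ℤ[X]) (p q : ℕ) : (q : ℤ) ∣ f.eval ((p % q : ℕ) : ℤ) ↔ (q : ℤ) ∣ f.eval (p : ℤ) := by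
  have h1 : (q : ℤ) ∣ (p : ℤ) - ((p % q : ℕ) : ℤ) := by
    push_cast
    exact Int.dvd_self_sub_emod
  have h2 : (q : ℤ) ∣ f.eval (p : ℤ) - f.eval ((p % q : ℕ) : ℤ) := h1.trans (sub_dvd_eval_sub _ _ _)
  constructor
  · intro h
    have := dvd_add h2 h
    rwa [sub_add_cancel] at this
  · intro h
    have := dvd_sub h h2
    rwa [sub_sub_cancel] at this

lemma hh_mod {k : ℕ} (F : Fin k → ℤ[X]) (θ : Fin k → ℝ) (q p : ℕ) : hh F θ q (p % q) = hh F θ q p := by
  unfold hh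
  apply sum_congr rfl
  intro i _
  simp only [dvd_eval_mod]

lemma norm_exp_sub_one_le (x : ℝ) : ‖Complex.exp (Complex.I * x) - 1‖ ≤ |x| := by
  have := Real.norm_exp_I_mul_ofReal_sub_one_le (x := x)
  rwa [Real.norm_eq_abs] at this

/-- the local function is a value of the exponential function -/
lemma one_add_hh {k : ℕ} (F : Fin k → ℤ[X]) (θ : Fin k → ℝ) (q b : ℕ)
    (h : ∀ i j, i ≠ j → ¬ ((q : ℤ) ∣ (F i).eval (b : ℤ) ∧ (q : ℤ) ∣ (F j).eval (b : ℤ))) :
    1 + hh F θ q b = Complex.exp (Complex.I * (∑ i, if (q : ℤ) ∣ (F i).eval (b : ℤ) then θ i else 0 : ℝ)) := by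
  classical
  unfold hh
  by_cases hex : ∃ i, (q : ℤ) ∣ (F i).eval (b : ℤ)
  · obtain ⟨i, hi⟩ := hex
    have h1 : ∀ j, j ≠ i → ¬ (q : ℤ) ∣ (F j).eval (b : ℤ) := fun j hj hd => h i j hj.symm ⟨hi, hd⟩
    rw [sum_eq_single i (fun j _ hj => if_neg (h1 j hj)) (fun h => absurd (mem_univ i) h), if_pos hi,
      sum_eq_single i (fun j _ hj => if_neg (h1 j hj)) (fun h => absurd (mem_univ i) h), if_pos hi]
    ring
  · push Not at hex
    rw [sum_eq_zero (fun i _ => if_neg (hex i)), sum_eq_zero (fun i _ => if_neg (hex i))]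
    simp

lemma norm_exp_I (x : ℝ) : ‖Complex.exp (Complex.I * x)‖ = 1 := by
  rw [mul_comm]
  exact Complex.norm_exp_ofReal_mul_I x

/-- the product of the local functions -/
lemma prod_hh {k : ℕ} (F : Fin k → ℤ[X]) (θ : Fin k → ℝ) (P : Finset ℕ) (p : ℕ)
    (h : ∀ q ∈ P, ∀ i j, i ≠ j → ¬ ((q : ℤ) ∣ (F i).eval (p : ℤ) ∧ (q : ℤ) ∣ (F j).eval (p : ℤ))) :
    ∏ q ∈ P, (1 + hh F θ q (p % q)) = Complex.exp (Complex.I * (∑ i, θ i * cntP (F i) P p : ℝ)) := by
  classical
  have h1 : ∀ q ∈ P, 1 + hh F θ q (p % q) = Complex.exp (Complex.I * (∑ i, if (q : ℤ) ∣ (F i).eval (p : ℤ) then θ i else 0 : ℝ)) := by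
    intro q hq
    rw [hh_mod]
    exact one_add_hh F θ q p (h q hq)
  rw [prod_congr rfl h1, ← Complex.exp_sum]
  congr 1
  rw [← mul_sum]
  congr 1
  rw [← Complex.ofReal_sum]
  congr 1
  rw [sum_comm]
  apply sum_congr rfl
  intro i _
  unfold cntP
  rw [← sum_filter, sum_const, nsmul_eq_mul, mul_comm]

lemma sum_hh {k : ℕ} (F : Fin k → ℤ[X]) (θ : Fin k → ℝ) (q : ℕ) :
    ∑ b ∈ range q, hh F θ q b = ∑ i, (Complex.exp (Complex.I * θ i) - 1) * (rho (F i) q : ℂ) := by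
  classical
  unfold hh
  rw [sum_comm]
  apply sum_congr rfl
  intro i _
  rw [← sum_filter, sum_const, nsmul_eq_mul, mul_comm]
  rfl

lemma sum_norm_hh {k : ℕ} (F : Fin k → ℤ[X]) (θ : Fin k → ℝ) (q D : ℕ) (hD : ∀ i, rho (F i) q ≤ D) :
    ∑ b ∈ range q, ‖hh F θ q b‖ ≤ D * ∑ i, |θ i| := by
  classical
  calc ∑ b ∈ range q, ‖hh F θ q b‖ ≤ ∑ b ∈ range q, ∑ i, (if (q : ℤ) ∣ (F i).eval (b : ℤ) then |θ i| else 0) := by
        apply sum_le_sum
        intro b _
        unfold hh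
        refine (norm_sum_le _ _).trans (sum_le_sum fun i _ => ?_)
        split_ifs
        · exact norm_exp_sub_one_le _
        · rw [norm_zero]
    _ = ∑ i, |θ i| * (rho (F i) q : ℝ) := by
        rw [sum_comm]
        apply sum_congr rfl
        intro i _
        rw [← sum_filter, sum_const, nsmul_eq_mul, mul_comm]
        rfl
    _ ≤ ∑ i, |θ i| * D := by
        apply sum_le_sum
        intro i _
        apply mul_le_mul_of_nonneg_left _ (abs_nonneg _)
        exact_mod_cast hD i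
    _ = _ := by rw [← sum_mul, mul_comm]

end Pool.Agent.K4H18.EK
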