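import Pool.Agent.K4H18.EK.A6

set_option autoImplicit false

/-! The characteristic function of the model. -/

namespace Pool.Agent.K4H18.EK

open Finset Polynomial
open Pool.Agent.H373R2.T7 (pz mem_pz)
open Pool.Agent.H474R2.PG (rho)

/-- the length of the expansion -/
noncomputable def mN (N : ℕ) : ℕ := ⌈Real.log (Real.log N)⌉₊

/-- the bound for the primes of the truncated additive function -/
noncomputable def YN (N : ℕ) : ℕ := ⌊(N : ℝ) ^ ((1 : ℝ) / (8 * (mN N)))⌋₊

/-- the primes in `(z, Y]` -/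
def PP (z Y : ℕ) : Finset ℕ := (Ioc z Y).filter Nat.Prime

/-- eventually, for functions of `log log N` -/
lemma ev_lam (C ε : ℝ) (hε : 0 < ε) : ∃ N0 : ℕ, ∀ N : ℕ, N0 ≤ N → C ≤ Real.log (Real.log N) ∧ 1 ≤ Real.log (Real.log N) ∧
    C * (1 + Real.log (Real.log (Real.log N))) / √(Real.log (Real.log N)) ≤ ε := by
  have hlim : Filter.Tendsto (fun N : ℕ => Real.log (Real.log (N : ℝ))) Filter.atTop Filter.atTop :=
    Real.tendsto_log_atTop.comp (Real.tendsto_log_atTop.comp (tendsto_natCast_atTop_atTop (R := ℝ)))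
  have h1 : ∀ᶠ x : ℝ in Filter.atTop, C * (1 + Real.log x) / √x ≤ ε := by
    have a1 := (isLittleO_log_rpow_atTop (show (0 : ℝ) < 1 / 2 by norm_num)).bound
      (show 0 < ε / (2 * (|C| + 1)) by positivity)
    have a2 : ∀ᶠ x : ℝ in Filter.atTop, (2 * (|C| + 1) / ε) ^ 2 ≤ x := Filter.eventually_ge_atTop _
    filter_upwards [a1, a2, Filter.eventually_ge_atTop 1] with x b1 b2 b3
    have hx0 : 0 < x := by linarith
    have hs0 : 0 < √x := Real.sqrt_pos.2 hx0
    have hl : 0 ≤ Real.log x := Real.log_nonneg b3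
    rw [← Real.sqrt_eq_rpow, Real.norm_of_nonneg hl, Real.norm_of_nonneg hs0.le] at b1
    have b4 : 2 * (|C| + 1) / ε ≤ √x := Real.le_sqrt_of_sq_le b2
    rw [div_le_iff₀ hs0]
    have hC0 : 0 < |C| + 1 := by positivity
    have b5 : (|C| + 1) * Real.log x ≤ ε / 2 * √x := by
      calc (|C| + 1) * Real.log x ≤ (|C| + 1) * (ε / (2 * (|C| + 1)) * √x) := mul_le_mul_of_nonneg_left b1 hC0.le
        _ = ε / 2 * √x := by field_simp
    have b6 : (|C| + 1) ≤ ε / 2 * √x := by
      rw [div_le_iff₀ hε] at b4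
      linarith
    calc C * (1 + Real.log x) ≤ (|C| + 1) * (1 + Real.log x) :=
          mul_le_mul_of_nonneg_right ((le_abs_self C).trans (by linarith)) (by linarith)
      _ = (|C| + 1) + (|C| + 1) * Real.log x := by ring
      _ ≤ ε * √x := by linarith
  obtain ⟨N0, h⟩ := Filter.eventually_atTop.1 (hlim.eventually ((Filter.eventually_ge_atTop C).and
    ((Filter.eventually_ge_atTop 1).and h1)))
  exact ⟨N0, fun N hN => ⟨(h N hN).1, (h N hN).2.1, (h N hN).2.2⟩⟩

/-- sizes of the parameters -/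
lemma par_sizes (C : ℝ) : ∃ N0 : ℕ, ∀ N : ℕ, N0 ≤ N → 1 ≤ mN N ∧ (mN N : ℝ) ≤ 2 * Real.log (Real.log N) ∧
    (YN N : ℝ) ^ (mN N) ≤ (N : ℝ) ^ (1 / 8 : ℝ) ∧ (YN N : ℝ) ≤ (N : ℝ) ^ (1 / 8 : ℝ) ∧
    C ≤ Real.log (YN N) ∧ Real.log (Real.log N) - Real.log (Real.log (Real.log N)) - 4 ≤ Real.log (Real.log (YN N)) := by
  obtain ⟨N1, h1⟩ := ev_lam 1 1 one_pos
  -- `32 λ (|C| + 1) ≤ L`
  have hlim : Filter.Tendsto (fun N : ℕ => Real.log (N : ℝ)) Filter.atTop Filter.atTop :=
    Real.tendsto_log_atTop.comp (tendsto_natCast_atTop_atTop (R := ℝ))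
  have h2 : ∀ᶠ N : ℕ in Filter.atTop, (32 * (|C| + 1)) * Real.log (Real.log N) ≤ Real.log N := by
    have h3 := (Real.isLittleO_log_id_atTop).bound (show (0 : ℝ) < 1 / (32 * (|C| + 1)) by positivity)
    have h4 := hlim.eventually h3
    filter_upwards [h4, hlim.eventually_ge_atTop 1] with N h5 h6
    simp only [id] at h5
    have h7 : 0 ≤ Real.log (Real.log N) := Real.log_nonneg h6
    rw [Real.norm_of_nonneg h7, Real.norm_of_nonneg (by linarith), div_mul_eq_mul_div, one_mul, le_div_iff₀ (by positivity)] at h5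
    linarith
  obtain ⟨N2, h2⟩ := Filter.eventually_atTop.1 h2
  refine ⟨max (max N1 N2) 3, fun N hN => ?_⟩
  obtain ⟨-, a1, -⟩ := h1 N (by omega)
  have a2 := h2 N (by omega)
  have hN3 : (3 : ℝ) ≤ N := by exact_mod_cast (by omega : 3 ≤ N)
  have hN0 : (0 : ℝ) < N := by linarith
  have hN1 : (1 : ℝ) ≤ N := by linarith
  set L := Real.log N with hL
  set lam := Real.log L with hlam
  have hCC : 0 ≤ |C| := abs_nonneg C
  have hL0 : 0 < L := by nlinarith
  set m := mN N with hm
  have hm1 : 1 ≤ m := by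
    rw [hm]
    unfold mN
    exact Nat.one_le_iff_ne_zero.2 (Nat.ceil_pos.2 (by linarith)).ne'
  have hm1r : (1 : ℝ) ≤ m := by exact_mod_cast hm1
  have hm2 : (m : ℝ) ≤ 2 * lam := by
    have : (m : ℝ) < lam + 1 := by
      rw [hm]
      unfold mN
      exact Nat.ceil_lt_add_one (by linarith)
    linarith
  set a : ℝ := (1 : ℝ) / (8 * m) with ha
  have ha0 : 0 < a := by positivity
  have hY1 : (YN N : ℝ) ≤ (N : ℝ) ^ a := Nat.floor_le (by positivity)
  have hNa1 : 1 ≤ (N : ℝ) ^ a := Real.one_le_rpow hN1 ha0.le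
  have hY2 : (N : ℝ) ^ a / 2 ≤ YN N := by
    have h5 := Nat.lt_floor_add_one ((N : ℝ) ^ a)
    have h6 : (1 : ℝ) ≤ YN N := by
      have : 1 ≤ ⌊(N : ℝ) ^ a⌋₊ := Nat.le_floor (by push_cast; exact hNa1)
      exact_mod_cast this
    have h7 : (N : ℝ) ^ a < (YN N : ℝ) + 1 := h5
    linarith
  have hYpos : (0 : ℝ) < YN N := by linarith
  have hlogY : a * L / 2 ≤ Real.log (YN N) := by
    have h5 := Real.log_le_log (by positivity) hY2
    rw [Real.log_div (by positivity) (by norm_num), Real.log_rpow hN0] at h5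
    have h6 : Real.log 2 ≤ a * L / 2 := by
      have h7 : a * L = L / (8 * m) := by rw [ha]; ring
      rw [h7]
      have h8 : 2 ≤ L / (8 * m) := by
        rw [le_div_iff₀ (by positivity)]
        nlinarith
      have := Real.log_two_lt_d9
      linarith
    linarith
  have haL : a * L / 2 = L / (16 * m) := by rw [ha]; field_simp; norm_num
  refine ⟨hm1, hm2, ?_, ?_, ?_, ?_⟩
  · calc (YN N : ℝ) ^ m ≤ ((N : ℝ) ^ a) ^ m := pow_le_pow_left₀ (Nat.cast_nonneg _) hY1 m
      _ = (N : ℝ) ^ (1 / 8 : ℝ) := by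
          rw [← Real.rpow_natCast, ← Real.rpow_mul hN0.le]
          congr 1
          rw [ha]
          field_simp
  · refine hY1.trans (Real.rpow_le_rpow_of_exponent_le hN1 ?_)
    rw [ha]
    apply one_div_le_one_div_of_le (by norm_num)
    linarith
  · refine (le_abs_self C).trans (le_trans ?_ hlogY)
    rw [haL, le_div_iff₀ (by positivity)]
    nlinarith
  · have h5 : Real.log (L / (16 * m)) ≤ Real.log (Real.log (YN N)) := by
      apply Real.log_le_log (by positivity)
      rw [← haL]; exact hlogY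
    refine le_trans ?_ h5
    rw [Real.log_div hL0.ne' (by positivity), Real.log_mul (by norm_num) (by positivity)]
    have h6 : Real.log m ≤ Real.log 2 + Real.log lam := by
      rw [← Real.log_mul (by norm_num) (by linarith)]
      exact Real.log_le_log (by linarith) hm2
    have h7 : Real.log 16 = 4 * Real.log 2 := by
      rw [show (16 : ℝ) = 2 ^ 4 by norm_num, Real.log_pow]; norm_num
    have h8 := Real.log_two_lt_d9
    rw [h7]
    linarith

end Pool.Agent.K4H18.EK
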