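import Pool.Agent.K4H18.EK.A7

set_option autoImplicit false

/-! The characteristic function of the model: the limit. -/

namespace Pool.Agent.K4H18.EK

open Finset Polynomial
open Pool.Agent.H373R2.T7 (pz mem_pz)
open Pool.Agent.H474R2.PG (rho PR Sg)

lemma mem_PP {z Y q : ℕ} : q ∈ PP z Y ↔ z < q ∧ q ≤ Y ∧ q.Prime := by
  unfold PP
  rw [mem_filter, mem_Ioc]
  tauto

lemma sum_inv_sq_PP (z Y : ℕ) : ∑ q ∈ PP z Y, 1 / ((q : ℝ) - 1) ^ 2 ≤ 8 := by
  calc ∑ q ∈ PP z Y, 1 / ((q : ℝ) - 1) ^ 2 ≤ ∑ q ∈ PP z Y, 4 * ((q : ℝ) ^ 2)⁻¹ := by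
        apply sum_le_sum
        intro q hq
        have : (2 : ℝ) ≤ q := by exact_mod_cast (mem_PP.1 hq).2.2.two_le
        have h1 : 0 < (q : ℝ) - 1 := by linarith
        rw [← div_eq_mul_inv, div_le_div_iff₀ (by positivity) (by positivity)]
        nlinarith
    _ ≤ ∑ q ∈ Ioo 0 (Y + 1), 4 * ((q : ℝ) ^ 2)⁻¹ := by
        apply sum_le_sum_of_subset_of_nonneg
        · intro q hq
          have h := mem_PP.1 hq
          rw [mem_Ioo]
          exact ⟨h.2.2.pos, by omega⟩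
        · intro q _ _
          positivity
    _ = 4 * ∑ q ∈ Ioo 0 (Y + 1), ((q : ℝ) ^ 2)⁻¹ := by rw [mul_sum]
    _ ≤ 4 * (2 / ((0 : ℕ) + 1)) := by
        apply mul_le_mul_of_nonneg_left _ (by norm_num)
        exact sum_Ioo_inv_sq_le 0 (Y + 1)
    _ = 8 := by norm_num

/-- the sum of the local means -/
noncomputable def SS (f : ℤ[X]) (P : Finset ℕ) : ℝ := ∑ q ∈ P, (rho f q : ℝ) / ((q : ℝ) - 1)

lemma Sg_split (f : ℤ[X]) (z Y : ℕ) (h : z ≤ Y) :
    Sg (rho f) Y = Sg (rho f) z + ∑ q ∈ PP z Y, (rho f q : ℝ) / (q : ℝ) := by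
  classical
  unfold Sg PR PP
  rw [Nat.floor_natCast, Nat.floor_natCast, ← sum_union]
  · congr 1
    ext q
    simp only [mem_union, mem_filter, mem_Icc, mem_Ioc]
    constructor
    · rintro ⟨⟨a, b⟩, c⟩
      rcases Nat.lt_or_ge z q with h1 | h1
      · right; exact ⟨⟨h1, b⟩, c⟩
      · left; exact ⟨⟨a, h1⟩, c⟩
    · rintro (⟨⟨a, b⟩, c⟩ | ⟨⟨a, b⟩, c⟩)
      · exact ⟨⟨a, b.trans h⟩, c⟩
      · exact ⟨⟨by omega, b⟩, c⟩
  · rw [disjoint_left]
    intro q h1 h2
    rw [mem_filter, mem_Icc] at h1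
    rw [mem_filter, mem_Ioc] at h2
    omega

lemma SS_diff (f : ℤ[X]) (P : Finset ℕ) (D : ℕ) (hD : ∀ q, q.Prime → rho f q ≤ D) (z Y : ℕ) (hP : P = PP z Y) :
    ∑ q ∈ P, (rho f q : ℝ) / (q : ℝ) ≤ SS f P ∧ SS f P ≤ ∑ q ∈ P, (rho f q : ℝ) / (q : ℝ) + 8 * D := by
  have hpr : ∀ q ∈ P, (2 : ℝ) ≤ q := by
    intro q hq
    rw [hP] at hq
    exact_mod_cast (mem_PP.1 hq).2.2.two_le
  constructor
  · unfold SS
    apply sum_le_sum
    intro q hq
    have := hpr q hq
    apply div_le_div_of_nonneg_left (Nat.cast_nonneg _) (by linarith) (by linarith)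
  · have h1 : SS f P - ∑ q ∈ P, (rho f q : ℝ) / (q : ℝ) ≤ D * ∑ q ∈ P, 1 / ((q : ℝ) - 1) ^ 2 := by
      unfold SS
      rw [← sum_sub_distrib, mul_sum]
      apply sum_le_sum
      intro q hq
      have h2 := hpr q hq
      have h3 : (rho f q : ℝ) ≤ D := by
        rw [hP] at hq
        exact_mod_cast hD q (mem_PP.1 hq).2.2
      have h4 : 0 < (q : ℝ) - 1 := by linarith
      have h5 : (0 : ℝ) < q := by linarith
      have e : (rho f q : ℝ) / ((q : ℝ) - 1) - (rho f q : ℝ) / (q : ℝ) = (rho f q : ℝ) * (1 / (((q : ℝ) - 1) * q)) := by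
        field_simp
        ring
      rw [e]
      apply mul_le_mul h3 _ (by positivity) (by positivity)
      apply one_div_le_one_div_of_le (by positivity)
      nlinarith
    have h2 : (D : ℝ) * ∑ q ∈ P, 1 / ((q : ℝ) - 1) ^ 2 ≤ D * 8 := by
      apply mul_le_mul_of_nonneg_left _ (Nat.cast_nonneg _)
      rw [hP]
      exact sum_inv_sq_PP z Y
    linarith

/-- `z ≤ Y` -/
lemma z_le_Y (E : ℕ) : ∃ N4 : ℕ, ∀ N : ℕ, N4 ≤ N → ∀ z : ℕ, (z : ℝ) ≤ Real.log N ^ E → z ≤ YN N := by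
  obtain ⟨N1, h1⟩ := ev_lam 3 1 one_pos
  obtain ⟨N2, h2⟩ := par_sizes 2
  have hlim : Filter.Tendsto (fun N : ℕ => Real.log (Real.log (N : ℝ))) Filter.atTop Filter.atTop :=
    Real.tendsto_log_atTop.comp (Real.tendsto_log_atTop.comp (tendsto_natCast_atTop_atTop (R := ℝ)))
  have h5 : ∀ᶠ x : ℝ in Filter.atTop, E * Real.exp 4 ≤ Real.exp x / x ^ 2 :=
    (Real.tendsto_exp_div_pow_atTop 2).eventually_ge_atTop _
  obtain ⟨N5, h6⟩ := Filter.eventually_atTop.1 (hlim.eventually h5)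
  refine ⟨max (max N1 N2) (max N5 3), fun N hN z hz => ?_⟩
  obtain ⟨a1, a2, -⟩ := h1 N (by omega)
  obtain ⟨b1, b2, b3, b4, b5, b6⟩ := h2 N (by omega)
  have c1 := h6 N (by omega)
  set L := Real.log N with hL
  set lam := Real.log L with hlam
  have hL0 : 0 < L := by
    have hN3 : (3 : ℝ) ≤ N := by exact_mod_cast (by omega : 3 ≤ N)
    exact Real.log_pos (show (1 : ℝ) < N by linarith)
  rcases Nat.eq_zero_or_pos z with hz0 | hz0
  · omega
  have hzr : (0 : ℝ) < z := by exact_mod_cast hz0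
  have hYpos : (0 : ℝ) < YN N := by
    by_contra hcon
    have h0 : (YN N : ℝ) = 0 := le_antisymm (not_lt.1 hcon) (Nat.cast_nonneg _)
    rw [h0, Real.log_zero] at b5
    linarith
  have hlz : Real.log z ≤ E * lam := by
    have := Real.log_le_log hzr hz
    rwa [Real.log_pow] at this
  have hlogY : Real.exp (lam - Real.log lam - 4) ≤ Real.log (YN N) := by
    have := Real.exp_le_exp.2 b6
    rwa [Real.exp_log (by linarith)] at this
  have hlam0 : 0 < lam := by linarith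
  have e : Real.exp (lam - Real.log lam - 4) = Real.exp lam / (lam * Real.exp 4) := by
    rw [Real.exp_sub, Real.exp_sub, Real.exp_log hlam0, div_div]
  have h7 : E * lam ≤ Real.exp lam / (lam * Real.exp 4) := by
    rw [le_div_iff₀ (by positivity)] at c1 ⊢
    calc E * lam * (lam * Real.exp 4) = E * Real.exp 4 * lam ^ 2 := by ring
      _ ≤ _ := c1
  have h8 : Real.log z ≤ Real.log (YN N) := by
    rw [e] at hlogY
    linarith
  have h9 := (Real.log_le_log_iff hzr hYpos).1 h8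
  exact_mod_cast h9

/-- Mertens' theorem for the truncated sums -/
theorem SS_est (f : ℤ[X]) (hf : Irreducible f) (hd : 0 < f.natDegree) (D : ℕ) (hD : ∀ q, q.Prime → rho f q ≤ D) (E : ℕ) :
    ∃ (C : ℝ) (N0 : ℕ), 0 ≤ C ∧ ∀ N : ℕ, N0 ≤ N → ∀ z : ℕ, 3 ≤ z → (z : ℝ) ≤ Real.log N ^ E →
      |SS f (PP z (YN N)) - Real.log (Real.log N)| ≤ C * (1 + Real.log (Real.log (Real.log N))) := by
  obtain ⟨C, hC0, hC⟩ := Pool.Agent.H474R2.GE.mertens_rho f hf hd
  obtain ⟨N1, h1⟩ := ev_lam 3 1 one_pos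
  obtain ⟨N2, h2⟩ := par_sizes 2
  obtain ⟨N4, h4⟩ := z_le_Y E
  refine ⟨2 * C + 8 * D + E + 8, max (max N1 N2) (max N4 3), by positivity, fun N hN z hz3 hz => ?_⟩
  obtain ⟨a1, a2, -⟩ := h1 N (by omega)
  obtain ⟨b1, b2, b3, b4, b5, b6⟩ := h2 N (by omega)
  have c1 := h4 N (by omega) z hz
  have hN3 : (3 : ℝ) ≤ N := by exact_mod_cast (by omega : 3 ≤ N)
  set L := Real.log N with hL
  set lam := Real.log L with hlam
  have hL0 : 0 < L := Real.log_pos (show (1 : ℝ) < N by linarith)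
  have hz3r : (3 : ℝ) ≤ z := by exact_mod_cast hz3
  have hzY : (z : ℝ) ≤ YN N := by exact_mod_cast c1
  have hY3 : (3 : ℝ) ≤ YN N := by linarith
  have hllam : 0 ≤ Real.log lam := Real.log_nonneg a2
  have hYN : (YN N : ℝ) ≤ N := by
    refine b4.trans ?_
    calc (N : ℝ) ^ (1 / 8 : ℝ) ≤ (N : ℝ) ^ (1 : ℝ) := Real.rpow_le_rpow_of_exponent_le (by linarith) (by norm_num)
      _ = N := Real.rpow_one _
  obtain ⟨d1, d2⟩ := SS_diff f (PP z (YN N)) D hD z (YN N) rfl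
  have hsp := Sg_split f z (YN N) c1
  have e1 := abs_le.1 (hC (YN N) hY3)
  have e2 := abs_le.1 (hC z hz3r)
  have hlY : 0 < Real.log (YN N) := Real.log_pos (by linarith)
  have f1 : Real.log (Real.log (YN N)) ≤ lam := Real.log_le_log hlY (Real.log_le_log (by linarith) hYN)
  have hSz : 0 ≤ Sg (rho f) z := by
    unfold Sg
    exact sum_nonneg fun _ _ => by positivity
  have hlz1 : 1 ≤ Real.log z := by
    rw [Real.le_log_iff_exp_le (by linarith)]
    have := Real.exp_one_lt_d9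
    linarith
  have f2 : Real.log (Real.log z) ≤ E + Real.log lam := by
    have g1 : Real.log z ≤ E * lam := by
      have := Real.log_le_log (by linarith) hz
      rwa [Real.log_pow] at this
    rcases Nat.eq_zero_or_pos E with hE | hE
    · subst hE
      rw [Nat.cast_zero, zero_mul] at g1
      linarith
    have hE1 : (1 : ℝ) ≤ E := by exact_mod_cast hE
    have g2 := Real.log_le_log (by linarith) g1
    rw [Real.log_mul (by linarith) (by linarith)] at g2
    have g3 := Real.log_le_sub_one_of_pos (show (0 : ℝ) < E by linarith)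
    linarith
  have hD0 : (0 : ℝ) ≤ D := Nat.cast_nonneg _
  have hE0 : (0 : ℝ) ≤ E := Nat.cast_nonneg _
  rw [abs_le]
  constructor
  · nlinarith [mul_nonneg hC0 hllam, mul_nonneg hD0 hllam, mul_nonneg hE0 hllam]
  · nlinarith [mul_nonneg hC0 hllam, mul_nonneg hD0 hllam, mul_nonneg hE0 hllam]

/-- product and exponential -/
lemma prod_exp (P : Finset ℕ) (η : ℕ → ℂ) (h1 : ∀ q ∈ P, ‖1 + η q‖ ≤ 1) (h2 : ∀ q ∈ P, (η q).re ≤ 0)
    (h3 : ∀ q ∈ P, ‖η q‖ ≤ 1) : ‖∏ q ∈ P, (1 + η q) - Complex.exp (∑ q ∈ P, η q)‖ ≤ ∑ q ∈ P, ‖η q‖ ^ 2 := by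
  classical
  induction P using Finset.induction_on with
  | empty => simp
  | insert a P ha ih =>
    have ih' := ih (fun q hq => h1 q (mem_insert_of_mem hq)) (fun q hq => h2 q (mem_insert_of_mem hq))
      (fun q hq => h3 q (mem_insert_of_mem hq))
    rw [prod_insert ha, sum_insert ha, sum_insert ha, Complex.exp_add]
    have e : (1 + η a) * ∏ q ∈ P, (1 + η q) - Complex.exp (η a) * Complex.exp (∑ q ∈ P, η q) =
        (1 + η a) * (∏ q ∈ P, (1 + η q) - Complex.exp (∑ q ∈ P, η q)) -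
        (Complex.exp (η a) - 1 - η a) * Complex.exp (∑ q ∈ P, η q) := by ring
    rw [e]
    have b1 : ‖Complex.exp (∑ q ∈ P, η q)‖ ≤ 1 := by
      rw [Complex.norm_exp, ← Real.exp_zero, Complex.re_sum]
      exact Real.exp_le_exp.2 (sum_nonpos fun q hq => h2 q (mem_insert_of_mem hq))
    have b2 := Complex.norm_exp_sub_one_sub_id_le (h3 a (mem_insert_self _ _))
    calc _ ≤ ‖(1 + η a) * (∏ q ∈ P, (1 + η q) - Complex.exp (∑ q ∈ P, η q))‖ +
          ‖(Complex.exp (η a) - 1 - η a) * Complex.exp (∑ q ∈ P, η q)‖ := norm_sub_le _ _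
      _ ≤ ∑ q ∈ P, ‖η q‖ ^ 2 + ‖η a‖ ^ 2 := by
          rw [norm_mul, norm_mul]
          apply add_le_add
          · calc _ ≤ 1 * ‖∏ q ∈ P, (1 + η q) - Complex.exp (∑ q ∈ P, η q)‖ :=
                  mul_le_mul_of_nonneg_right (h1 a (mem_insert_self _ _)) (norm_nonneg _)
              _ ≤ _ := by rw [one_mul]; exact ih'
          · calc _ ≤ ‖η a‖ ^ 2 * 1 := mul_le_mul b2 b1 (norm_nonneg _) (by positivity)
              _ = _ := mul_one _
      _ = _ := by ring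

lemma exp_taylor (x : ℝ) (hx : |x| ≤ 1) : ‖Complex.exp (Complex.I * x) - 1 - Complex.I * x + x ^ 2 / 2‖ ≤ 3 * |x| ^ 3 := by
  have h := Complex.norm_exp_sub_sum_le_norm_mul_exp (Complex.I * x) 3
  rw [sum_range_succ, sum_range_succ, sum_range_succ, sum_range_zero] at h
  simp only [pow_zero, pow_one, Nat.factorial] at h
  have e : Complex.exp (Complex.I * x) - (0 + 1 / ((1 : ℕ) : ℂ) + Complex.I * x / ((0 + 1) * 1 : ℕ) + (Complex.I * x) ^ 2 / ((1 + 1) * ((0 + 1) * 1) : ℕ)) =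
      Complex.exp (Complex.I * x) - 1 - Complex.I * x + x ^ 2 / 2 := by
    rw [mul_pow, Complex.I_sq]
    push_cast
    ring
  rw [e] at h
  have e2 : ‖Complex.I * x‖ = |x| := by
    rw [norm_mul, Complex.norm_I, one_mul, Complex.norm_real, Real.norm_eq_abs]
  rw [e2] at h
  refine h.trans ?_
  have h3 : Real.exp |x| ≤ 3 := by
    have := Real.exp_le_exp.2 hx
    have := Real.exp_one_lt_d9
    linarith
  rw [mul_comm]
  exact mul_le_mul_of_nonneg_right h3 (by positivity)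

end Pool.Agent.K4H18.EK
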