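import Pool.Agent.K4H18.EK.A8

set_option autoImplicit false

/-! The characteristic function of the model: the limit. -/

namespace Pool.Agent.K4H18.EK

open Finset Polynomial
open Pool.Agent.H373R2.T7 (pz mem_pz)
open Pool.Agent.H474R2.PG (rho PR Sg)

/-- the arithmetic facts about a family of polynomials with the constants `R`, `D` -/
structure Facts {k : ℕ} (F : Fin k → ℤ[X]) (R D : ℕ) : Prop where
  D1 : 1 ≤ D
  zero : ∀ q : ℕ, q.Prime → R < q → ∀ i, ¬ (q : ℤ) ∣ (F i).eval 0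
  disj : ∀ q : ℕ, q.Prime → R < q → ∀ i j, i ≠ j → ∀ b : ℤ, ¬ ((q : ℤ) ∣ (F i).eval b ∧ (q : ℤ) ∣ (F j).eval b)
  rho_le : ∀ q : ℕ, q.Prime → ∀ i, rho (F i) q ≤ D

lemma exists_facts {k : ℕ} (F : Fin k → ℤ[X]) (hF : Fam F) : ∃ R D : ℕ, Facts F R D := by
  obtain ⟨R, D, h1, h2, h3⟩ := poly_facts F hF
  exact ⟨R, D, h1, fun q hq hR => (h2 q hq hR).1, fun q hq hR => (h2 q hq hR).2, h3⟩

/-- the local mean -/
noncomputable def eta {k : ℕ} (F : Fin k → ℤ[X]) (θ : Fin k → ℝ) (q : ℕ) : ℂ :=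
  (∑ b ∈ range q, hh F θ q b) / ((q : ℂ) - 1)

lemma hh_zero {k : ℕ} {F : Fin k → ℤ[X]} {R D : ℕ} (hf : Facts F R D) (θ : Fin k → ℝ) {q : ℕ} (hq : q.Prime) (hR : R < q) :
    hh F θ q 0 = 0 := by
  unfold hh
  apply sum_eq_zero
  intro i _
  rw [if_neg]
  exact_mod_cast hf.zero q hq hR i

lemma norm_one_add_hh {k : ℕ} {F : Fin k → ℤ[X]} {R D : ℕ} (hf : Facts F R D) (θ : Fin k → ℝ) {q : ℕ} (hq : q.Prime) (hR : R < q)
    (b : ℕ) : ‖1 + hh F θ q b‖ ≤ 1 := by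
  rw [one_add_hh F θ q b (fun i j hij => hf.disj q hq hR i j hij b), norm_exp_I]

lemma norm_sub_one {q : ℕ} (hq : q.Prime) : ‖(q : ℂ) - 1‖ = (q : ℝ) - 1 := by
  have e : (q : ℂ) - 1 = (((q : ℝ) - 1 : ℝ) : ℂ) := by push_cast; rfl
  have : (2 : ℝ) ≤ q := by exact_mod_cast hq.two_le
  rw [e, Complex.norm_real, Real.norm_eq_abs, abs_of_nonneg (by linarith)]

lemma norm_one_add_avg {q : ℕ} (hq : q.Prime) (h : ℕ → ℂ) (h0 : h 0 = 0) (h1 : ∀ b, ‖1 + h b‖ ≤ 1) :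
    ‖1 + (∑ b ∈ range q, h b) / ((q : ℂ) - 1)‖ ≤ 1 := by
  have h2 : (2 : ℝ) ≤ q := by exact_mod_cast hq.two_le
  have hq0 : (0 : ℝ) < (q : ℝ) - 1 := by linarith
  have hnorm := norm_sub_one hq
  have hqc : ((q : ℂ) - 1) ≠ 0 := by
    intro h
    rw [h, norm_zero] at hnorm
    linarith
  have e : 1 + (∑ b ∈ range q, h b) / ((q : ℂ) - 1) = (∑ b ∈ Ico 1 q, (1 + h b)) / ((q : ℂ) - 1) := by
    rw [sum_add_distrib, range_eq_Ico, sum_eq_sum_Ico_succ_bot hq.pos, h0, zero_add, sum_const, Nat.card_Ico,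
      nsmul_eq_mul, mul_one, Nat.cast_sub hq.one_le]
    push_cast
    rw [add_div, div_self hqc]
  rw [e, norm_div, hnorm, div_le_one hq0]
  refine (norm_sum_le _ _).trans ((sum_le_sum fun b _ => h1 b).trans ?_)
  rw [sum_const, Nat.card_Ico, nsmul_eq_mul, mul_one, Nat.cast_sub hq.one_le]
  push_cast
  exact le_rfl

lemma eta_eq {k : ℕ} (F : Fin k → ℤ[X]) (θ : Fin k → ℝ) (q : ℕ) :
    eta F θ q = ∑ i, (Complex.exp (Complex.I * θ i) - 1) * (((rho (F i) q : ℝ) / ((q : ℝ) - 1) : ℝ) : ℂ) := by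
  unfold eta
  rw [sum_hh, sum_div]
  apply sum_congr rfl
  intro i _
  push_cast
  ring

lemma eta_norm {k : ℕ} {F : Fin k → ℤ[X]} {R D : ℕ} (hf : Facts F R D) (θ : Fin k → ℝ) {q : ℕ} (hq : q.Prime) :
    ‖eta F θ q‖ ≤ (D * ∑ i, |θ i|) / ((q : ℝ) - 1) := by
  unfold eta
  have h2 : (2 : ℝ) ≤ q := by exact_mod_cast hq.two_le
  rw [norm_div, norm_sub_one hq]
  apply div_le_div_of_nonneg_right _ (by linarith)
  exact (norm_sum_le _ _).trans (sum_norm_hh F θ q D (hf.rho_le q hq))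

lemma eta_re {k : ℕ} (F : Fin k → ℤ[X]) (θ : Fin k → ℝ) {q : ℕ} (hq : q.Prime) : (eta F θ q).re ≤ 0 := by
  have h2 : (2 : ℝ) ≤ q := by exact_mod_cast hq.two_le
  rw [eta_eq, Complex.re_sum]
  apply sum_nonpos
  intro i _
  rw [Complex.re_mul_ofReal]
  apply mul_nonpos_of_nonpos_of_nonneg
  · rw [Complex.sub_re, Complex.one_re, mul_comm, Complex.exp_ofReal_mul_I_re]
    have := Real.cos_le_one (θ i)
    linarith
  · apply div_nonneg (Nat.cast_nonneg _); linarith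

theorem model_limit {k : ℕ} (F : Fin k → ℤ[X]) (hF : Fam F) (R D : ℕ) (hf : Facts F R D) (E : ℕ) (T0 ε : ℝ) (hT0 : 0 ≤ T0)
    (hε : 0 < ε) : ∃ N0 : ℕ, ∀ N : ℕ, N0 ≤ N → ∀ z : ℕ, 3 ≤ z → R ≤ z → (z : ℝ) ≤ Real.log N ^ E →
      ∀ t : Fin k → ℝ, (∀ i, |t i| ≤ T0) →
      ‖Complex.exp (-(Complex.I * ((∑ i, t i * √(Real.log (Real.log N)) : ℝ) : ℂ))) *
        ∏ q ∈ PP z (YN N), (1 + eta F (fun i => t i / √(Real.log (Real.log N))) q) -
        ((Real.exp (-∑ i, t i ^ 2 / 2) : ℝ) : ℂ)‖ ≤ ε := by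
  -- the Mertens sums
  have hS : ∀ i, ∃ (C : ℝ) (N0 : ℕ), 0 ≤ C ∧ ∀ N : ℕ, N0 ≤ N → ∀ z : ℕ, 3 ≤ z → (z : ℝ) ≤ Real.log N ^ E →
      |SS (F i) (PP z (YN N)) - Real.log (Real.log N)| ≤ C * (1 + Real.log (Real.log (Real.log N))) :=
    fun i => SS_est (F i) (hF.irr i) (hF.deg i) D (fun q hq => hf.rho_le q hq i) E
  choose C0 M0 hC0 hM0 using hS
  set Cs : ℝ := ∑ i, C0 i with hCs
  have hCs0 : 0 ≤ Cs := sum_nonneg fun i _ => hC0 i
  have hCi : ∀ i, C0 i ≤ Cs := fun i => single_le_sum (fun j _ => hC0 j) (mem_univ i)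
  set Ms : ℕ := ∑ i, M0 i with hMs
  have hMi : ∀ i, M0 i ≤ Ms := fun i => single_le_sum (f := M0) (fun j _ => Nat.zero_le _) (mem_univ i)
  set CC : ℝ := 8 * (D * (k * T0)) ^ 2 + 2 * (k * (6 * T0 ^ 3 + 2 * T0 * Cs)) with hCC
  have hD0 : (0 : ℝ) ≤ D := Nat.cast_nonneg _
  have hk0 : (0 : ℝ) ≤ k := Nat.cast_nonneg _
  obtain ⟨N1, h1⟩ := ev_lam CC (min ε 1) (by positivity)
  obtain ⟨N2, h2⟩ := ev_lam (Cs + 1) (1) one_pos
  obtain ⟨N3, h3⟩ := ev_lam ((D * (k * T0)) ^ 2 + T0 ^ 2) (1) one_pos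
  refine ⟨max (max Ms N1) (max N2 N3), fun N hN z hz3 hzR hzE t ht => ?_⟩
  obtain ⟨-, a1, a2⟩ := h1 N (by omega)
  obtain ⟨-, -, a4⟩ := h2 N (by omega)
  obtain ⟨a5, -, -⟩ := h3 N (by omega)
  set lam := Real.log (Real.log N) with hlam
  set σ := √lam with hσ
  have hlam0 : 0 < lam := by linarith
  have hσ0 : 0 < σ := Real.sqrt_pos.2 hlam0
  have hσ2 : σ * σ = lam := Real.mul_self_sqrt hlam0.le
  have hσ1 : 1 ≤ σ := by rw [hσ, Real.one_le_sqrt]; exact a1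
  have hσlam : σ ≤ lam := by nlinarith
  have hll : 0 ≤ Real.log lam := Real.log_nonneg a1
  set P := PP z (YN N) with hP
  have hPp : ∀ q ∈ P, q.Prime ∧ R < q := fun q hq => ⟨(mem_PP.1 hq).2.2, lt_of_le_of_lt hzR (mem_PP.1 hq).1⟩
  set θ : Fin k → ℝ := fun i => t i / σ with hθ
  have hθi : ∀ i, |θ i| ≤ T0 / σ := by
    intro i
    rw [hθ]
    simp only
    rw [abs_div, abs_of_pos hσ0]
    exact div_le_div_of_nonneg_right (ht i) hσ0.le
  have hTσ : T0 / σ ≤ 1 := by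
    rw [div_le_one hσ0]
    have : T0 ^ 2 ≤ lam := by nlinarith [sq_nonneg (D * (k * T0))]
    exact Real.le_sqrt_of_sq_le this
  have hTσ0 : 0 ≤ T0 / σ := by positivity
  have hsumθ : ∑ i, |θ i| ≤ k * (T0 / σ) := by
    calc ∑ i, |θ i| ≤ ∑ _i : Fin k, T0 / σ := sum_le_sum fun i _ => hθi i
      _ = k * (T0 / σ) := by rw [sum_const, card_univ, Fintype.card_fin, nsmul_eq_mul]
  have hsumθ0 : 0 ≤ ∑ i, |θ i| := sum_nonneg fun i _ => abs_nonneg _
  set G : ℝ := D * (k * (T0 / σ)) with hG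
  have hG0 : 0 ≤ G := by positivity
  have hG1 : G ≤ 1 := by
    have e : G = (D * (k * T0)) / σ := by rw [hG]; ring
    rw [e, div_le_one hσ0]
    have : (D * (k * T0)) ^ 2 ≤ lam := by nlinarith [sq_nonneg T0]
    exact Real.le_sqrt_of_sq_le this
  have hDG : D * ∑ i, |θ i| ≤ G := mul_le_mul_of_nonneg_left hsumθ hD0
  have hη : ∀ q ∈ P, ‖eta F θ q‖ ≤ G / ((q : ℝ) - 1) := by
    intro q hq
    refine (eta_norm hf θ (hPp q hq).1).trans ?_
    apply div_le_div_of_nonneg_right hDG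
    have h2 : (2 : ℝ) ≤ q := by exact_mod_cast (hPp q hq).1.two_le
    linarith
  have hη1 : ∀ q ∈ P, ‖eta F θ q‖ ≤ 1 := by
    intro q hq
    refine (hη q hq).trans ?_
    have h2 : (2 : ℝ) ≤ q := by exact_mod_cast (hPp q hq).1.two_le
    rw [div_le_one (by linarith)]
    linarith
  have s1 := prod_exp P (eta F θ)
    (fun q hq => norm_one_add_avg (hPp q hq).1 _ (hh_zero hf θ (hPp q hq).1 (hPp q hq).2)
      (fun b => norm_one_add_hh hf θ (hPp q hq).1 (hPp q hq).2 b))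
    (fun q hq => eta_re F θ (hPp q hq).1) hη1
  have s2 : ∑ q ∈ P, ‖eta F θ q‖ ^ 2 ≤ 8 * (D * (k * T0)) ^ 2 / lam := by
    calc ∑ q ∈ P, ‖eta F θ q‖ ^ 2 ≤ ∑ q ∈ P, G ^ 2 * (1 / ((q : ℝ) - 1) ^ 2) := by
          apply sum_le_sum
          intro q hq
          have := pow_le_pow_left₀ (norm_nonneg _) (hη q hq) 2
          rw [div_pow] at this
          rw [mul_one_div]
          exact this
      _ = G ^ 2 * ∑ q ∈ P, 1 / ((q : ℝ) - 1) ^ 2 := by rw [mul_sum]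
      _ ≤ G ^ 2 * 8 := mul_le_mul_of_nonneg_left (sum_inv_sq_PP z (YN N)) (by positivity)
      _ = _ := by
          rw [hG, ← hσ2]
          field_simp
  -- the exponent
  set a : ℂ := ∑ q ∈ P, eta F θ q with ha
  set b : ℂ := Complex.I * ((∑ i, t i * σ : ℝ) : ℂ) + ((-∑ i, t i ^ 2 / 2 : ℝ) : ℂ) with hb
  have ea : a = ∑ i, (Complex.exp (Complex.I * θ i) - 1) * ((SS (F i) P : ℝ) : ℂ) := by
    rw [ha]
    simp only [eta_eq]
    rw [sum_comm]
    apply sum_congr rfl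
    intro i _
    rw [← mul_sum]
    congr 1
    unfold SS
    push_cast
    rfl
  have eb : b = ∑ i, (Complex.I * θ i - θ i ^ 2 / 2) * (lam : ℂ) := by
    rw [hb]
    push_cast
    rw [mul_sum, ← sum_neg_distrib, ← sum_add_distrib]
    apply sum_congr rfl
    intro i _
    have hσc : (σ : ℂ) ≠ 0 := by exact_mod_cast hσ0.ne'
    rw [hθ]
    simp only
    push_cast
    rw [← hσ2]
    push_cast
    field_simp
    ring
  have s3 : ‖a - b‖ ≤ (k * (6 * T0 ^ 3 + 2 * T0 * Cs)) * (1 + Real.log lam) / σ := by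
    rw [ea, eb, ← sum_sub_distrib]
    have hterm : ∀ i ∈ (univ : Finset (Fin k)), ‖(Complex.exp (Complex.I * θ i) - 1) * ((SS (F i) P : ℝ) : ℂ) -
        (Complex.I * θ i - θ i ^ 2 / 2) * (lam : ℂ)‖ ≤ (6 * T0 ^ 3 + 2 * T0 * Cs) * (1 + Real.log lam) / σ := by
      intro i _
      have hSi := hM0 i N ((hMi i).trans (by omega)) z hz3 hzE
      have hSi2 : |SS (F i) P - lam| ≤ Cs * (1 + Real.log lam) :=
        hSi.trans (mul_le_mul_of_nonneg_right (hCi i) (by linarith))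
      have hSi0 : 0 ≤ SS (F i) P := by
        unfold SS
        apply sum_nonneg
        intro q hq
        have h2 : (2 : ℝ) ≤ q := by exact_mod_cast (hPp q hq).1.two_le
        apply div_nonneg (Nat.cast_nonneg _); linarith
      have hCsl : Cs * (1 + Real.log lam) ≤ lam := by
        rw [div_le_iff₀ hσ0, one_mul] at a4
        nlinarith
      have hSi3 : SS (F i) P ≤ 2 * lam := by
        have := (abs_le.1 hSi2).2
        linarith
      have e : (Complex.exp (Complex.I * θ i) - 1) * ((SS (F i) P : ℝ) : ℂ) - (Complex.I * θ i - θ i ^ 2 / 2) * (lam : ℂ) =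
          (Complex.exp (Complex.I * θ i) - 1 - Complex.I * θ i + θ i ^ 2 / 2) * ((SS (F i) P : ℝ) : ℂ) +
          (Complex.I * θ i - θ i ^ 2 / 2) * ((SS (F i) P - lam : ℝ) : ℂ) := by
        push_cast; ring
      rw [e]
      have hθ1 : |θ i| ≤ 1 := (hθi i).trans hTσ
      have n1 := exp_taylor (θ i) hθ1
      have n2 : ‖Complex.I * θ i - (θ i : ℂ) ^ 2 / 2‖ ≤ 2 * |θ i| := by
        refine (norm_sub_le _ _).trans ?_
        rw [norm_mul, Complex.norm_I, one_mul, Complex.norm_real, Real.norm_eq_abs, norm_div, norm_pow, Complex.norm_real,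
          Real.norm_eq_abs]
        have : ‖(2 : ℂ)‖ = 2 := by norm_num
        rw [this]
        have := abs_nonneg (θ i)
        nlinarith
      calc _ ≤ ‖(Complex.exp (Complex.I * θ i) - 1 - Complex.I * θ i + θ i ^ 2 / 2) * ((SS (F i) P : ℝ) : ℂ)‖ +
            ‖(Complex.I * θ i - θ i ^ 2 / 2) * ((SS (F i) P - lam : ℝ) : ℂ)‖ := norm_add_le _ _
        _ ≤ (3 * (T0 / σ) ^ 3) * (2 * lam) + (2 * (T0 / σ)) * (Cs * (1 + Real.log lam)) := by
            rw [norm_mul, norm_mul, Complex.norm_real, Complex.norm_real, Real.norm_eq_abs, Real.norm_eq_abs, abs_of_nonneg hSi0]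
            apply add_le_add
            · apply mul_le_mul (n1.trans _) hSi3 hSi0 (by positivity)
              apply mul_le_mul_of_nonneg_left _ (by norm_num)
              exact pow_le_pow_left₀ (abs_nonneg _) (hθi i) 3
            · apply mul_le_mul (n2.trans _) hSi2 (abs_nonneg _) (by positivity)
              exact mul_le_mul_of_nonneg_left (hθi i) (by norm_num)
        _ = 6 * T0 ^ 3 / σ + 2 * T0 * Cs * (1 + Real.log lam) / σ := by
            rw [← hσ2]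
            field_simp
            ring
        _ ≤ _ := by
            rw [← add_div]
            apply div_le_div_of_nonneg_right _ hσ0.le
            have : 0 ≤ T0 ^ 3 * Real.log lam := by positivity
            nlinarith
    calc _ ≤ ∑ i : Fin k, (6 * T0 ^ 3 + 2 * T0 * Cs) * (1 + Real.log lam) / σ := norm_sum_le_of_le _ hterm
      _ = _ := by rw [sum_const, card_univ, Fintype.card_fin, nsmul_eq_mul]; ring
  have hs3' : ‖a - b‖ ≤ 1 / 2 := by
    have h4 : 2 * ‖a - b‖ ≤ CC * (1 + Real.log lam) / σ := by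
      refine (mul_le_mul_of_nonneg_left s3 (by norm_num)).trans ?_
      rw [hCC, add_mul, add_div]
      have h5 : 0 ≤ 8 * (D * (k * T0)) ^ 2 * (1 + Real.log lam) / σ := by positivity
      have e : 2 * ((k * (6 * T0 ^ 3 + 2 * T0 * Cs)) * (1 + Real.log lam) / σ) =
          2 * (k * (6 * T0 ^ 3 + 2 * T0 * Cs)) * (1 + Real.log lam) / σ := by ring
      rw [e]
      linarith
    have h5 : CC * (1 + Real.log lam) / σ ≤ 1 := a2.trans (min_le_right _ _)
    linarith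
  have s4 : ‖Complex.exp (-(Complex.I * ((∑ i, t i * σ : ℝ) : ℂ))) * Complex.exp a - ((Real.exp (-∑ i, t i ^ 2 / 2) : ℝ) : ℂ)‖ ≤
      2 * ‖a - b‖ := by
    have e1 : ((Real.exp (-∑ i, t i ^ 2 / 2) : ℝ) : ℂ) =
        Complex.exp (-(Complex.I * ((∑ i, t i * σ : ℝ) : ℂ))) * Complex.exp b := by
      rw [Complex.ofReal_exp, ← Complex.exp_add, hb]
      congr 1
      ring
    rw [e1, ← mul_sub, norm_mul]
    have e2 : ‖Complex.exp (-(Complex.I * ((∑ i, t i * σ : ℝ) : ℂ)))‖ = 1 := by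
      have : -(Complex.I * ((∑ i, t i * σ : ℝ) : ℂ)) = Complex.I * ((-∑ i, t i * σ : ℝ) : ℂ) := by push_cast; ring
      rw [this]
      exact norm_exp_I _
    rw [e2, one_mul]
    have e3 : Complex.exp a - Complex.exp b = Complex.exp b * (Complex.exp (a - b) - 1) := by
      rw [mul_sub, ← Complex.exp_add, mul_one]
      congr 2
      ring
    rw [e3, norm_mul]
    have e4 : ‖Complex.exp b‖ ≤ 1 := by
      rw [Complex.norm_exp, ← Real.exp_zero]
      apply Real.exp_le_exp.2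
      rw [hb, Complex.add_re, Complex.ofReal_re, Complex.re_mul_ofReal, Complex.I_re, zero_mul, zero_add]
      have : 0 ≤ ∑ i, t i ^ 2 / 2 := sum_nonneg fun i _ => by positivity
      linarith
    have e5 := Complex.norm_exp_sub_one_le (show ‖a - b‖ ≤ 1 by linarith)
    calc ‖Complex.exp b‖ * ‖Complex.exp (a - b) - 1‖ ≤ 1 * (2 * ‖a - b‖) := mul_le_mul e4 e5 (norm_nonneg _) zero_le_one
      _ = _ := one_mul _
  -- conclusion
  have efin : Complex.exp (-(Complex.I * ((∑ i, t i * σ : ℝ) : ℂ))) * ∏ q ∈ P, (1 + eta F θ q) - ((Real.exp (-∑ i, t i ^ 2 / 2) : ℝ) : ℂ) =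
      Complex.exp (-(Complex.I * ((∑ i, t i * σ : ℝ) : ℂ))) * (∏ q ∈ P, (1 + eta F θ q) - Complex.exp a) +
      (Complex.exp (-(Complex.I * ((∑ i, t i * σ : ℝ) : ℂ))) * Complex.exp a - ((Real.exp (-∑ i, t i ^ 2 / 2) : ℝ) : ℂ)) := by ring
  rw [efin]
  have e2 : ‖Complex.exp (-(Complex.I * ((∑ i, t i * σ : ℝ) : ℂ)))‖ = 1 := by
    have : -(Complex.I * ((∑ i, t i * σ : ℝ) : ℂ)) = Complex.I * ((-∑ i, t i * σ : ℝ) : ℂ) := by push_cast; ring
    rw [this]
    exact norm_exp_I _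
  refine (norm_add_le _ _).trans ?_
  rw [norm_mul, e2, one_mul]
  refine (add_le_add (s1.trans s2) (s4.trans (mul_le_mul_of_nonneg_left s3 (by norm_num)))).trans ?_
  refine le_trans ?_ (a2.trans (min_le_left _ _))
  rw [hCC, add_mul, add_div]
  apply add_le_add
  · rw [div_le_div_iff₀ hlam0 hσ0]
    have h6 : 0 ≤ 8 * (D * (k * T0)) ^ 2 := by positivity
    calc 8 * (D * (k * T0)) ^ 2 * σ ≤ 8 * (D * (k * T0)) ^ 2 * lam := mul_le_mul_of_nonneg_left hσlam h6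
      _ ≤ 8 * (D * (k * T0)) ^ 2 * (1 + Real.log lam) * lam := by
          apply mul_le_mul_of_nonneg_right _ hlam0.le
          exact le_mul_of_one_le_right h6 (by linarith)
  · apply le_of_eq
    ring

end Pool.Agent.K4H18.EK
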